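import Pool.Agent.Lib.MP_e0f8f3_nt.Defs

set_option autoImplicit false

/-!
The correlation factor is close to one on average.
-/

namespace Pool.Agent.APC

open Finset
open Pool.Agent.BVall

private lemma cor_one_lt_qq {p : ℕ} (hp : p.Prime) : 0 < qq p := by
  unfold qq
  split_ifs
  · exact pow_pos hp.pos _
  · exact hp.pos

private lemma cor_le_qq {p : ℕ} (hp : p.Prime) : p ≤ qq p := by
  unfold qq
  split_ifs
  · exact Nat.le_self_pow (by norm_num) p
  · exact le_rfl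

private lemma cor_coprime {p p' : ℕ} (hp : p.Prime) (hp' : p'.Prime) (h : p ≠ p') :
    (qq p).Coprime (qq p') := by
  have h0 : p.Coprime p' := (Nat.coprime_primes hp hp').2 h
  unfold qq
  split_ifs
  · exact Nat.Coprime.pow _ _ h0
  · exact Nat.Coprime.pow_left _ h0
  · exact Nat.Coprime.pow_right _ h0
  · exact h0

/-- lower bound for the square of `qq p` -/
private lemma cor_qq_sq {p : ℕ} (hp : p.Prime) :
    (12 : ℝ) / (qq p : ℝ) ^ 2 ≤ (1 / 4096) * (1 / ((p : ℝ) - 1) - 1 / (p : ℝ)) ∨ 65536 < p := by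
  by_cases h : p ≤ 65536
  · left
    have h2 : (2 : ℝ) ≤ p := by exact_mod_cast hp.two_le
    have h3 : ((qq p : ℕ) : ℝ) = (p : ℝ) ^ 20 := by
      unfold qq
      rw [if_pos h]
      push_cast
      ring
    rw [h3]
    have h4 : (0 : ℝ) < (p : ℝ) - 1 := by linarith
    have h5 : (0 : ℝ) < p := by linarith
    have h6 : 1 / ((p : ℝ) - 1) - 1 / (p : ℝ) = 1 / ((p : ℝ) * ((p : ℝ) - 1)) := by
      field_simp
      ring
    rw [h6]
    have h7 : (2 : ℝ) ^ 38 ≤ (p : ℝ) ^ 38 := pow_le_pow_left₀ (by norm_num) h2 38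
    rw [div_le_iff₀ (by positivity)]
    have h8 : (p : ℝ) * ((p : ℝ) - 1) ≤ (p : ℝ) ^ 2 := by nlinarith
    have h9 : (1 : ℝ) / (p : ℝ) ^ 2 ≤ 1 / ((p : ℝ) * ((p : ℝ) - 1)) :=
      one_div_le_one_div_of_le (by positivity) h8
    have h10 : (1 / 4096 : ℝ) * (1 / (p : ℝ) ^ 2) * ((p : ℝ) ^ 20) ^ 2 = (1 / 4096) * (p : ℝ) ^ 38 := by
      field_simp
    have h11 : (12 : ℝ) ≤ (1 / 4096) * (p : ℝ) ^ 38 := by
      have : (12 : ℝ) ≤ (1 / 4096) * 2 ^ 38 := by norm_num
      linarith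
    calc (12 : ℝ) ≤ (1 / 4096) * (1 / (p : ℝ) ^ 2) * ((p : ℝ) ^ 20) ^ 2 := by rw [h10]; exact h11
      _ ≤ (1 / 4096) * (1 / ((p : ℝ) * ((p : ℝ) - 1))) * ((p : ℝ) ^ 20) ^ 2 := by
          gcongr
  · right
    omega

/-- telescoping sums over the integers from `2` on -/
private lemma cor_tele (a N : ℕ) :
    ∑ k ∈ Ico (a + 1) N, (1 / ((k : ℝ) - 1) - 1 / (k : ℝ)) ≤ 1 / (a : ℝ) := by
  induction N with
  | zero => simp
  | succ N ih =>
    by_cases h : a + 1 ≤ N
    · have : ∀ M : ℕ, a + 1 ≤ M →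
          ∑ k ∈ Ico (a + 1) M, (1 / ((k : ℝ) - 1) - 1 / (k : ℝ)) = 1 / (a : ℝ) - 1 / ((M : ℝ) - 1) := by
        intro M hM
        induction M, hM using Nat.le_induction with
        | base => simp
        | succ M hM ih2 =>
          rw [Finset.sum_Ico_succ_top hM, ih2]
          push_cast
          ring
      rw [this (N + 1) (by omega)]
      have h2 : (0 : ℝ) ≤ 1 / (((N + 1 : ℕ) : ℝ) - 1) := by
        push_cast
        have : (0 : ℝ) ≤ (N : ℝ) := Nat.cast_nonneg N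
        have h3 : ((N : ℝ) + 1 - 1) = N := by ring
        rw [h3]
        positivity
      linarith
    · have : Ico (a + 1) (N + 1) = ∅ := by
        rw [Finset.Ico_eq_empty_iff]
        omega
      rw [this]
      simp

private lemma cor_sum_sq (n : ℕ) : ∑ p ∈ PK 4 n, (12 : ℝ) / (qq p : ℝ) ^ 2 ≤ 1 / 2000 := by
  have hsplit := Finset.sum_filter_add_sum_filter_not (PK 4 n) (fun p => p ≤ 65536)
    (fun p => (12 : ℝ) / (qq p : ℝ) ^ 2)
  rw [← hsplit]
  have h1 : ∑ p ∈ (PK 4 n).filter (fun p => p ≤ 65536), (12 : ℝ) / (qq p : ℝ) ^ 2 ≤ 1 / 4096 := by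
    calc ∑ p ∈ (PK 4 n).filter (fun p => p ≤ 65536), (12 : ℝ) / (qq p : ℝ) ^ 2
        ≤ ∑ p ∈ (PK 4 n).filter (fun p => p ≤ 65536),
            (1 / 4096) * (1 / ((p : ℝ) - 1) - 1 / (p : ℝ)) := by
          apply Finset.sum_le_sum
          intro p hp
          rw [Finset.mem_filter, mem_PK] at hp
          rcases cor_qq_sq hp.1.1 with h | h
          · exact h
          · omega
      _ ≤ ∑ p ∈ (Ico (1 + 1) 65537 : Finset ℕ), (1 / 4096) * (1 / ((p : ℝ) - 1) - 1 / (p : ℝ)) := by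
          apply Finset.sum_le_sum_of_subset_of_nonneg
          · intro p hp
            rw [Finset.mem_filter, mem_PK] at hp
            rw [Finset.mem_Ico]
            have := hp.1.1.two_le
            omega
          · intro k hk _
            rw [Finset.mem_Ico] at hk
            have h2 : (2 : ℝ) ≤ k := by exact_mod_cast hk.1
            have h3 : (1 : ℝ) / k ≤ 1 / ((k : ℝ) - 1) :=
              one_div_le_one_div_of_le (by linarith) (by linarith)
            have : (0 : ℝ) ≤ 1 / ((k : ℝ) - 1) - 1 / (k : ℝ) := by linarith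
            positivity
      _ = (1 / 4096) * ∑ p ∈ (Ico (1 + 1) 65537 : Finset ℕ), (1 / ((p : ℝ) - 1) - 1 / (p : ℝ)) := by
          rw [Finset.mul_sum]
      _ ≤ (1 / 4096) * (1 / ((1 : ℕ) : ℝ)) := by
          have := cor_tele 1 65537
          gcongr
      _ = 1 / 4096 := by norm_num
  have h2 : ∑ p ∈ (PK 4 n).filter (fun p => ¬ p ≤ 65536), (12 : ℝ) / (qq p : ℝ) ^ 2 ≤ 12 / 65536 := by
    calc ∑ p ∈ (PK 4 n).filter (fun p => ¬ p ≤ 65536), (12 : ℝ) / (qq p : ℝ) ^ 2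
        ≤ ∑ p ∈ (PK 4 n).filter (fun p => ¬ p ≤ 65536),
            12 * (1 / ((p : ℝ) - 1) - 1 / (p : ℝ)) := by
          apply Finset.sum_le_sum
          intro p hp
          rw [Finset.mem_filter, mem_PK] at hp
          have h3 : qq p = p := by
            unfold qq
            rw [if_neg hp.2]
          rw [h3]
          have h2 : (2 : ℝ) ≤ p := by exact_mod_cast hp.1.1.two_le
          have h4 : (0 : ℝ) < (p : ℝ) - 1 := by linarith
          have h5 : (0 : ℝ) < p := by linarith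
          have h6 : 1 / ((p : ℝ) - 1) - 1 / (p : ℝ) = 1 / ((p : ℝ) * ((p : ℝ) - 1)) := by
            field_simp
            ring
          rw [h6]
          have h8 : (p : ℝ) * ((p : ℝ) - 1) ≤ (p : ℝ) ^ 2 := by nlinarith
          have h9 : (1 : ℝ) / (p : ℝ) ^ 2 ≤ 1 / ((p : ℝ) * ((p : ℝ) - 1)) :=
            one_div_le_one_div_of_le (by positivity) h8
          calc (12 : ℝ) / (p : ℝ) ^ 2 = 12 * (1 / (p : ℝ) ^ 2) := by ring
            _ ≤ _ := by gcongr
      _ ≤ ∑ p ∈ (Ico (65536 + 1) (2 ^ 2 ^ (4 + n) + 1) : Finset ℕ), 12 * (1 / ((p : ℝ) - 1) - 1 / (p : ℝ)) := by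
          apply Finset.sum_le_sum_of_subset_of_nonneg
          · intro p hp
            rw [Finset.mem_filter, mem_PK] at hp
            rw [Finset.mem_Ico]
            omega
          · intro k hk _
            rw [Finset.mem_Ico] at hk
            have h2 : (2 : ℝ) ≤ k := by
              have : 2 ≤ k := by omega
              exact_mod_cast this
            have h3 : (1 : ℝ) / k ≤ 1 / ((k : ℝ) - 1) :=
              one_div_le_one_div_of_le (by linarith) (by linarith)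
            have : (0 : ℝ) ≤ 1 / ((k : ℝ) - 1) - 1 / (k : ℝ) := by linarith
            positivity
      _ = 12 * ∑ p ∈ (Ico (65536 + 1) (2 ^ 2 ^ (4 + n) + 1) : Finset ℕ), (1 / ((p : ℝ) - 1) - 1 / (p : ℝ)) := by
          rw [Finset.mul_sum]
      _ ≤ 12 * (1 / ((65536 : ℕ) : ℝ)) := by
          have := cor_tele 65536 (2 ^ 2 ^ (4 + n) + 1)
          gcongr
      _ = 12 / 65536 := by norm_num
  have h3 : (1 / 4096 : ℝ) + 12 / 65536 ≤ 1 / 2000 := by norm_num
  linarith

private lemma cor_prod_sq (n : ℕ) : ∏ p ∈ PK 4 n, (1 + (12 : ℝ) / (qq p : ℝ) ^ 2) ≤ 1 + 1 / 1000 := by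
  have h1 : ∏ p ∈ PK 4 n, (1 + (12 : ℝ) / (qq p : ℝ) ^ 2) ≤
      ∏ p ∈ PK 4 n, Real.exp ((12 : ℝ) / (qq p : ℝ) ^ 2) := by
    apply Finset.prod_le_prod
    · intro p _
      positivity
    · intro p _
      have := Real.add_one_le_exp ((12 : ℝ) / (qq p : ℝ) ^ 2)
      linarith
  rw [← Real.exp_sum] at h1
  have h2 : Real.exp (∑ p ∈ PK 4 n, (12 : ℝ) / (qq p : ℝ) ^ 2) ≤ Real.exp (1 / 2000) :=
    Real.exp_le_exp.2 (cor_sum_sq n)
  have h3 : Real.exp (1 / 2000) ≤ 1 + 1 / 1000 := by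
    have h4 := Real.add_one_le_exp (-(1 / 2000 : ℝ))
    have h5 : Real.exp (1 / 2000) = 1 / Real.exp (-(1 / 2000 : ℝ)) := by
      rw [Real.exp_neg]
      simp
    rw [h5]
    calc 1 / Real.exp (-(1 / 2000 : ℝ)) ≤ 1 / (-(1 / 2000 : ℝ) + 1) :=
          one_div_le_one_div_of_le (by norm_num) h4
      _ ≤ 1 + 1 / 1000 := by norm_num
  linarith

private lemma cor_prod_lin (n : ℕ) : ∏ p ∈ PK 4 n, (1 + (12 : ℝ) / (qq p : ℝ)) ≤
    ((2 : ℝ) ^ 2 ^ (4 + n) + 1) ^ 12 := by
  have hX : ∀ X : ℕ, ∏ k ∈ Ico 1 (X + 1), (1 + 1 / (k : ℝ)) = (X : ℝ) + 1 := by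
    intro X
    induction X with
    | zero => simp
    | succ X ih =>
      rw [Finset.prod_Ico_succ_top (by omega), ih]
      push_cast
      have : ((X : ℝ) + 1) ≠ 0 := by positivity
      field_simp
  calc ∏ p ∈ PK 4 n, (1 + (12 : ℝ) / (qq p : ℝ))
      ≤ ∏ p ∈ PK 4 n, (1 + 1 / (p : ℝ)) ^ 12 := by
        apply Finset.prod_le_prod
        · intro p _
          positivity
        · intro p hp
          rw [mem_PK] at hp
          have h5 : (0 : ℝ) < p := by exact_mod_cast hp.1.pos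
          have h1 : (12 : ℝ) / (qq p : ℝ) ≤ 12 / (p : ℝ) := by
            have h2 : (p : ℝ) ≤ (qq p : ℝ) := by exact_mod_cast cor_le_qq hp.1
            exact div_le_div_of_nonneg_left (by norm_num) h5 h2
          have h3 : 1 + ((12 : ℕ) : ℝ) * (1 / (p : ℝ)) ≤ (1 + 1 / (p : ℝ)) ^ 12 :=
            one_add_mul_le_pow (by
              have : (0 : ℝ) ≤ 1 / (p : ℝ) := by positivity
              linarith) 12
          have h4 : 1 + ((12 : ℕ) : ℝ) * (1 / (p : ℝ)) = 1 + 12 / (p : ℝ) := by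
            push_cast
            ring
          linarith
    _ = (∏ p ∈ PK 4 n, (1 + 1 / (p : ℝ))) ^ 12 := by
        rw [Finset.prod_pow]
    _ ≤ (∏ k ∈ (Ico 1 (2 ^ 2 ^ (4 + n) + 1) : Finset ℕ), (1 + 1 / (k : ℝ))) ^ 12 := by
        apply pow_le_pow_left₀
        · apply Finset.prod_nonneg
          intro p _
          positivity
        · apply Finset.prod_le_prod_of_subset_of_one_le
          · intro p hp
            rw [mem_PK] at hp
            rw [Finset.mem_Ico]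
            have := hp.1.pos
            omega
          · intro p _
            positivity
          · intro k _ _
            have : (0 : ℝ) ≤ 1 / (k : ℝ) := by positivity
            linarith
    _ = ((2 : ℝ) ^ 2 ^ (4 + n) + 1) ^ 12 := by
        rw [hX]
        push_cast
        ring

theorem p_cor (h1 : S_crt) : S_cor := by
  classical
  refine ⟨4096, ?_⟩
  intro n M a O hO
  have hexp : ∀ t : ℕ, ∏ p ∈ PK 4 n,
      (1 + 3 / (qq p : ℝ) * (if t % qq p ∈ O p then (1 : ℝ) else 0)) =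
      ∑ T ∈ (PK 4 n).powerset, (∏ p ∈ T, 3 / (qq p : ℝ)) *
        (if ∀ p ∈ T, t % qq p ∈ O p then (1 : ℝ) else 0) := by
    intro t
    rw [Finset.prod_one_add]
    apply Finset.sum_congr rfl
    intro T _
    rw [Finset.prod_mul_distrib, Finset.prod_ite_zero]
    simp
  have hsum : ∑ t ∈ Ico a (a + M), ∏ p ∈ PK 4 n,
      (1 + 3 / (qq p : ℝ) * (if t % qq p ∈ O p then (1 : ℝ) else 0)) =
      ∑ T ∈ (PK 4 n).powerset, (∏ p ∈ T, 3 / (qq p : ℝ)) *
        (((Ico a (a + M)).filter (fun t => ∀ p ∈ T, t % qq p ∈ O p)).card : ℝ) := by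
    rw [Finset.sum_congr rfl (fun t _ => hexp t), Finset.sum_comm]
    apply Finset.sum_congr rfl
    intro T _
    rw [← Finset.mul_sum, Finset.sum_boole]
  rw [hsum]
  have hterm : ∀ T ∈ (PK 4 n).powerset, (∏ p ∈ T, 3 / (qq p : ℝ)) *
        (((Ico a (a + M)).filter (fun t => ∀ p ∈ T, t % qq p ∈ O p)).card : ℝ) ≤
      (M : ℝ) * ∏ p ∈ T, ((12 : ℝ) / (qq p : ℝ) ^ 2) + ∏ p ∈ T, ((12 : ℝ) / (qq p : ℝ)) := by
    intro T hT
    rw [Finset.mem_powerset] at hT
    have hpr : ∀ p ∈ T, p.Prime := fun p hp => (mem_PK.1 (hT hp)).1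
    have hq : ∀ p ∈ T, (0 : ℝ) < (qq p : ℝ) := fun p hp => by
      exact_mod_cast cor_one_lt_qq (hpr p hp)
    have h2 := h1 T qq O a M (fun p hp => cor_one_lt_qq (hpr p hp))
      (fun p hp p' hp' hne => cor_coprime (hpr p hp) (hpr p' hp') hne)
      (fun p hp => (hO p (hpr p hp)).1)
    have h3 := (abs_le.1 h2).2
    have h4 : ∏ p ∈ T, ((O p).card : ℝ) / (qq p : ℝ) ≤ ∏ p ∈ T, (4 : ℝ) / (qq p : ℝ) := by
      apply Finset.prod_le_prod
      · intro p _
        positivity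
      · intro p hp
        have h5 : ((O p).card : ℝ) ≤ 4 := by exact_mod_cast (hO p (hpr p hp)).2
        have := hq p hp
        gcongr
    have h6 : ∏ p ∈ T, ((O p).card : ℝ) ≤ ∏ _p ∈ T, (4 : ℝ) := by
      apply Finset.prod_le_prod
      · intro p _
        positivity
      · intro p hp
        exact_mod_cast (hO p (hpr p hp)).2
    have h7 : (((Ico a (a + M)).filter (fun t => ∀ p ∈ T, t % qq p ∈ O p)).card : ℝ) ≤
        M * ∏ p ∈ T, (4 : ℝ) / (qq p : ℝ) + ∏ _p ∈ T, (4 : ℝ) := by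
      have hM : (0 : ℝ) ≤ M := Nat.cast_nonneg M
      have := mul_le_mul_of_nonneg_left h4 hM
      linarith
    have h8 : (0 : ℝ) ≤ ∏ p ∈ T, 3 / (qq p : ℝ) := by
      apply Finset.prod_nonneg
      intro p _
      positivity
    calc (∏ p ∈ T, 3 / (qq p : ℝ)) *
          (((Ico a (a + M)).filter (fun t => ∀ p ∈ T, t % qq p ∈ O p)).card : ℝ)
        ≤ (∏ p ∈ T, 3 / (qq p : ℝ)) *
          (M * ∏ p ∈ T, (4 : ℝ) / (qq p : ℝ) + ∏ _p ∈ T, (4 : ℝ)) :=
          mul_le_mul_of_nonneg_left h7 h8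
      _ = (M : ℝ) * ∏ p ∈ T, ((3 / (qq p : ℝ)) * ((4 : ℝ) / (qq p : ℝ))) +
          ∏ p ∈ T, ((3 / (qq p : ℝ)) * 4) := by
          rw [Finset.prod_mul_distrib, Finset.prod_mul_distrib]
          ring
      _ = _ := by
          have e1 : ∏ p ∈ T, ((3 / (qq p : ℝ)) * ((4 : ℝ) / (qq p : ℝ))) =
              ∏ p ∈ T, ((12 : ℝ) / (qq p : ℝ) ^ 2) := by
            apply Finset.prod_congr rfl
            intro p hp
            have := hq p hp
            field_simp
            norm_num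
          have e2 : ∏ p ∈ T, ((3 / (qq p : ℝ)) * 4) = ∏ p ∈ T, ((12 : ℝ) / (qq p : ℝ)) := by
            apply Finset.prod_congr rfl
            intro p hp
            have := hq p hp
            field_simp
            norm_num
          rw [e1, e2]
  refine (Finset.sum_le_sum hterm).trans ?_
  rw [Finset.sum_add_distrib, ← Finset.mul_sum, ← Finset.prod_one_add, ← Finset.prod_one_add]
  have h9 := cor_prod_sq n
  have h10 := cor_prod_lin n
  have hM : (0 : ℝ) ≤ M := Nat.cast_nonneg M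
  have h11 := mul_le_mul_of_nonneg_left h9 hM
  have hX : (1 : ℝ) ≤ (2 : ℝ) ^ 2 ^ (4 + n) := one_le_pow₀ (by norm_num)
  have h12 : ((2 : ℝ) ^ 2 ^ (4 + n) + 1) ^ 12 ≤ ((4096 : ℕ) : ℝ) * ((2 : ℝ) ^ 2 ^ (4 + n)) ^ 12 := by
    calc ((2 : ℝ) ^ 2 ^ (4 + n) + 1) ^ 12 ≤ (2 * (2 : ℝ) ^ 2 ^ (4 + n)) ^ 12 := by
          apply pow_le_pow_left₀ (by positivity)
          linarith
      _ = 4096 * ((2 : ℝ) ^ 2 ^ (4 + n)) ^ 12 := by
          rw [mul_pow]
          norm_num
      _ = _ := by norm_num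
  rw [mul_comm (1 + 1 / 1000 : ℝ) (M : ℝ)]
  exact add_le_add h11 (h10.trans h12)

end Pool.Agent.APC
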