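import Mathlib
import Pool.Agent.Lib.MP_e0f8f3_nt.Defs

set_option autoImplicit false

/-!
Counting an interval with residue conditions at pairwise coprime moduli.
-/

namespace Pool.Agent.APC

open Finset
open Pool.Agent.BVall

private lemma crt_class (Q : ℕ) (hQ : 0 < Q) (a N c : ℕ) :
    |(((Ico a (a + N)).filter (fun y => y ≡ c [MOD Q])).card : ℝ) - (N : ℝ) / (Q : ℝ)| ≤ 1 := by
  have h := Nat.Ico_filter_modEq_card a (a + N) hQ c
  set n1 : ℤ := ⌈(((a + N : ℕ) : ℚ) - (c : ℚ)) / (Q : ℚ)⌉ with hn1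
  set n2 : ℤ := ⌈((a : ℚ) - (c : ℚ)) / (Q : ℚ)⌉ with hn2
  have hQ' : (0 : ℚ) < Q := by exact_mod_cast hQ
  have e : (((a + N : ℕ) : ℚ) - (c : ℚ)) / (Q : ℚ) = ((a : ℚ) - (c : ℚ)) / (Q : ℚ) + N / Q := by
    push_cast; ring
  have hN : (0 : ℚ) ≤ (N : ℚ) / Q := by positivity
  have h1 := Int.le_ceil ((((a + N : ℕ) : ℚ) - (c : ℚ)) / (Q : ℚ))
  have h2 := Int.ceil_lt_add_one ((((a + N : ℕ) : ℚ) - (c : ℚ)) / (Q : ℚ))
  have h3 := Int.le_ceil (((a : ℚ) - (c : ℚ)) / (Q : ℚ))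
  have h4 := Int.ceil_lt_add_one (((a : ℚ) - (c : ℚ)) / (Q : ℚ))
  rw [← hn1] at h1 h2
  rw [← hn2] at h3 h4
  have hle : n2 ≤ n1 := by
    apply Int.ceil_le_ceil
    rw [e]; linarith
  have hmax : max (n1 - n2) 0 = n1 - n2 := max_eq_left (by omega)
  rw [hmax] at h
  have hq : |((((Ico a (a + N)).filter (fun y => y ≡ c [MOD Q])).card : ℚ)) - (N : ℚ) / (Q : ℚ)| ≤ 1 := by
    have hc : (((Ico a (a + N)).filter (fun y => y ≡ c [MOD Q])).card : ℚ) = (n1 : ℚ) - n2 := by
      exact_mod_cast h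
    rw [hc, abs_le]
    constructor <;> linarith
  have := (Rat.cast_le (K := ℝ)).2 hq
  push_cast at this
  exact this

private lemma crt_unique (T : Finset ℕ) (q : ℕ → ℕ)
    (hco : ∀ p ∈ T, ∀ p' ∈ T, p ≠ p' → (q p).Coprime (q p')) (y c : ℕ) :
    (∀ p ∈ T, y ≡ c [MOD q p]) ↔ y ≡ c [MOD ∏ p ∈ T, q p] := by
  constructor
  · intro h
    rw [Nat.modEq_iff_dvd]
    push_cast
    apply Finset.prod_dvd_of_coprime
    · intro p hp p' hp' hne
      exact (Nat.isCoprime_iff_coprime).2 (hco p hp p' hp' hne)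
    · intro p hp
      exact (Nat.modEq_iff_dvd).1 (h p hp)
  · intro h p hp
    exact h.of_dvd (Finset.dvd_prod_of_mem q hp)

private lemma crt_exists (T : Finset ℕ) (q : ℕ → ℕ) (hq : ∀ p ∈ T, 0 < q p)
    (hco : ∀ p ∈ T, ∀ p' ∈ T, p ≠ p' → (q p).Coprime (q p')) (f : ℕ → ℕ) :
    ∃ c : ℕ, ∀ p ∈ T, c ≡ f p [MOD q p] := by
  obtain ⟨k, hk⟩ := Nat.chineseRemainderOfFinset f q T
    (fun i hi => (hq i hi).ne') (fun p hp p' hp' hne => hco p hp p' hp' hne)
  exact ⟨k, hk⟩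

theorem p_crt : S_crt := by
  classical
  intro T q A a N hq hco hA
  set Q : ℕ := ∏ p ∈ T, q p with hQdef
  have hQ : 0 < Q := Finset.prod_pos hq
  set I : Finset ℕ := (Ico a (a + N)).filter (fun y => ∀ p ∈ T, y % q p ∈ A p) with hI
  let F : ℕ → (∀ p ∈ T, ℕ) := fun y p _ => y % q p
  have hmaps : ∀ y ∈ I, F y ∈ T.pi A := by
    intro y hy
    rw [Finset.mem_pi]
    intro p hp
    exact (Finset.mem_filter.1 hy).2 p hp
  have hcard : I.card = ∑ f ∈ T.pi A, (I.filter (fun y => F y = f)).card :=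
    Finset.card_eq_sum_card_fiberwise hmaps
  have hfib : ∀ f ∈ T.pi A,
      |((I.filter (fun y => F y = f)).card : ℝ) - (N : ℝ) / (Q : ℝ)| ≤ 1 := by
    intro f hf
    rw [Finset.mem_pi] at hf
    obtain ⟨c, hc⟩ := crt_exists T q hq hco (fun p => if h : p ∈ T then f p h else 0)
    have heq : I.filter (fun y => F y = f) = (Ico a (a + N)).filter (fun y => y ≡ c [MOD Q]) := by
      ext y
      simp only [hI, Finset.mem_filter]
      constructor
      · rintro ⟨⟨hy, hyA⟩, hF⟩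
        refine ⟨hy, (crt_unique T q hco y c).1 ?_⟩
        intro p hp
        have h1 : y % q p = f p hp := congrFun (congrFun hF p) hp
        have h2 := hc p hp
        simp only [hp, dif_pos] at h2
        rw [← h1] at h2
        exact ((Nat.mod_modEq y (q p)).symm.trans h2.symm)
      · rintro ⟨hy, hyc⟩
        have hyc' := (crt_unique T q hco y c).2 hyc
        have key : ∀ p (hp : p ∈ T), y % q p = f p hp := by
          intro p hp
          have h2 := hc p hp
          simp only [hp, dif_pos] at h2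
          have h3 : y ≡ f p hp [MOD q p] := (hyc' p hp).trans h2
          have h4 : f p hp < q p := Finset.mem_range.1 (hA p hp (hf p hp))
          have h5 : y % q p = f p hp % q p := h3
          rw [Nat.mod_eq_of_lt h4] at h5
          exact h5
        refine ⟨⟨hy, ?_⟩, ?_⟩
        · intro p hp
          rw [key p hp]
          exact hf p hp
        · funext p hp
          exact key p hp
    rw [heq]
    exact crt_class Q hQ a N c
  have hpi : ((T.pi A).card : ℝ) = ∏ p ∈ T, ((A p).card : ℝ) := by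
    rw [Finset.card_pi]
    push_cast
    rfl
  have hmain : (N : ℝ) * ∏ p ∈ T, ((A p).card : ℝ) / (q p : ℝ) =
      ∑ f ∈ T.pi A, (N : ℝ) / (Q : ℝ) := by
    rw [Finset.sum_const, nsmul_eq_mul, hpi, Finset.prod_div_distrib, hQdef]
    push_cast
    ring
  rw [hmain, hcard]
  push_cast
  rw [← Finset.sum_sub_distrib]
  calc |∑ f ∈ T.pi A, (((I.filter (fun y => F y = f)).card : ℝ) - (N : ℝ) / (Q : ℝ))|
      ≤ ∑ f ∈ T.pi A, |((I.filter (fun y => F y = f)).card : ℝ) - (N : ℝ) / (Q : ℝ)| :=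
        Finset.abs_sum_le_sum_abs _ _
    _ ≤ ∑ f ∈ T.pi A, (1 : ℝ) := Finset.sum_le_sum hfib
    _ = ∏ p ∈ T, ((A p).card : ℝ) := by
        rw [Finset.sum_const, nsmul_eq_mul, mul_one, hpi]

end Pool.Agent.APC
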