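import Pool.Agent.Lib.MP_e0f8f3_nt.Defs

set_option autoImplicit false

/-!
Expansion from the two-sided sieve by the weighted Cauchy-Schwarz inequality.
-/

namespace Pool.Agent.APC

open Finset
open Pool.Agent.BVall

private lemma ex_qq_pos {p : ℕ} (hp : p.Prime) : 0 < qq p := by
  unfold qq
  split_ifs with h
  · exact pow_pos hp.pos _
  · exact hp.pos

private noncomputable def ex_A (Rl : ℕ → ℕ → ℕ → Prop) (x p : ℕ) : Finset ℕ := by
  classical exact (range (qq p)).filter (fun y => Rl p x y)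

private noncomputable def ex_Bk (Rl : ℕ → ℕ → ℕ → Prop) (y p : ℕ) : Finset ℕ := by
  classical exact (range (qq p)).filter (fun x => Rl p x y)

private noncomputable def ex_O (Rl : ℕ → ℕ → ℕ → Prop) (x p : ℕ) : Finset ℕ := by
  classical exact (ex_A Rl x p).biUnion (fun y => ex_Bk Rl y p)

private lemma ex_mem_A {Rl : ℕ → ℕ → ℕ → Prop} {x p y : ℕ} :
    y ∈ ex_A Rl x p ↔ y < qq p ∧ Rl p x y := by
  classical
  unfold ex_A
  simp [mem_filter]

private lemma ex_mem_B {Rl : ℕ → ℕ → ℕ → Prop} {x p y : ℕ} :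
    x ∈ ex_Bk Rl y p ↔ x < qq p ∧ Rl p x y := by
  classical
  unfold ex_Bk
  simp [mem_filter]

private lemma ex_card_A {Rl : ℕ → ℕ → ℕ → Prop}
    (h : ∀ p x, p.Prime → {y | y < qq p ∧ Rl p x y}.ncard ≤ 2) {p : ℕ} (hp : p.Prime) (x : ℕ) :
    (ex_A Rl x p).card ≤ 2 := by
  have h1 := h p x hp
  have e : {y | y < qq p ∧ Rl p x y} = (ex_A Rl x p : Set ℕ) := by
    ext y
    simp only [Set.mem_ofPred_eq, mem_coe, ex_mem_A]
  rwa [e, Set.ncard_coe_finset] at h1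

private lemma ex_card_B {Rl : ℕ → ℕ → ℕ → Prop}
    (h : ∀ p y, p.Prime → {x | x < qq p ∧ Rl p x y}.ncard ≤ 2) {p : ℕ} (hp : p.Prime) (y : ℕ) :
    (ex_Bk Rl y p).card ≤ 2 := by
  have h1 := h p y hp
  have e : {x | x < qq p ∧ Rl p x y} = (ex_Bk Rl y p : Set ℕ) := by
    ext x
    simp only [Set.mem_ofPred_eq, mem_coe, ex_mem_B]
  rwa [e, Set.ncard_coe_finset] at h1

private lemma ex_sub_A (Rl : ℕ → ℕ → ℕ → Prop) (x p : ℕ) : ex_A Rl x p ⊆ range (qq p) := by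
  intro y hy
  exact mem_range.2 (ex_mem_A.1 hy).1

private lemma ex_sub_O (Rl : ℕ → ℕ → ℕ → Prop) (x p : ℕ) : ex_O Rl x p ⊆ range (qq p) := by
  classical
  intro y hy
  unfold ex_O at hy
  rw [mem_biUnion] at hy
  obtain ⟨z, _, hz⟩ := hy
  exact mem_range.2 (ex_mem_B.1 hz).1

private lemma ex_card_O {Rl : ℕ → ℕ → ℕ → Prop}
    (h : ∀ p x, p.Prime → {y | y < qq p ∧ Rl p x y}.ncard ≤ 2)
    (h' : ∀ p y, p.Prime → {x | x < qq p ∧ Rl p x y}.ncard ≤ 2) {p : ℕ} (hp : p.Prime) (x : ℕ) :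
    (ex_O Rl x p).card ≤ 4 := by
  classical
  unfold ex_O
  calc ((ex_A Rl x p).biUnion (fun y => ex_Bk Rl y p)).card
      ≤ ∑ y ∈ ex_A Rl x p, (ex_Bk Rl y p).card := card_biUnion_le
    _ ≤ ∑ _y ∈ ex_A Rl x p, 2 := sum_le_sum fun y _ => ex_card_B h' hp y
    _ = (ex_A Rl x p).card * 2 := by rw [sum_const, smul_eq_mul]
    _ ≤ 2 * 2 := Nat.mul_le_mul_right _ (ex_card_A h hp x)

private lemma ex_notdisj {Rl : ℕ → ℕ → ℕ → Prop}
    (hper : ∀ p x y, Rl p x y ↔ Rl p (x % qq p) y) {p x x' : ℕ} (hp : p.Prime)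
    (h : ¬ Disjoint (ex_A Rl x p) (ex_A Rl x' p)) : x' % qq p ∈ ex_O Rl x p := by
  classical
  rw [not_disjoint_iff] at h
  obtain ⟨y, h1, h2⟩ := h
  unfold ex_O
  rw [mem_biUnion]
  refine ⟨y, h1, ex_mem_B.2 ⟨Nat.mod_lt _ (ex_qq_pos hp), ?_⟩⟩
  exact (hper p x' y).1 (ex_mem_A.1 h2).2

private noncomputable def ex_W (Rl : ℕ → ℕ → ℕ → Prop) (n x : ℕ) : ℝ :=
  ∏ p ∈ PK 4 n, (1 - ((ex_A Rl x p).card : ℝ) / (qq p : ℝ))

private noncomputable def ex_g (Rl : ℕ → ℕ → ℕ → Prop) (n x y : ℕ) : ℝ := by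
  classical exact if ∀ p ∈ PK 4 n, ¬ Rl p x y then 1 else 0

private lemma ex_g_iff {Rl : ℕ → ℕ → ℕ → Prop} (hper : ∀ p x y, Rl p x y ↔ Rl p x (y % qq p))
    {n : ℕ} (x y : ℕ) : (∀ p ∈ PK 4 n, ¬ Rl p x y) ↔ ∀ p ∈ PK 4 n, y % qq p ∉ ex_A Rl x p := by
  refine forall₂_congr fun p hp => ?_
  have hpp := (mem_PK.1 hp).1
  rw [ex_mem_A, hper p x y]
  have := Nat.mod_lt y (ex_qq_pos hpp)
  tauto

private lemma ex_real (C1 C2 C4 : ℕ) (X N : ℝ) (hX : 1 ≤ X)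
    (hN : ((1000 * (C1 * C2 + C1 * C2 ^ 2 + C4) : ℕ) : ℝ) * X ^ 88 ≤ N) :
    C1 * X ^ 86 * (C2 * X) ≤ N / 1000 ∧ C1 * X ^ 86 * (C2 * X) ^ 2 ≤ N / 1000 ∧
    C4 * X ^ 12 ≤ N / 1000 := by
  have key : ∀ (c e : ℕ), c ≤ C1 * C2 + C1 * C2 ^ 2 + C4 → e ≤ 88 →
      (c : ℝ) * X ^ e ≤ N / 1000 := by
    intro c e hc he
    have h1 : X ^ e ≤ X ^ 88 := pow_le_pow_right₀ hX he
    have h2 : ((1000 * c : ℕ) : ℝ) ≤ ((1000 * (C1 * C2 + C1 * C2 ^ 2 + C4) : ℕ) : ℝ) := by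
      exact_mod_cast Nat.mul_le_mul_left 1000 hc
    have h3 : ((1000 * c : ℕ) : ℝ) * X ^ e ≤ N := by
      refine le_trans ?_ hN
      exact mul_le_mul h2 h1 (by positivity) (by positivity)
    push_cast at h3
    linarith
  refine ⟨?_, ?_, ?_⟩
  · have := key (C1 * C2) 87 (by omega) (by norm_num)
    push_cast at this
    calc C1 * X ^ 86 * (C2 * X) = C1 * C2 * X ^ 87 := by ring
      _ ≤ _ := this
  · have := key (C1 * C2 ^ 2) 88 (by omega) (by norm_num)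
    push_cast at this
    calc C1 * X ^ 86 * (C2 * X) ^ 2 = C1 * C2 ^ 2 * X ^ 88 := by ring
      _ ≤ _ := this
  · exact key C4 12 (by omega) (by norm_num)

theorem p_exp (h1 : S_siv) (h2 : S_low) (h3 : S_rat) (h4 : S_cor) : S_exp := by
  classical
  obtain ⟨C1, h1⟩ := h1
  obtain ⟨C2, h2⟩ := h2
  obtain ⟨C4, h4⟩ := h4
  refine ⟨1000 * (C1 * C2 + C1 * C2 ^ 2 + C4), ?_⟩
  intro n N M a a' Rl hN hM hx hy hc hc' S hS
  set X : ℝ := (2 : ℝ) ^ 2 ^ (4 + n) with hXdef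
  have hX1 : 1 ≤ X := by rw [hXdef]; exact one_le_pow₀ (by norm_num)
  obtain ⟨b1, b2, b3⟩ := ex_real C1 C2 C4 X N hX1 (by rw [hXdef]; exact_mod_cast hN)
  set W : ℕ → ℝ := fun x => ex_W Rl n x with hW
  set g : ℕ → ℕ → ℝ := fun x y => ex_g Rl n x y with hg
  have hA4 : ∀ x, ∀ p, p.Prime → ex_A Rl x p ⊆ range (qq p) ∧ (ex_A Rl x p).card ≤ 4 :=
    fun x p hp => ⟨ex_sub_A Rl x p, (ex_card_A hc hp x).trans (by norm_num)⟩
  have hA2 : ∀ x, ∀ p, p.Prime → ex_A Rl x p ⊆ range (qq p) ∧ (ex_A Rl x p).card ≤ 2 :=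
    fun x p hp => ⟨ex_sub_A Rl x p, ex_card_A hc hp x⟩
  have hAA : ∀ x x', ∀ p, p.Prime → ex_A Rl x p ∪ ex_A Rl x' p ⊆ range (qq p) ∧
      (ex_A Rl x p ∪ ex_A Rl x' p).card ≤ 4 := by
    intro x x' p hp
    refine ⟨union_subset (ex_sub_A Rl x p) (ex_sub_A Rl x' p), ?_⟩
    have := card_union_le (ex_A Rl x p) (ex_A Rl x' p)
    have e1 := ex_card_A hc hp x
    have e2 := ex_card_A hc hp x'
    omega
  have hlow : ∀ x, 1 ≤ (C2 : ℝ) * X * W x := fun x => h2 n (ex_A Rl x) (hA4 x)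
  have hWpos : ∀ x, 0 < W x := by
    intro x
    by_contra hneg
    push Not at hneg
    have : (C2 : ℝ) * X * W x ≤ 0 :=
      mul_nonpos_of_nonneg_of_nonpos (by positivity) hneg
    linarith [hlow x]
  have hWinv : ∀ x, (W x)⁻¹ ≤ C2 * X := by
    intro x
    rw [inv_le_iff_one_le_mul₀ (hWpos x)]
    exact hlow x
  have hN0 : (0 : ℝ) ≤ N := Nat.cast_nonneg N
  -- the degree
  set I : Finset ℕ := Ico a' (a' + N) with hI
  have hdeg : ∀ x, (1 - 1 / 1000) * (N : ℝ) * W x - C1 * X ^ 86 ≤ ∑ y ∈ I, g x y := by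
    intro x
    have e := (h1 n N a' (ex_A Rl x) (hA4 x)).1
    have e2 : ∑ y ∈ I, g x y =
        ((I.filter (fun y => ∀ p ∈ PK 4 n, y % qq p ∉ ex_A Rl x p)).card : ℝ) := by
      rw [Finset.card_filter]
      push_cast
      refine sum_congr rfl fun y _ => ?_
      simp only [hg]
      unfold ex_g
      simp only [ex_g_iff hy x y]
    rw [e2]
    exact e
  have hcod : ∀ x x', ∑ y ∈ I, g x y * g x' y ≤
      (1 + 1 / 1000) * (N : ℝ) * (W x * W x' * ∏ p ∈ PK 4 n,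
        (1 + 3 / (qq p : ℝ) * (if x' % qq p ∈ ex_O Rl x p then 1 else 0))) + C1 * X ^ 86 := by
    intro x x'
    have e := (h1 n N a' (fun p => ex_A Rl x p ∪ ex_A Rl x' p) (hAA x x')).2
    have e2 : ∑ y ∈ I, g x y * g x' y =
        ((I.filter (fun y => ∀ p ∈ PK 4 n, y % qq p ∉ ex_A Rl x p ∪ ex_A Rl x' p)).card : ℝ) := by
      rw [Finset.card_filter]
      push_cast
      refine sum_congr rfl fun y _ => ?_
      simp only [hg]
      unfold ex_g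
      simp only [ex_g_iff hy x y, ex_g_iff hy x' y, mem_union, not_or]
      by_cases u1 : ∀ p ∈ PK 4 n, y % qq p ∉ ex_A Rl x p
      · by_cases u2 : ∀ p ∈ PK 4 n, y % qq p ∉ ex_A Rl x' p
        · rw [if_pos u1, if_pos u2, if_pos (fun p hp => ⟨u1 p hp, u2 p hp⟩), mul_one]
        · rw [if_pos u1, if_neg u2, if_neg (fun h => u2 fun p hp => (h p hp).2), mul_zero]
      · rw [if_neg u1, zero_mul, if_neg (fun h => u1 fun p hp => (h p hp).1)]
    rw [e2]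
    refine e.trans ?_
    have r := h3 n (ex_A Rl x) (ex_A Rl x') (hA2 x) (hA2 x')
    have r2 : ∏ p ∈ PK 4 n, (1 + 3 / (qq p : ℝ) *
        (if Disjoint (ex_A Rl x p) (ex_A Rl x' p) then 0 else 1)) ≤
        ∏ p ∈ PK 4 n, (1 + 3 / (qq p : ℝ) * (if x' % qq p ∈ ex_O Rl x p then 1 else 0)) := by
      apply prod_le_prod
      · intro p _
        have : (0 : ℝ) ≤ 3 / (qq p : ℝ) := by positivity
        split_ifs <;> nlinarith
      · intro p hp
        have h0 : (0 : ℝ) ≤ 3 / (qq p : ℝ) := by positivity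
        by_cases hd : Disjoint (ex_A Rl x p) (ex_A Rl x' p)
        · rw [if_pos hd]
          split_ifs <;> nlinarith
        · rw [if_neg hd, if_pos (ex_notdisj hx (mem_PK.1 hp).1 hd)]
    have hWW : 0 ≤ W x * W x' := (mul_pos (hWpos x) (hWpos x')).le
    have r3 : ∏ p ∈ PK 4 n, (1 - ((ex_A Rl x p ∪ ex_A Rl x' p).card : ℝ) / (qq p : ℝ)) ≤
        W x * W x' * ∏ p ∈ PK 4 n, (1 + 3 / (qq p : ℝ) *
          (if x' % qq p ∈ ex_O Rl x p then 1 else 0)) :=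
      r.trans (mul_le_mul_of_nonneg_left r2 hWW)
    have r4 := mul_le_mul_of_nonneg_left r3 (show (0 : ℝ) ≤ (1 + 1 / 1000) * (N : ℝ) by positivity)
    linarith
  -- correlation sums
  set cr : ℕ → ℕ → ℝ := fun x x' => ∏ p ∈ PK 4 n,
        (1 + 3 / (qq p : ℝ) * (if x' % qq p ∈ ex_O Rl x p then (1 : ℝ) else 0)) with hcr
  have hcr1 : ∀ x x', 1 ≤ cr x x' := by
    intro x x'
    simp only [hcr]
    have : ∏ p ∈ PK 4 n, (1 : ℝ) ≤ ∏ p ∈ PK 4 n,
        (1 + 3 / (qq p : ℝ) * (if x' % qq p ∈ ex_O Rl x p then (1 : ℝ) else 0)) := by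
      apply prod_le_prod
      · intro p _; norm_num
      · intro p _
        have h0 : (0 : ℝ) ≤ 3 / (qq p : ℝ) := by positivity
        split_ifs <;> nlinarith
    simpa using this
  have hcs : ∀ x, ∑ x' ∈ S, cr x x' ≤ S.card + 3 * (N : ℝ) / 1000 := by
    intro x
    have e := h4 n M a (ex_O Rl x) (fun p hp => ⟨ex_sub_O Rl x p, ex_card_O hc hc' hp x⟩)
    have e1 : ∑ x' ∈ S, (cr x x' - 1) ≤ ∑ x' ∈ Ico a (a + M), (cr x x' - 1) :=
      sum_le_sum_of_subset_of_nonneg hS fun x' _ _ => by linarith [hcr1 x x']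
    have e2 : ∑ x' ∈ Ico a (a + M), (cr x x' - 1) ≤ 1 / 1000 * (M : ℝ) + C4 * X ^ 12 := by
      rw [sum_sub_distrib]
      have e3 : ∑ x' ∈ Ico a (a + M), (1 : ℝ) = M := by simp
      rw [e3]
      linarith
    rw [sum_sub_distrib] at e1
    have e4 : ∑ x' ∈ S, (1 : ℝ) = S.card := by simp
    rw [e4] at e1
    have e5 : (M : ℝ) ≤ 2 * N := by exact_mod_cast hM
    linarith
  -- the second moment
  set NS : Finset ℕ := I.filter (fun y => ∃ x ∈ S, ∀ p ∈ PK 4 n, ¬ Rl p x y) with hNS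
  have hset : {y | y ∈ Ico a' (a' + N) ∧ ∃ x ∈ S, ∀ p ∈ PK 4 n, ¬ Rl p x y} = (NS : Set ℕ) := by
    ext y
    simp only [hNS, hI, Set.mem_ofPred_eq, coe_filter]
  rw [hset, Set.ncard_coe_finset]
  set h : ℕ → ℝ := fun y => ∑ x ∈ S, (W x)⁻¹ * g x y with hh
  have hg0 : ∀ x y, 0 ≤ g x y := by
    intro x y
    simp only [hg]
    unfold ex_g
    split_ifs <;> norm_num
  have hgz : ∀ y, y ∉ NS → y ∈ I → h y = 0 := by
    intro y hy1 hy2
    simp only [hh]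
    apply sum_eq_zero
    intro x hx'
    have : ¬ ∀ p ∈ PK 4 n, ¬ Rl p x y := by
      intro hcon
      exact hy1 (mem_filter.2 ⟨hy2, x, hx', hcon⟩)
    simp only [hg]
    unfold ex_g
    rw [if_neg this, mul_zero]
  have hs1 : ∑ y ∈ I, h y = ∑ y ∈ NS, h y := by
    symm
    apply sum_subset (filter_subset _ _)
    intro y hy1 hy2
    exact hgz y hy2 hy1
  have hcs2 : (∑ y ∈ NS, h y) ^ 2 ≤ NS.card * ∑ y ∈ NS, h y ^ 2 := sq_sum_le_card_mul_sum_sq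
  have hs2 : ∑ y ∈ NS, h y ^ 2 ≤ ∑ y ∈ I, h y ^ 2 :=
    sum_le_sum_of_subset_of_nonneg (filter_subset _ _) fun y _ _ => sq_nonneg _
  have hL : (1 - 2 / 1000) * (N : ℝ) * S.card ≤ ∑ y ∈ I, h y := by
    have e1 : ∑ y ∈ I, h y = ∑ x ∈ S, (W x)⁻¹ * ∑ y ∈ I, g x y := by
      simp only [hh]
      rw [sum_comm]
      exact sum_congr rfl fun x _ => by rw [mul_sum]
    rw [e1]
    have e2 : ∑ _x ∈ S, (1 - 2 / 1000) * (N : ℝ) ≤ ∑ x ∈ S, (W x)⁻¹ * ∑ y ∈ I, g x y := by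
      apply sum_le_sum
      intro x _
      have k1 := mul_le_mul_of_nonneg_left (hdeg x) (inv_pos.2 (hWpos x)).le
      have k2 : (W x)⁻¹ * ((1 - 1 / 1000) * (N : ℝ) * W x - C1 * X ^ 86) =
          (1 - 1 / 1000) * (N : ℝ) - C1 * X ^ 86 * (W x)⁻¹ := by
        have := (hWpos x).ne'
        field_simp
      rw [k2] at k1
      have k3 : C1 * X ^ 86 * (W x)⁻¹ ≤ C1 * X ^ 86 * (C2 * X) :=
        mul_le_mul_of_nonneg_left (hWinv x) (by positivity)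
      linarith
    rw [sum_const, nsmul_eq_mul] at e2
    linarith
  have hU : ∑ y ∈ I, h y ^ 2 ≤
      (1 + 2 / 1000) * (N : ℝ) * S.card * (S.card + 3 * (N : ℝ) / 1000) := by
    have e1 : ∑ y ∈ I, h y ^ 2 =
        ∑ x ∈ S, ∑ x' ∈ S, (W x)⁻¹ * (W x')⁻¹ * ∑ y ∈ I, g x y * g x' y := by
      have : ∀ y ∈ I, h y ^ 2 = ∑ x ∈ S, ∑ x' ∈ S, (W x)⁻¹ * (W x')⁻¹ * (g x y * g x' y) := by
        intro y _
        simp only [hh]
        rw [sq, sum_mul_sum]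
        refine sum_congr rfl fun x _ => sum_congr rfl fun x' _ => ?_
        ring
      rw [sum_congr rfl this, sum_comm]
      refine sum_congr rfl fun x _ => ?_
      rw [sum_comm]
      refine sum_congr rfl fun x' _ => ?_
      rw [mul_sum]
    rw [e1]
    have e2 : ∀ x ∈ S, ∑ x' ∈ S, (W x)⁻¹ * (W x')⁻¹ * ∑ y ∈ I, g x y * g x' y ≤
        (1 + 2 / 1000) * (N : ℝ) * (S.card + 3 * (N : ℝ) / 1000) := by
      intro x _
      have e3 : ∀ x' ∈ S, (W x)⁻¹ * (W x')⁻¹ * ∑ y ∈ I, g x y * g x' y ≤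
          (1 + 2 / 1000) * (N : ℝ) * cr x x' := by
        intro x' _
        have p1 : 0 < (W x)⁻¹ := inv_pos.2 (hWpos x)
        have p2 : 0 < (W x')⁻¹ := inv_pos.2 (hWpos x')
        have k1 := mul_le_mul_of_nonneg_left (hcod x x') (mul_pos p1 p2).le
        have k2 : (W x)⁻¹ * (W x')⁻¹ * ((1 + 1 / 1000) * (N : ℝ) * (W x * W x' * cr x x') +
            C1 * X ^ 86) = (1 + 1 / 1000) * (N : ℝ) * cr x x' +
              C1 * X ^ 86 * ((W x)⁻¹ * (W x')⁻¹) := by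
          have q1 := (hWpos x).ne'
          have q2 := (hWpos x').ne'
          field_simp
        have k3 : C1 * X ^ 86 * ((W x)⁻¹ * (W x')⁻¹) ≤ C1 * X ^ 86 * (C2 * X) ^ 2 := by
          apply mul_le_mul_of_nonneg_left _ (by positivity)
          rw [sq]
          exact mul_le_mul (hWinv x) (hWinv x') p2.le (by positivity)
        have k4 : (N : ℝ) / 1000 ≤ 1 / 1000 * (N : ℝ) * cr x x' := by
          have := mul_le_mul_of_nonneg_left (hcr1 x x') hN0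
          linarith
        calc (W x)⁻¹ * (W x')⁻¹ * ∑ y ∈ I, g x y * g x' y ≤ _ := k1
          _ = _ := k2
          _ ≤ (1 + 1 / 1000) * (N : ℝ) * cr x x' + 1 / 1000 * (N : ℝ) * cr x x' := by linarith
          _ = _ := by ring
      calc _ ≤ ∑ x' ∈ S, (1 + 2 / 1000) * (N : ℝ) * cr x x' := sum_le_sum e3
        _ = (1 + 2 / 1000) * (N : ℝ) * ∑ x' ∈ S, cr x x' := by rw [mul_sum]
        _ ≤ _ := mul_le_mul_of_nonneg_left (hcs x) (by positivity)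
    calc _ ≤ ∑ x ∈ S, (1 + 2 / 1000) * (N : ℝ) * (S.card + 3 * (N : ℝ) / 1000) := sum_le_sum e2
      _ = _ := by rw [sum_const, nsmul_eq_mul]; ring
  -- conclusion
  rcases Nat.eq_zero_or_pos S.card with hc0 | hcpos
  · rw [hc0, Nat.cast_zero, mul_zero]
    exact mul_nonneg (add_nonneg le_rfl (div_nonneg hN0 (by norm_num))) (Nat.cast_nonneg _)
  rcases Nat.eq_zero_or_pos N with hNz | hNpos
  · rw [show (N : ℝ) = 0 by exact_mod_cast hNz, mul_zero, zero_mul]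
    exact mul_nonneg (add_nonneg (Nat.cast_nonneg _) (by norm_num)) (Nat.cast_nonneg _)
  have hsc : (0 : ℝ) < S.card := by exact_mod_cast hcpos
  have hNr : (0 : ℝ) < N := by exact_mod_cast hNpos
  have hsq : ((1 - 2 / 1000) * (N : ℝ) * S.card) ^ 2 ≤
      NS.card * ((1 + 2 / 1000) * (N : ℝ) * S.card * (S.card + 3 * (N : ℝ) / 1000)) := by
    calc ((1 - 2 / 1000) * (N : ℝ) * S.card) ^ 2 ≤ (∑ y ∈ I, h y) ^ 2 :=
          pow_le_pow_left₀ (mul_nonneg (mul_nonneg (by norm_num) hN0) hsc.le) hL 2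
      _ = (∑ y ∈ NS, h y) ^ 2 := by rw [hs1]
      _ ≤ NS.card * ∑ y ∈ NS, h y ^ 2 := hcs2
      _ ≤ NS.card * ∑ y ∈ I, h y ^ 2 := mul_le_mul_of_nonneg_left hs2 (Nat.cast_nonneg _)
      _ ≤ _ := mul_le_mul_of_nonneg_left hU (Nat.cast_nonneg _)
  have hdiv : (1 - 2 / 1000) ^ 2 * (N : ℝ) * S.card ≤
      NS.card * ((1 + 2 / 1000) * (S.card + 3 * (N : ℝ) / 1000)) := by
    have hp : 0 < (N : ℝ) * S.card := mul_pos hNr hsc
    refine le_of_mul_le_mul_left ?_ hp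
    calc (N : ℝ) * S.card * ((1 - 2 / 1000) ^ 2 * (N : ℝ) * S.card)
        = ((1 - 2 / 1000) * (N : ℝ) * S.card) ^ 2 := by ring
      _ ≤ _ := hsq
      _ = _ := by ring
  have hfin : (NS.card : ℝ) * ((1 + 2 / 1000) * (S.card + 3 * (N : ℝ) / 1000)) ≤
      (1 + 2 / 1000) * ((S.card + N / 100) * NS.card) := by
    have hns : (0 : ℝ) ≤ NS.card := Nat.cast_nonneg _
    have : (S.card : ℝ) + 3 * (N : ℝ) / 1000 ≤ S.card + N / 100 := by linarith
    have := mul_le_mul_of_nonneg_left this hns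
    linarith
  have hps : 0 ≤ (N : ℝ) * S.card := (mul_pos hNr hsc).le
  nlinarith

end Pool.Agent.APC
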