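import Pool.Agent.Lib.MP_e0f8f3_nt.DefsF

set_option autoImplicit false

namespace Pool.Agent.APC

open Finset Filter
open Pool.Agent.CM

theorem f_ER (h : F_bv) : F_ER := by
  intro A
  obtain ⟨B, hB⟩ := h A
  refine ⟨B, ?_⟩
  filter_upwards [hB] with X hX Y a hY ha
  have h2 := hX Y a hY ha
  have e : (fun n => Pool.Agent.CH.thP n * wd 1 X n) = fw X := by
    funext n
    unfold fw Pool.Agent.CH.thP wd Pool.Agent.MP89da58.tri
    rw [one_mul]
  rw [e] at h2
  exact h2

end Pool.Agent.APC
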