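import Mathlib
import Pool.Agent.Lib.MP_e0f8f3_nt.DefsF

set_option autoImplicit false

/-!
Large conductors for the von Mangoldt function, moduli up to `X ^ (1 / 2) / (log X) ^ B`.
-/

namespace Pool.Agent.APC

open Finset Filter
open ArithmeticFunction (vonMangoldt)
open Pool.Agent.MP89da58 (tri primChars)
open Pool.Agent.CH (thP)
open Pool.Agent.CM

/-- Powers of `log X` against small powers of `X`. -/
private theorem fLL_log (k : ℕ) (s : ℝ) (hs : 0 < s) :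
    ∀ᶠ X : ℝ in atTop, (Real.log X) ^ k ≤ X ^ s := by
  have h := isLittleO_log_rpow_rpow_atTop (s := s) (k : ℝ) hs
  have h2 := h.bound (show (0 : ℝ) < 1 by norm_num)
  filter_upwards [h2, eventually_ge_atTop 1] with X hX h1
  have hl : 0 ≤ Real.log X := Real.log_nonneg h1
  rw [one_mul, Real.rpow_natCast, Real.norm_of_nonneg (pow_nonneg hl _),
    Real.norm_of_nonneg (Real.rpow_nonneg (by linarith) _)] at hX
  exact hX

private theorem fLL_big (c : ℝ) : ∀ᶠ X : ℝ in atTop, c ≤ Real.log X :=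
  Real.tendsto_log_atTop.eventually_ge_atTop c

private theorem fLL_big2 (c s : ℝ) (hs : 0 < s) : ∀ᶠ X : ℝ in atTop, c ≤ X ^ s :=
  (tendsto_rpow_atTop hs).eventually_ge_atTop c

/-- The weight. -/
private noncomputable def fLL_w (lam X : ℝ) {r : ℕ} (χ : DirichletCharacter ℂ r) (k : ℕ) : ℂ :=
  χ (k : ZMod r) * (wd lam X k : ℂ)

private theorem fLL_sup (X W : ℕ) (κ : ℕ → ℝ) (G : ℕ → ℂ) (K B : ℝ) (hK : 0 ≤ K)
    (h1 : ∀ m, 1 ≤ m → m ≤ W → |κ m| ≤ K) (h2 : ∀ m, W < m → κ m = 0)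
    (h3 : ∀ m, 1 ≤ m → ‖G m‖ ≤ B) :
    ‖∑ m ∈ Icc 1 X, (κ m : ℂ) * G m‖ ≤ W * (K * B) := by
  have hr : ∑ m ∈ Icc 1 X, (κ m : ℂ) * G m
      = ∑ m ∈ (Icc 1 X).filter (fun m => m ≤ W), (κ m : ℂ) * G m := by
    rw [Finset.sum_filter]
    refine Finset.sum_congr rfl fun m _ => ?_
    split_ifs with h
    · rfl
    · rw [h2 m (not_le.1 h)]; simp
  rw [hr]
  refine (norm_sum_le _ _).trans ?_
  have hs : (Icc 1 X).filter (fun m => m ≤ W) ⊆ Icc 1 W := by
    intro m hm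
    rw [Finset.mem_filter, Finset.mem_Icc] at hm
    exact Finset.mem_Icc.2 ⟨hm.1.1, hm.2⟩
  refine (Finset.sum_le_sum_of_subset_of_nonneg hs fun _ _ _ => norm_nonneg _).trans ?_
  calc ∑ m ∈ Icc 1 W, ‖(κ m : ℂ) * G m‖ ≤ ∑ m ∈ Icc 1 W, K * B := by
        refine Finset.sum_le_sum fun m hm => ?_
        rw [Finset.mem_Icc] at hm
        rw [norm_mul, Complex.norm_real, Real.norm_eq_abs]
        exact mul_le_mul (h1 m hm.1 hm.2) (h3 m hm.1) (norm_nonneg _) hK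
    _ = W * (K * B) := by
        rw [Finset.sum_const, Nat.card_Icc, nsmul_eq_mul]
        simp

/-- The type I sums. -/
private theorem fLL_typeI (htI : Pool.Agent.CM.B.R_tI) (lam X : ℝ) (N U V r : ℕ) (χ : DirichletCharacter ℂ r)
    (c d : ℕ → ℝ) (K : ℝ) (hlam : 1 ≤ lam) (hX : 0 < X) (hr : 2 ≤ r) (hχ : χ ≠ 1) (hU : 1 ≤ U)
    (hK : Real.log (N + 1) ≤ K) (hK2 : Real.log ((U * V : ℕ) : ℝ) ≤ K)
    (hc1 : ∀ n, |c n| ≤ 1) (hc0 : ∀ n, V < n → c n = 0)
    (hd1 : ∀ n, 1 ≤ n → |d n| ≤ Real.log n) (hd0 : ∀ n, U * V < n → d n = 0) :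
    ‖∑ m ∈ Icc 1 N, ∑ n ∈ Icc 1 N, (c m : ℂ) * (Real.log n : ℂ) * fLL_w lam X χ (m * n)
      - ∑ m ∈ Icc 1 N, ∑ n ∈ Icc 1 N, (d m : ℂ) * fLL_w lam X χ (m * n)‖
      ≤ 7 * r * ((U * V : ℕ) : ℝ) * K := by
  have hK0 : 0 ≤ K := le_trans (Real.log_nonneg (by
    have : (0 : ℝ) ≤ N := Nat.cast_nonneg _
    linarith)) hK
  have hr0 : (0 : ℝ) ≤ r := Nat.cast_nonneg _
  have e1 : ∑ m ∈ Icc 1 N, ∑ n ∈ Icc 1 N, (c m : ℂ) * (Real.log n : ℂ) * fLL_w lam X χ (m * n)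
      = ∑ m ∈ Icc 1 N, (c m : ℂ) * (χ (m : ZMod r) *
        ∑ n ∈ Icc 1 N, χ (n : ZMod r) * (Real.log n : ℂ) * (wd lam X (m * n) : ℂ)) := by
    refine Finset.sum_congr rfl fun m _ => ?_
    rw [Finset.mul_sum, Finset.mul_sum]
    refine Finset.sum_congr rfl fun n _ => ?_
    unfold fLL_w
    rw [Nat.cast_mul, map_mul]
    ring
  have e2 : ∑ m ∈ Icc 1 N, ∑ n ∈ Icc 1 N, (d m : ℂ) * fLL_w lam X χ (m * n)
      = ∑ m ∈ Icc 1 N, (d m : ℂ) * (χ (m : ZMod r) *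
        ∑ n ∈ Icc 1 N, χ (n : ZMod r) * (wd lam X (m * n) : ℂ)) := by
    refine Finset.sum_congr rfl fun m _ => ?_
    rw [Finset.mul_sum, Finset.mul_sum]
    refine Finset.sum_congr rfl fun n _ => ?_
    unfold fLL_w
    rw [Nat.cast_mul, map_mul]
    ring
  rw [e1, e2]
  have b1 := fLL_sup N V c (fun m => χ (m : ZMod r) *
        ∑ n ∈ Icc 1 N, χ (n : ZMod r) * (Real.log n : ℂ) * (wd lam X (m * n) : ℂ)) 1 (4 * r * K)
    zero_le_one (fun m _ _ => hc1 m) hc0 (fun m hm => by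
      show ‖χ (m : ZMod r) *
        ∑ n ∈ Icc 1 N, χ (n : ZMod r) * (Real.log n : ℂ) * (wd lam X (m * n) : ℂ)‖ ≤ _
      rw [norm_mul]
      have h1 := (htI lam X m N r χ hlam hX hm hr hχ).2
      have h2 : 4 * (r : ℝ) * Real.log (N + 1) ≤ 4 * r * K :=
        mul_le_mul_of_nonneg_left hK (by positivity)
      have h3 := χ.norm_le_one (m : ZMod r)
      calc _ ≤ 1 * (4 * r * K) := mul_le_mul h3 (h1.trans h2) (norm_nonneg _) zero_le_one
        _ = _ := one_mul _)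
  have b2 := fLL_sup N (U * V) d (fun m => χ (m : ZMod r) *
        ∑ n ∈ Icc 1 N, χ (n : ZMod r) * (wd lam X (m * n) : ℂ)) K (3 * r)
    hK0 (fun m hm1 hm2 => (hd1 m hm1).trans (le_trans (Real.log_le_log
      (by exact_mod_cast hm1) (by exact_mod_cast hm2)) hK2)) hd0 (fun m hm => by
      show ‖χ (m : ZMod r) *
        ∑ n ∈ Icc 1 N, χ (n : ZMod r) * (wd lam X (m * n) : ℂ)‖ ≤ _
      rw [norm_mul]
      have h1 := (htI lam X m N r χ hlam hX hm hr hχ).1
      have h3 := χ.norm_le_one (m : ZMod r)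
      calc _ ≤ 1 * (3 * (r : ℝ)) := mul_le_mul h3 h1 (norm_nonneg _) zero_le_one
        _ = _ := one_mul _)
  have hVU : (V : ℝ) ≤ ((U * V : ℕ) : ℝ) := by
    exact_mod_cast Nat.le_mul_of_pos_left V (by omega)
  refine (norm_sub_le _ _).trans ((add_le_add b1 b2).trans ?_)
  have h4 : (V : ℝ) * (1 * (4 * r * K)) ≤ ((U * V : ℕ) : ℝ) * (4 * r * K) := by
    rw [one_mul]
    exact mul_le_mul_of_nonneg_right hVU (by positivity)
  calc (V : ℝ) * (1 * (4 * r * K)) + ((U * V : ℕ) : ℝ) * (K * (3 * r))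
      ≤ ((U * V : ℕ) : ℝ) * (4 * r * K) + ((U * V : ℕ) : ℝ) * (K * (3 * r)) := by linarith
    _ = 7 * r * ((U * V : ℕ) : ℝ) * K := by ring

/-- The bilinear terms. -/
private noncomputable def fLL_f (lam X : ℝ) (U : ℕ) (e : ℕ → ℝ)
    (p : Σ q, DirichletCharacter ℂ q) (m n : ℕ) : ℂ :=
  ((if U < m then vonMangoldt m else 0 : ℝ) : ℂ) * (e n : ℂ) * fLL_w lam X p.2 (m * n)

/-- One block. -/
private theorem fLL_block (A M N U R : ℕ) (lam X : ℝ) (e : ℕ → ℝ)
    (he : ∀ n, |e n| ≤ n.divisors.card)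
    (hc : ∀ (a b : ℕ → ℂ),
      ∑ m ∈ Icc 1 (2 * M), ‖a m‖ ^ 2 ≤ M * (Real.log X) ^ 6 →
      ∑ n ∈ Icc 1 (2 * N), ‖b n‖ ^ 2 ≤ N * (Real.log X) ^ 6 →
      ∑ p ∈ primChars R, ‖∑ m ∈ Icc 1 (2 * M), ∑ n ∈ Icc 1 (2 * N),
        a m * b n * p.2 ((m * n : ℕ) : ZMod p.1) * (wd lam X (m * n) : ℂ)‖
        ≤ R * X / (Real.log X) ^ A)
    (hUM : U ≤ M) (hL : 10 ≤ Real.log X)
    (hM3 : Real.log (2 * M) ≤ 4 * Real.log X) (hN3 : Real.log (2 * N) ≤ 4 * Real.log X) :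
    ∑ p ∈ primChars R, ‖∑ m ∈ Ioc M (2 * M), ∑ n ∈ Ioc N (2 * N), fLL_f lam X U e p m n‖
      ≤ R * X / (Real.log X) ^ A := by
  set a' : ℕ → ℂ := fun m => if M < m then (vonMangoldt m : ℂ) else 0 with ha'
  set b' : ℕ → ℂ := fun n => if N < n then (e n : ℂ) else 0 with hb'
  have hIM : (Icc 1 (2 * M)).filter (fun m => M < m) = Ioc M (2 * M) := by
    ext m; simp only [Finset.mem_filter, Finset.mem_Icc, Finset.mem_Ioc]; omega
  have hIN : (Icc 1 (2 * N)).filter (fun m => N < m) = Ioc N (2 * N) := by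
    ext m; simp only [Finset.mem_filter, Finset.mem_Icc, Finset.mem_Ioc]; omega
  have hL0 : 0 < Real.log X := by linarith
  have h := hc a' b' ?_ ?_
  · refine le_trans (le_of_eq ?_) h
    refine Finset.sum_congr rfl fun p _ => ?_
    congr 1
    rw [← hIM, Finset.sum_filter]
    refine Finset.sum_congr rfl fun m hm => ?_
    by_cases hMm : M < m
    · rw [if_pos hMm, ← hIN, Finset.sum_filter]
      refine Finset.sum_congr rfl fun n hn => ?_
      simp only [ha', hb', if_pos hMm, fLL_f, fLL_w, if_pos (lt_of_le_of_lt hUM hMm)]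
      by_cases hNn : N < n
      · rw [if_pos hNn, if_pos hNn]
        ring
      · rw [if_neg hNn, if_neg hNn]; simp
    · rw [if_neg hMm]
      simp only [ha', if_neg hMm]
      simp
  · calc ∑ m ∈ Icc 1 (2 * M), ‖a' m‖ ^ 2 = ∑ m ∈ Ioc M (2 * M), (vonMangoldt m) ^ 2 := by
          rw [← hIM, Finset.sum_filter]
          refine Finset.sum_congr rfl fun m _ => ?_
          simp only [ha']
          split_ifs
          · rw [Complex.norm_real, Real.norm_of_nonneg ArithmeticFunction.vonMangoldt_nonneg]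
          · simp
      _ ≤ ∑ m ∈ Ioc M (2 * M), (4 * Real.log X) ^ 2 := by
          refine Finset.sum_le_sum fun m hm => ?_
          rw [Finset.mem_Ioc] at hm
          refine pow_le_pow_left₀ ArithmeticFunction.vonMangoldt_nonneg ?_ 2
          refine (ArithmeticFunction.vonMangoldt_le_log).trans (le_trans ?_ hM3)
          apply Real.log_le_log (by exact_mod_cast (by omega : 0 < m))
          exact_mod_cast hm.2
      _ = M * (4 * Real.log X) ^ 2 := by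
          rw [Finset.sum_const, Nat.card_Ioc, nsmul_eq_mul]
          congr 2
          omega
      _ ≤ M * (Real.log X) ^ 6 := by
          apply mul_le_mul_of_nonneg_left _ (Nat.cast_nonneg _)
          have h1 : (10 : ℝ) ^ 4 ≤ (Real.log X) ^ 4 := pow_le_pow_left₀ (by norm_num) hL _
          have h2 : 0 ≤ (Real.log X) ^ 2 := by positivity
          nlinarith
  · calc ∑ n ∈ Icc 1 (2 * N), ‖b' n‖ ^ 2 ≤ ∑ n ∈ Icc 1 (2 * N), ((n.divisors.card : ℝ)) ^ 2 := by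
          refine Finset.sum_le_sum fun n _ => ?_
          simp only [hb']
          split_ifs
          · rw [Complex.norm_real, Real.norm_eq_abs]
            exact pow_le_pow_left₀ (abs_nonneg _) (he n) 2
          · simp only [norm_zero]
            exact le_trans (by norm_num) (sq_nonneg _)
      _ ≤ ((2 * N : ℕ) : ℝ) * (1 + Real.log ((2 * N : ℕ) : ℝ)) ^ 3 :=
          Pool.Agent.MP89da58.sum_tau_sq _
      _ ≤ ((2 * N : ℕ) : ℝ) * (5 * Real.log X) ^ 3 := by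
          apply mul_le_mul_of_nonneg_left _ (Nat.cast_nonneg _)
          have h0 : 0 ≤ Real.log ((2 * N : ℕ) : ℝ) := Real.log_natCast_nonneg _
          apply pow_le_pow_left₀ (by linarith)
          push_cast
          linarith
      _ ≤ N * (Real.log X) ^ 6 := by
          push_cast
          have : (10 : ℝ) ^ 3 ≤ (Real.log X) ^ 3 := pow_le_pow_left₀ (by norm_num) hL _
          have h2 : 250 * (Real.log X) ^ 3 ≤ (Real.log X) ^ 6 := by
            have h3 : 0 ≤ (Real.log X) ^ 3 := by positivity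
            nlinarith
          have h4 : (0 : ℝ) ≤ N := Nat.cast_nonneg _
          calc 2 * (N : ℝ) * (5 * Real.log X) ^ 3 = N * (250 * (Real.log X) ^ 3) := by ring
            _ ≤ N * (Real.log X) ^ 6 := mul_le_mul_of_nonneg_left h2 h4

/-- The window. -/
private theorem fLL_supp (lam X : ℝ) (n : ℕ) (hlam : 1 ≤ lam) (hX : 0 < X)
    (hn : 1 ≤ n) (h : wd lam X n ≠ 0) : X / 3 < n ∧ (n : ℝ) < 3 * X := by
  have hn0 : (0 : ℝ) < n := by exact_mod_cast hn
  have h1 : |lam * Real.log (n / X)| < 1 := by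
    by_contra hc
    apply h
    unfold wd tri
    rw [max_eq_left]
    linarith [not_lt.1 hc]
  have h2 : |Real.log (n / X)| < 1 := by
    rw [abs_mul, abs_of_nonneg (by linarith)] at h1
    have := abs_nonneg (Real.log (n / X))
    nlinarith
  rw [abs_lt] at h2
  have hq : 0 < (n : ℝ) / X := div_pos hn0 hX
  have he : Real.exp 1 < 3 := by
    have := Real.exp_one_lt_d9
    norm_num at this ⊢
    linarith
  have h3 : (n : ℝ) / X < 3 := by
    have := (Real.log_lt_iff_lt_exp hq).1 h2.2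
    linarith
  have h4 : 1 / 3 < (n : ℝ) / X := by
    have h5 := (Real.lt_log_iff_exp_lt hq).1 h2.1
    refine lt_trans ?_ h5
    rw [Real.exp_neg, ← one_div]
    exact one_div_lt_one_div_of_lt (Real.exp_pos 1) he
  constructor
  · rw [lt_div_iff₀ hX] at h4
    linarith
  · rw [div_lt_iff₀ hX] at h3
    exact h3

private theorem fLL_ne_one {R : ℕ} {p : Σ q, DirichletCharacter ℂ q} (hp : p ∈ primChars R) :
    2 ≤ p.1 ∧ p.1 ≤ R ∧ p.2 ≠ 1 := by
  classical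
  rw [primChars, mem_sigma, mem_filter, mem_Icc] at hp
  refine ⟨hp.1.1, hp.1.2, ?_⟩
  have h2 := hp.1.1
  have h3 := hp.2.2
  have : NeZero p.1 := ⟨by omega⟩
  intro h
  rw [h, DirichletCharacter.isPrimitive_def, DirichletCharacter.conductor_one] at h3
  omega

/-- One character. -/
private theorem fLL_one (htI : Pool.Agent.CM.B.R_tI) (lam X : ℝ) (U V R : ℕ) (c d e : ℕ → ℝ)
    (y L : ℝ) (hlam : 1 ≤ lam) (hX : 0 < X) (hUX : (U : ℝ) ≤ X / 3) (hU1 : 1 ≤ U)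
    (hUVx : ((U * V : ℕ) : ℝ) ≤ y) (hL0 : 0 < L) (_hy : 0 ≤ y)
    (hlX : Real.log ((⌊3 * X⌋₊ : ℝ) + 1) ≤ 4 * L)
    (hlUV : Real.log ((U * V : ℕ) : ℝ) ≤ 4 * L)
    (hc1 : ∀ n, |c n| ≤ 1) (hc0 : ∀ n, V < n → c n = 0)
    (hd1 : ∀ n, 1 ≤ n → |d n| ≤ Real.log n) (hd0 : ∀ n, U * V < n → d n = 0)
    (hid : ∀ w : ℕ → ℂ, (∀ n, n ≤ U → w n = 0) → (∀ n, ⌊3 * X⌋₊ < n → w n = 0) →
      ∑ n ∈ Icc 1 ⌊3 * X⌋₊, (vonMangoldt n : ℂ) * w n
      = ∑ m ∈ Icc 1 ⌊3 * X⌋₊, ∑ n ∈ Icc 1 ⌊3 * X⌋₊,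
          (c m : ℂ) * (Real.log (n : ℕ) : ℂ) * w (m * n)
        - ∑ m ∈ Icc 1 ⌊3 * X⌋₊, ∑ n ∈ Icc 1 ⌊3 * X⌋₊, (d m : ℂ) * w (m * n)
        + ∑ m ∈ Icc 1 ⌊3 * X⌋₊, ∑ n ∈ Icc 1 ⌊3 * X⌋₊,
          ((if U < m then vonMangoldt m else 0 : ℝ) : ℂ) * (e n : ℂ) * w (m * n))
    (p : Σ q, DirichletCharacter ℂ q) (hp : p ∈ primChars R) :
    ‖∑ n ∈ Icc 1 ⌊3 * X⌋₊, (vonMangoldt n : ℂ) * p.2 (n : ZMod p.1) * (wd lam X n : ℂ)‖ ≤
      28 * (R : ℝ) * y * L +
      ‖∑ m ∈ Icc 1 ⌊3 * X⌋₊, ∑ n ∈ Icc 1 ⌊3 * X⌋₊, fLL_f lam X U e p m n‖ := by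
  obtain ⟨hp2, hpR, hp1⟩ := fLL_ne_one hp
  have h1 := hid (fun k => fLL_w lam X p.2 k) ?_ ?_
  · have h2 : ∑ n ∈ Icc 1 ⌊3 * X⌋₊, (vonMangoldt n : ℂ) * p.2 (n : ZMod p.1) * (wd lam X n : ℂ)
        = ∑ n ∈ Icc 1 ⌊3 * X⌋₊, (vonMangoldt n : ℂ) * fLL_w lam X p.2 n := by
      refine Finset.sum_congr rfl fun n _ => ?_
      rw [fLL_w]
      ring
    rw [h2, h1]
    have h3 := fLL_typeI htI lam X ⌊3 * X⌋₊ U V p.1 p.2 c d (4 * L) hlam hX hp2
      hp1 hU1 hlX hlUV hc1 hc0 hd1 hd0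
    refine (norm_add_le _ _).trans (add_le_add (h3.trans ?_) le_rfl)
    have hpR' : (p.1 : ℝ) ≤ R := by exact_mod_cast hpR
    calc 7 * (p.1 : ℝ) * ((U * V : ℕ) : ℝ) * (4 * L)
        ≤ 7 * R * y * (4 * L) := by
          apply mul_le_mul_of_nonneg_right _ (by positivity)
          apply mul_le_mul _ hUVx (Nat.cast_nonneg _) (by positivity)
          exact mul_le_mul_of_nonneg_left hpR' (by norm_num)
      _ = 28 * R * y * L := by ring
  · intro n hn
    show fLL_w lam X p.2 n = 0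
    by_cases hn0 : n = 0
    · unfold fLL_w
      have : Fact (1 < p.1) := ⟨by omega⟩
      rw [hn0, Nat.cast_zero, MulChar.map_nonunit p.2 (by simp), zero_mul]
    · by_contra hne
      have hw : wd lam X n ≠ 0 := by
        intro h0
        apply hne
        rw [fLL_w, h0, Complex.ofReal_zero, mul_zero]
      have h3 := (fLL_supp lam X n hlam hX (by omega) hw).1
      have h4 : (n : ℝ) ≤ U := by exact_mod_cast hn
      linarith
  · intro n hn
    show fLL_w lam X p.2 n = 0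
    by_contra hne
    have hw : wd lam X n ≠ 0 := by
      intro h0
      apply hne
      rw [fLL_w, h0, Complex.ofReal_zero, mul_zero]
    have h3 := (fLL_supp lam X n hlam hX (by omega) hw).2
    have h4 := Nat.lt_of_floor_lt hn
    linarith

theorem f_LL (h1 : F_blk) (h2 : Pool.Agent.CM.B.R_dya) (h3 : Pool.Agent.CM.B.R_tI)
    (h4 : Pool.Agent.CH.D.R_vau) : F_LL := by
  intro lam A hlam
  obtain ⟨B1, hB1⟩ := h1 lam (A + 4) hlam
  refine ⟨2 * B1 + A + 10, ?_⟩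
  filter_upwards [hB1, h2 lam hlam, fLL_big 10, fLL_log (B1 + 1) (1 / 2) (by norm_num),
    eventually_ge_atTop 54] with X hB hd hL hlx hX54 R hR1 hR2
  have hX0 : (0 : ℝ) < X := by linarith
  have hX1 : (1 : ℝ) ≤ X := by linarith
  set L := Real.log X with hLdef
  have hL0 : 0 < L := by linarith
  have hL1 : 1 ≤ L := by linarith
  have hR0 : (0 : ℝ) ≤ R := Nat.cast_nonneg _
  obtain ⟨x, hx⟩ : ∃ x : ℝ, x = L ^ (B1 + 1) := ⟨_, rfl⟩
  have hp1 : 1 ≤ L ^ B1 := one_le_pow₀ hL1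
  have hx2 : L ^ B1 + 1 ≤ x := by
    rw [hx, pow_succ]
    nlinarith
  have hx1 : 1 ≤ x := by linarith
  have hx0 : 0 < x := by linarith
  obtain ⟨U, hU⟩ : ∃ U : ℕ, U = ⌊L ^ B1⌋₊ + 1 := ⟨_, rfl⟩
  have hUx : (U : ℝ) ≤ x := by
    have g : (⌊L ^ B1⌋₊ : ℝ) ≤ L ^ B1 := Nat.floor_le (by positivity)
    rw [hU]
    push_cast
    linarith
  have hUd : L ^ B1 ≤ U := by
    have g : L ^ B1 < (⌊L ^ B1⌋₊ : ℝ) + 1 := Nat.lt_floor_add_one _
    rw [hU]
    push_cast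
    exact g.le
  have hU1 : 1 ≤ U := by rw [hU]; omega
  have hxs : x ≤ X ^ (1 / 2 : ℝ) := by rw [hx]; exact hlx
  have hss : X ^ (1 / 2 : ℝ) * X ^ (1 / 2 : ℝ) = X := by
    rw [← Real.rpow_add hX0]; norm_num
  have hs3 : 3 ≤ X ^ (1 / 2 : ℝ) := by
    have h0 : 0 ≤ X ^ (1 / 2 : ℝ) := Real.rpow_nonneg hX0.le _
    nlinarith
  have hUX : (U : ℝ) ≤ X / 3 := by
    have : X ^ (1 / 2 : ℝ) ≤ X / 3 := by
      have h0 : 0 ≤ X ^ (1 / 2 : ℝ) := Real.rpow_nonneg hX0.le _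
      nlinarith
    linarith
  have hUVx : ((U * U : ℕ) : ℝ) ≤ x * x := by
    push_cast
    exact mul_le_mul hUx hUx (Nat.cast_nonneg _) hx0.le
  have hxxX : x * x ≤ X := by
    calc x * x ≤ X ^ (1 / 2 : ℝ) * X ^ (1 / 2 : ℝ) :=
          mul_le_mul hxs hxs hx0.le (by positivity)
      _ = X := hss
  have hUV1 : 1 ≤ U * U := Nat.mul_pos hU1 hU1
  have hlUV : Real.log ((U * U : ℕ) : ℝ) ≤ 4 * L := by
    have h1 : Real.log ((U * U : ℕ) : ℝ) ≤ Real.log X :=
      Real.log_le_log (by exact_mod_cast hUV1) (hUVx.trans hxxX)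
    linarith
  -- the two conditions for the blocks
  have hRb1 : L ^ B1 ≤ R := le_trans (pow_le_pow_right₀ hL1 (by omega)) hR1
  have hRb2 : (R : ℝ) * L ^ B1 ≤ X ^ (1 / 2 : ℝ) := by
    refine le_trans ?_ hR2
    exact mul_le_mul_of_nonneg_left (pow_le_pow_right₀ hL1 (by omega)) hR0
  obtain ⟨c, d, e, hc1, hc0, hd1, hd0, he1, he0, hid⟩ := h4 U U ⌊3 * X⌋₊
  have hlog4 : ∀ M : ℝ, 0 < M → M ≤ 3 * X → Real.log (2 * M) ≤ 4 * L := by
    intro M hM1 hM
    have h1 : 2 * M ≤ X ^ 4 := by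
      have h3 : (54 : ℝ) * X ≤ X * X := mul_le_mul_of_nonneg_right hX54 hX0.le
      have h4 : X * X ≤ (X * X) * (X * X) := by
        have : 1 ≤ X * X := by nlinarith
        nlinarith
      have h5 : X ^ 4 = (X * X) * (X * X) := by ring
      rw [h5]
      linarith
    have := Real.log_le_log (by linarith) h1
    rw [Real.log_pow] at this
    push_cast at this
    exact this
  have hflo : (⌊3 * X⌋₊ : ℝ) ≤ 3 * X := Nat.floor_le (by linarith)
  have hlX : Real.log ((⌊3 * X⌋₊ : ℝ) + 1) ≤ 4 * L := by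
    refine le_trans ?_ (hlog4 (3 * X) (by linarith) le_rfl)
    have h0 : (0 : ℝ) ≤ ⌊3 * X⌋₊ := Nat.cast_nonneg _
    exact Real.log_le_log (by linarith) (by linarith)
  have hT3 := hd R U U (fLL_f lam X U e) (R * X / L ^ (A + 4))
    hU1 hU1 (by positivity) ?_ ?_
  · have hsum : ∀ p ∈ primChars R, _ := fun p hp =>
      fLL_one h3 lam X U U R c d e (x * x) L hlam hX0 hUX hU1 hUVx hL0 (by positivity) hlX hlUV
        hc1 hc0 hd1 hd0 hid p hp
    refine (Finset.sum_le_sum hsum).trans ?_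
    rw [Finset.sum_add_distrib, Finset.sum_const, nsmul_eq_mul]
    refine (add_le_add le_rfl hT3).trans ?_
    have hLA : 0 < L ^ A := by positivity
    have hcard : ((primChars R).card : ℝ) ≤ (R : ℝ) ^ 2 := by
      exact_mod_cast Pool.Agent.MP89da58.card_primChars R
    have e1 : ((primChars R).card : ℝ) * (28 * (R : ℝ) * (x * x) * L) ≤
        R * X / L ^ A * (1 / 2) := by
      rw [div_mul_eq_mul_div, le_div_iff₀ hLA]
      have hR3 : (R : ℝ) ^ 2 * (L ^ (2 * B1 + A + 10)) ^ 2 ≤ X := by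
        calc (R : ℝ) ^ 2 * (L ^ (2 * B1 + A + 10)) ^ 2
            = ((R : ℝ) * L ^ (2 * B1 + A + 10)) * ((R : ℝ) * L ^ (2 * B1 + A + 10)) := by ring
          _ ≤ X ^ (1 / 2 : ℝ) * X ^ (1 / 2 : ℝ) :=
            mul_le_mul hR2 hR2 (by positivity) (by positivity)
          _ = X := hss
      have g2 : (x * x) * (56 * L * L ^ A) ≤ (L ^ (2 * B1 + A + 10)) ^ 2 := by
        have g3 : (56 : ℝ) ≤ L ^ 2 := by nlinarith
        have g4 : (x * x) * (56 * L * L ^ A) = 56 * L ^ (2 * B1 + A + 3) := by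
          rw [hx]
          ring
        have g5 : L ^ 2 * L ^ (2 * B1 + A + 3) = L ^ (2 * B1 + A + 5) := by ring
        have g6 : (L ^ (2 * B1 + A + 10)) ^ 2 = L ^ (2 * (2 * B1 + A + 10)) := by
          rw [← pow_mul]
          congr 1
          ring
        rw [g4, g6]
        calc 56 * L ^ (2 * B1 + A + 3) ≤ L ^ 2 * L ^ (2 * B1 + A + 3) := by gcongr
          _ = L ^ (2 * B1 + A + 5) := g5
          _ ≤ L ^ (2 * (2 * B1 + A + 10)) := pow_le_pow_right₀ hL1 (by omega)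
      calc ((primChars R).card : ℝ) * (28 * (R : ℝ) * (x * x) * L) * L ^ A
          ≤ (R : ℝ) ^ 2 * (28 * (R : ℝ) * (x * x) * L) * L ^ A := by
            apply mul_le_mul_of_nonneg_right _ hLA.le
            exact mul_le_mul_of_nonneg_right hcard (by positivity)
        _ = (R : ℝ) * ((R : ℝ) ^ 2 * ((x * x) * (56 * L * L ^ A))) * (1 / 2) := by ring
        _ ≤ (R : ℝ) * ((R : ℝ) ^ 2 * (L ^ (2 * B1 + A + 10)) ^ 2) * (1 / 2) := by
            apply mul_le_mul_of_nonneg_right _ (by norm_num)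
            apply mul_le_mul_of_nonneg_left _ hR0
            exact mul_le_mul_of_nonneg_left g2 (by positivity)
        _ ≤ (R : ℝ) * X * (1 / 2) := by
            apply mul_le_mul_of_nonneg_right _ (by norm_num)
            exact mul_le_mul_of_nonneg_left hR3 hR0
    have e2 : L ^ 3 * (R * X / L ^ (A + 4)) ≤ R * X / L ^ A * (1 / 2) := by
      have h1 : L ^ 3 * (R * X / L ^ (A + 4)) = R * X / L ^ A * (1 / L) := by
        have h2 : L ^ (A + 4) = L ^ A * L ^ 3 * L := by ring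
        rw [h2]
        field_simp
      rw [h1]
      apply mul_le_mul_of_nonneg_left _ (by positivity)
      exact one_div_le_one_div_of_le (by norm_num) (by linarith)
    linarith
  · intro p m n hne
    have h1 : U < m := by
      by_contra h
      apply hne
      unfold fLL_f
      rw [if_neg h]
      simp
    have h2 : U < n := by
      by_contra h
      apply hne
      unfold fLL_f
      rw [he0 n (not_lt.1 h)]
      simp
    have h3 : wd lam X (m * n) ≠ 0 := by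
      intro h
      apply hne
      unfold fLL_f
      rw [fLL_w, h]
      simp
    have h4 := fLL_supp lam X (m * n) hlam hX0 (Nat.mul_pos (by omega) (by omega)) h3
    exact ⟨h1, h2, h4.2.le⟩
  · intro M N hUM hVN hMN
    have hM1 : 1 ≤ M := hU1.trans hUM
    have hN1 : 1 ≤ N := hU1.trans hVN
    have hM0 : (0 : ℝ) < M := by exact_mod_cast hM1
    have hN0 : (0 : ℝ) < N := by exact_mod_cast hN1
    have hM27 : (M : ℝ) ≤ 3 * X := by
      refine le_trans ?_ hMN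
      exact_mod_cast Nat.le_mul_of_pos_right M hN1
    have hN27 : (N : ℝ) ≤ 3 * X := by
      refine le_trans ?_ hMN
      exact_mod_cast Nat.le_mul_of_pos_left N hM1
    have hMd : L ^ B1 ≤ M := hUd.trans (by exact_mod_cast hUM)
    have hNd : L ^ B1 ≤ N := hUd.trans (by exact_mod_cast hVN)
    exact fLL_block (A + 4) M N U R lam X e he1
      (fun a b ha hb => hB R M N a b hRb1 hRb2 hMd hNd hMN ha hb)
      hUM hL (hlog4 M hM0 hM27) (hlog4 N hN0 hN27)

end Pool.Agent.APC
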