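import Pool.Agent.Lib.MP_e0f8f3_nt.DefsF
import Pool.Agent.Lib.MP_89da58_nt.Bv

set_option autoImplicit false

/-!
The theorem of Bombieri and Vinogradov for the primes, full range.
-/

namespace Pool.Agent.APC

open Finset Filter
open Pool.Agent.MP89da58 (tri primChars sum_inv_totient_le)
open Pool.Agent.CH (thP)
open Pool.Agent.CM

theorem f_bv (h1 : Pool.Agent.CM.B.R_one) (h2 : Pool.Agent.CM.B.R_swp) (h3 : F_con)
    (h4 : Pool.Agent.CM.B.R_cop) (h5 : ∀ lam : ℝ, 1 ≤ lam → Ok CP lam) : F_bv := by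
  classical
  intro A
  obtain ⟨B, hB⟩ := h3 1 (A + 3) le_rfl
  refine ⟨B, ?_⟩
  have hcop := h4 CP 1 (h5 1 le_rfl) (A + 1)
  filter_upwards [hB, hcop, eventually_ge_atTop (Real.exp 4)] with X hc hp hXe
  intro Y a hY ha
  have hXpos : 0 < X := lt_of_lt_of_le (Real.exp_pos 4) hXe
  have hlog4 : 4 ≤ Real.log X := by
    rw [Real.le_log_iff_exp_le hXpos]; exact hXe
  have hX1 : 1 ≤ X := le_trans (Real.one_le_exp (by norm_num)) hXe
  set L := Real.log X with hLdef
  have hLpos : 0 < L := by linarith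
  rcases Nat.eq_zero_or_pos Y with hY0 | hY0
  · subst hY0
    simp only [zero_lt_one, Finset.Icc_eq_empty_of_lt, Finset.sum_empty]
    positivity
  have hYp : (0 : ℝ) < Y := by exact_mod_cast hY0
  have hYh : (Y : ℝ) ≤ X ^ (1 / 2 : ℝ) := by
    refine le_trans ?_ hY
    have hB1 : (1 : ℝ) ≤ L ^ B := one_le_pow₀ (by linarith)
    nlinarith
  have hlogY : Real.log Y ≤ L / 2 := by
    have := Real.log_le_log hYp hYh
    rw [Real.log_rpow hXpos] at this
    linarith
  have hlogY0 : 0 ≤ Real.log Y := Real.log_nonneg (by exact_mod_cast hY0)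
  have hstep : ∀ q ∈ Icc 1 Y, er (fun n => thP n * wd 1 X n) ⌊3 * X⌋₊ q (a q) ≤
      1 / (Nat.totient q : ℝ) * ∑ r ∈ q.divisors.filter (fun r => 2 ≤ r), pS thP 1 X (q / r) r +
      1 / (Nat.totient q : ℝ) * ∑ n ∈ (Icc 1 ⌊3 * X⌋₊).filter (fun n => ¬ n.Coprime q),
        |thP n * wd 1 X n| := by
    intro q hq
    rw [← mul_add]
    exact h1 thP 1 X q (a q) (Finset.mem_Icc.1 hq).1 (ha q)
  refine (Finset.sum_le_sum hstep).trans ?_
  rw [Finset.sum_add_distrib]
  have h3' := hp thP rfl Y hYh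
  have h4' := h2 thP 1 X Y
  have h5' : ∑ s ∈ Icc 1 Y, 1 / (Nat.totient s : ℝ) * ∑ r ∈ Icc 2 Y,
      1 / (Nat.totient r : ℝ) * pS thP 1 X s r ≤
      ∑ s ∈ Icc 1 Y, 1 / (Nat.totient s : ℝ) * (X / L ^ (A + 3)) := by
    refine Finset.sum_le_sum fun s hs => ?_
    apply mul_le_mul_of_nonneg_left _ (by positivity)
    refine hc s Y (Finset.mem_Icc.1 hs).1 ?_ hY
    calc (s : ℝ) ≤ Y := by exact_mod_cast (Finset.mem_Icc.1 hs).2
      _ ≤ X ^ (1 / 2 : ℝ) := hYh
      _ ≤ X ^ (2 / 3 : ℝ) := Real.rpow_le_rpow_of_exponent_le hX1 (by norm_num)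
  rw [← Finset.sum_mul] at h5'
  have h6 : ∑ m ∈ Icc 1 Y, 1 / (Nat.totient m : ℝ) ≤ L * L := by
    refine (sum_inv_totient_le Y hY0).trans ?_
    have hlog2 : (0.69 : ℝ) < Real.log 2 := lt_trans (by norm_num) Real.log_two_gt_d9
    have h1 : Real.log Y / Real.log 2 + 1 ≤ L := by
      have h2 : Real.log Y / Real.log 2 ≤ L / 2 / 0.69 :=
        div_le_div₀ (by positivity) hlogY (by norm_num) hlog2.le
      have h3 : L / 2 / 0.69 ≤ 3 / 4 * L := by
        rw [div_le_iff₀ (by norm_num)]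
        linarith
      linarith
    have h4 : 1 + Real.log Y ≤ L := by linarith
    exact mul_le_mul h1 h4 (by linarith) hLpos.le
  have h7 : (∑ s ∈ Icc 1 Y, 1 / (Nat.totient s : ℝ)) * (X / L ^ (A + 3)) ≤
      L * L * (X / L ^ (A + 3)) := mul_le_mul_of_nonneg_right h6 (by positivity)
  have h8 : L * L * (X / L ^ (A + 3)) = X / L ^ (A + 1) := by
    rw [show A + 3 = A + 1 + 2 by ring, pow_add L (A + 1) 2]
    field_simp
  have h9 : X / L ^ (A + 1) ≤ X / L ^ A / 2 := by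
    rw [pow_succ]
    have h10 : X / (L ^ A * L) = X / L ^ A * (1 / L) := by field_simp
    rw [h10]
    have h11 : 1 / L ≤ 1 / 2 := one_div_le_one_div_of_le (by norm_num) (by linarith)
    have h12 : 0 ≤ X / L ^ A := by positivity
    have := mul_le_mul_of_nonneg_left h11 h12
    linarith
  linarith

end Pool.Agent.APC
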