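import Pool.Agent.Lib.MP_0da313_nt.CM.P.conn
import Pool.Agent.Lib.MP_e0f8f3_nt.DefsF

set_option autoImplicit false

/-!
All conductors, full range.
-/

namespace Pool.Agent.APC

open Finset Filter
open Pool.Agent.MP89da58 (tri primChars inv_totient_le)
open Pool.Agent.CH (thP)
open Pool.Agent.CM
open Pool.Agent.CM.B (con_abel con_small)

theorem f_con (h1 : F_LC) (h2 : ∀ lam, 1 ≤ lam → SC CP lam) : F_con := by
  classical
  intro lam A hlam
  obtain ⟨B, hB⟩ := h1 lam (A + 5) hlam
  refine ⟨B, ?_⟩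
  have hS := h2 lam hlam (A + B + 1) (B + 1)
  filter_upwards [hB, hS, eventually_ge_atTop (Real.exp 4)] with X hL1 hS1 hXe
  intro s Y hs hsX hY
  have hXpos : 0 < X := lt_of_lt_of_le (Real.exp_pos 4) hXe
  have hlog4 : 4 ≤ Real.log X := by
    rw [Real.le_log_iff_exp_le hXpos]; exact hXe
  have hX1 : 1 ≤ X := le_trans (Real.one_le_exp (by norm_num)) hXe
  set L := Real.log X with hLdef
  have hLpos : 0 < L := by linarith
  have hp0 : ∀ r, 0 ≤ pS thP lam X s r := by
    intro r
    unfold pS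
    refine Finset.sum_nonneg fun χ _ => ?_
    exact Set.indicator_nonneg (fun _ _ => norm_nonneg _) _
  set R0 := ⌈L ^ B⌉₊ with hR0
  have hLB : 1 ≤ L ^ B := one_le_pow₀ (by linarith)
  have hR0le : (R0 : ℝ) ≤ 2 * L ^ B := by
    have := (Nat.ceil_lt_add_one (by positivity : 0 ≤ L ^ B)).le
    linarith
  have hR0ge : L ^ B ≤ R0 := Nat.le_ceil _
  have hR01 : 1 ≤ R0 := by
    have : (1 : ℝ) ≤ R0 := hLB.trans hR0ge
    exact_mod_cast this
  have hYle : ∀ r : ℕ, 1 ≤ r → r ≤ Y → Real.log r ≤ L / 2 := by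
    intro r hr hrY
    have hrp : (0 : ℝ) < r := by exact_mod_cast hr
    have h1 : (r : ℝ) ≤ X ^ (1 / 2 : ℝ) := by
      calc (r : ℝ) ≤ Y := by exact_mod_cast hrY
        _ ≤ Y * L ^ B := le_mul_of_one_le_right (Nat.cast_nonneg _) hLB
        _ ≤ X ^ (1 / 2 : ℝ) := hY
    have := Real.log_le_log hrp h1
    rw [Real.log_rpow hXpos] at this
    linarith
  -- small
  have hsmall : ∑ r ∈ (Icc 2 Y).filter (fun r => r ≤ R0), 1 / (Nat.totient r : ℝ) *
      pS thP lam X s r ≤ X / L ^ A / 2 := by
    have h1 : ∀ r ∈ (Icc 2 Y).filter (fun r => r ≤ R0), 1 / (Nat.totient r : ℝ) *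
      pS thP lam X s r ≤ X / L ^ (A + B + 1) := by
      intro r hr
      obtain ⟨hr1, hr2⟩ := Finset.mem_filter.1 hr
      have hr3 := (Finset.mem_Icc.1 hr1).1
      refine con_small thP lam X _ s r hr3 (by positivity) fun χ hχ => ?_
      refine hS1 thP rfl s hs hsX r χ hr3 ?_ hχ
      calc (r : ℝ) ≤ R0 := by exact_mod_cast hr2
        _ ≤ 2 * L ^ B := hR0le
        _ ≤ L * L ^ B := by
            apply mul_le_mul_of_nonneg_right _ (by positivity)
            linarith
        _ = L ^ (B + 1) := by ring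
    refine (Finset.sum_le_sum h1).trans ?_
    rw [Finset.sum_const, nsmul_eq_mul]
    have h2 : (((Icc 2 Y).filter (fun r => r ≤ R0)).card : ℝ) ≤ R0 := by
      have h3 : (Icc 2 Y).filter (fun r => r ≤ R0) ⊆ Icc 1 R0 := by
        intro r hr
        obtain ⟨hr1, hr2⟩ := Finset.mem_filter.1 hr
        have hr3 := (Finset.mem_Icc.1 hr1).1
        exact Finset.mem_Icc.2 ⟨by omega, hr2⟩
      have h4 := Finset.card_le_card h3
      rw [Nat.card_Icc, Nat.add_sub_cancel] at h4
      exact_mod_cast h4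
    calc _ ≤ (R0 : ℝ) * (X / L ^ (A + B + 1)) := by
          apply mul_le_mul_of_nonneg_right h2
          positivity
      _ ≤ 2 * L ^ B * (X / L ^ (A + B + 1)) := by
          apply mul_le_mul_of_nonneg_right hR0le
          positivity
      _ = X / L ^ A * (2 / L) := by
          rw [pow_succ, pow_add]
          field_simp
      _ ≤ X / L ^ A * (1 / 2) := by
          apply mul_le_mul_of_nonneg_left _ (by positivity)
          rw [div_le_iff₀ hLpos]
          linarith
      _ = _ := by ring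
  -- large
  have hlarge : ∑ r ∈ (Icc 2 Y).filter (fun r => ¬ r ≤ R0), 1 / (Nat.totient r : ℝ) *
      pS thP lam X s r ≤ X / L ^ A / 2 := by
    rcases lt_or_ge Y R0 with hYR | hYR
    · rw [Finset.filter_eq_empty_iff.2]
      · rw [Finset.sum_empty]
        positivity
      · intro r hr
        have := (Finset.mem_Icc.1 hr).2
        omega
    have hK : ∀ R, R0 ≤ R → R ≤ Y → ∑ r ∈ Ioc R0 R, pS thP lam X s r ≤ R * (X / L ^ (A + 5)) := by
      intro R hR hRY
      have h1 := hL1 R s (hR0ge.trans (by exact_mod_cast hR))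
        (le_trans (mul_le_mul_of_nonneg_right (by exact_mod_cast hRY) (by positivity)) hY) hs hsX
      have h3 : ∑ r ∈ Icc 2 R, pS thP lam X s r = ∑ p ∈ primChars R, ‖Tw thP lam X s p.2‖ := by
        rw [primChars, Finset.sum_sigma]
        apply Finset.sum_congr rfl
        intro r _
        rw [pS, Finset.sum_filter]
        apply Finset.sum_congr rfl
        intro χ _
        rw [Set.indicator_apply]
        rfl
      have h4 : ∑ r ∈ Ioc R0 R, pS thP lam X s r ≤ ∑ r ∈ Icc 2 R, pS thP lam X s r := by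
        refine Finset.sum_le_sum_of_subset_of_nonneg ?_ fun r _ _ => hp0 r
        intro r hr
        have := Finset.mem_Ioc.1 hr
        exact Finset.mem_Icc.2 ⟨by omega, this.2⟩
      calc _ ≤ _ := h4
        _ = _ := h3
        _ ≤ _ := h1
        _ = _ := by ring
    have h5 := con_abel (fun r => pS thP lam X s r) (X / L ^ (A + 5)) R0 hR01 Y hK Y hYR le_rfl
    have hYp : (0 : ℝ) < Y := by
      have : 0 < Y := by omega
      exact_mod_cast this
    have h6 : (∑ r ∈ Ioc R0 Y, pS thP lam X s r) / (Y : ℝ) ≤ X / L ^ (A + 5) := by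
      rw [div_le_iff₀ hYp]
      have := hK Y hYR le_rfl
      linarith
    have h7 : ∑ m ∈ Ioc R0 Y, (m : ℝ)⁻¹ ≤ L - 1 := by
      have h71 : ∑ m ∈ Ioc R0 Y, (m : ℝ)⁻¹ ≤ ∑ m ∈ Icc 1 Y, (m : ℝ)⁻¹ := by
        refine Finset.sum_le_sum_of_subset_of_nonneg ?_ fun r _ _ => by positivity
        intro r hr
        have := Finset.mem_Ioc.1 hr
        exact Finset.mem_Icc.2 ⟨by omega, this.2⟩
      have h72 : ∑ m ∈ Icc 1 Y, (m : ℝ)⁻¹ ≤ 1 + Real.log Y := by
        have h3 := harmonic_le_one_add_log Y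
        have h4 : ((harmonic Y : ℚ) : ℝ) = ∑ m ∈ Icc 1 Y, (m : ℝ)⁻¹ := by
          rw [harmonic_eq_sum_Icc]
          push_cast
          rfl
        rwa [h4] at h3
      have h73 := hYle Y (by omega) le_rfl
      linarith
    have h8 : ∑ r ∈ Ioc R0 Y, pS thP lam X s r / r ≤ X / L ^ (A + 5) * L := by
      have h81 : (0 : ℝ) ≤ X / L ^ (A + 5) := by positivity
      have h82 := mul_le_mul_of_nonneg_left h7 h81
      calc _ ≤ _ := h5
        _ ≤ X / L ^ (A + 5) + X / L ^ (A + 5) * (L - 1) := add_le_add h6 h82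
        _ = _ := by ring
    have h9 : ∑ r ∈ (Icc 2 Y).filter (fun r => ¬ r ≤ R0), 1 / (Nat.totient r : ℝ) *
        pS thP lam X s r ≤ ∑ r ∈ Ioc R0 Y, L * (pS thP lam X s r / r) := by
      have h91 : (Icc 2 Y).filter (fun r => ¬ r ≤ R0) ⊆ Ioc R0 Y := by
        intro r hr
        obtain ⟨hr1, hr2⟩ := Finset.mem_filter.1 hr
        exact Finset.mem_Ioc.2 ⟨by omega, (Finset.mem_Icc.1 hr1).2⟩
      refine (Finset.sum_le_sum_of_subset_of_nonneg h91 fun r _ _ =>
        mul_nonneg (by positivity) (hp0 r)).trans ?_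
      refine Finset.sum_le_sum fun r hr => ?_
      have hr' := Finset.mem_Ioc.1 hr
      have hr0 : r ≠ 0 := by omega
      have hrp : (0 : ℝ) < r := by
        have : 0 < r := by omega
        exact_mod_cast this
      have h92 := inv_totient_le r hr0
      have h93 : Real.log r / Real.log 2 + 1 ≤ L := by
        have hlog2 : (0.69 : ℝ) < Real.log 2 := lt_trans (by norm_num) Real.log_two_gt_d9
        have h94 := hYle r (by omega) hr'.2
        have h95 : Real.log r / Real.log 2 ≤ L / 2 / 0.69 :=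
          div_le_div₀ (by positivity) h94 (by norm_num) hlog2.le
        have h96 : L / 2 / 0.69 ≤ 3 / 4 * L := by
          rw [div_le_iff₀ (by norm_num)]
          linarith
        linarith
      have h97 : 1 / (Nat.totient r : ℝ) ≤ L / r :=
        h92.trans (div_le_div_of_nonneg_right h93 hrp.le)
      calc 1 / (Nat.totient r : ℝ) * pS thP lam X s r ≤ L / r * pS thP lam X s r :=
            mul_le_mul_of_nonneg_right h97 (hp0 r)
        _ = _ := by ring
    refine h9.trans ?_
    rw [← Finset.mul_sum]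
    calc L * ∑ r ∈ Ioc R0 Y, pS thP lam X s r / r ≤ L * (X / L ^ (A + 5) * L) :=
          mul_le_mul_of_nonneg_left h8 hLpos.le
      _ = X / L ^ A * (1 / L ^ 3) := by
          rw [show A + 5 = A + 3 + 2 by ring, pow_add, pow_add]
          field_simp
      _ ≤ X / L ^ A * (1 / 2) := by
          apply mul_le_mul_of_nonneg_left _ (by positivity)
          apply one_div_le_one_div_of_le (by norm_num)
          nlinarith [sq_nonneg L]
      _ = _ := by ring
  rw [← Finset.sum_filter_add_sum_filter_not (Icc 2 Y) (fun r : ℕ => r ≤ R0)]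
  linarith

end Pool.Agent.APC
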