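import Mathlib
import Pool.Agent.Lib.MP_e0f8f3_nt.DefsF

set_option autoImplicit false

/-!
A very long path of primes.
-/

namespace Pool.Agent.APC

open Finset Filter
open Pool.Agent.BVall

private lemma fp_le (X : ℝ) (n : ℕ) : fw X n ≤ Real.log n := by
  unfold fw
  have h0 : 0 ≤ Real.log n := Real.log_natCast_nonneg n
  have h1 : max 0 (1 - |Real.log (n / X)|) ≤ 1 :=
    max_le zero_le_one (by linarith [abs_nonneg (Real.log (n / X))])
  have h2 : (if n.Prime then Real.log n else 0) ≤ Real.log n := by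
    split_ifs
    · exact le_rfl
    · exact h0
  have h3 : 0 ≤ (if n.Prime then Real.log n else 0) := by
    split_ifs
    · exact h0
    · exact le_rfl
  calc _ ≤ (if n.Prime then Real.log n else 0) * 1 := mul_le_mul_of_nonneg_left h1 h3
    _ ≤ _ := by rw [mul_one]; exact h2

private lemma fp_prime {X : ℝ} {n : ℕ} (h : fw X n ≠ 0) : n.Prime := by
  by_contra hn
  apply h
  unfold fw
  rw [if_neg hn, zero_mul]

private lemma fp_count {A : Finset ℕ} {f : ℕ → ℝ} {E B : ℝ} (hE : E ≤ ∑ n ∈ A, f n)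
    (hB : ∀ n ∈ A, f n ≤ B) : E ≤ B * ((A.filter (fun n => f n ≠ 0)).card : ℝ) := by
  rw [← Finset.sum_filter_ne_zero] at hE
  refine hE.trans ?_
  calc _ ≤ ∑ n ∈ A.filter (fun n => f n ≠ 0), B :=
        Finset.sum_le_sum fun n hn => hB n (Finset.mem_filter.1 hn).1
    _ = _ := by rw [Finset.sum_const, nsmul_eq_mul, mul_comm]

private lemma fp_one {n s m : ℕ} (hs0 : 0 < s) (h1 : 2 * (m + 1) ≤ n * s)
    (h3 : m ≡ 2 * s - 1 [MOD 2 * s]) :
    s * (2 * ((m + 1) / (2 * s))) = m + 1 ∧ 1 ≤ (m + 1) / (2 * s) ∧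
      2 * ((m + 1) / (2 * s)) ≤ n - 1 := by
  have h4 : 2 * s ∣ m + 1 := by
    have h5 := h3.add_right 1
    rw [Nat.sub_add_cancel (by omega)] at h5
    exact (Nat.modEq_zero_iff_dvd).1 (h5.trans (by simp [Nat.ModEq]))
  obtain ⟨c, hc⟩ := h4
  have hbc : (m + 1) / (2 * s) = c := by
    rw [hc]
    exact Nat.mul_div_cancel_left _ (by omega)
  rw [hbc]
  have hc1 : 1 ≤ c := by
    rcases Nat.eq_zero_or_pos c with h0 | h0
    · rw [h0] at hc; simp at hc
    · exact h0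
  have hbn : 4 * c ≤ n := by
    have h5 : (4 * c) * s ≤ n * s := by
      calc (4 * c) * s = 2 * (2 * s * c) := by ring
        _ = 2 * (m + 1) := by rw [hc]
        _ ≤ n * s := h1
    exact Nat.le_of_mul_le_mul_right h5 hs0
  exact ⟨by rw [hc]; ring, hc1, by omega⟩

private lemma fp_deg {n D s : ℕ} {F : Finset ℕ} (hs : 0 < s)
    (hF : ∀ m ∈ F, m.Prime ∧ 2 * (m + 1) ≤ n * s ∧ m ≡ 2 * s - 1 [MOD 2 * s])
    (h : D ≤ F.card) :
    D ≤ {b | b ∈ Icc 1 ((n - 1) / 2) ∧ (s * (2 * b) - 1).Prime}.ncard := by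
  classical
  refine h.trans ?_
  rw [← Set.ncard_coe_finset]
  have hfin : {b | b ∈ Icc 1 ((n - 1) / 2) ∧ (s * (2 * b) - 1).Prime}.Finite :=
    (Finset.finite_toSet (Icc 1 ((n - 1) / 2))).subset fun b hb => hb.1
  refine Set.ncard_le_ncard_of_injOn (fun p => (p + 1) / (2 * s)) ?_ ?_ hfin
  · intro p hp
    obtain ⟨g1, g2, g3⟩ := hF p (Finset.mem_coe.1 hp)
    obtain ⟨e1, e2, e3⟩ := fp_one hs g2 g3
    refine ⟨Finset.mem_Icc.2 ⟨e2, ?_⟩, ?_⟩
    · show (p + 1) / (2 * s) ≤ (n - 1) / 2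
      omega
    · show (s * (2 * ((p + 1) / (2 * s))) - 1).Prime
      rw [e1, Nat.add_sub_cancel]
      exact g1
  · intro p hp q hq hpq
    obtain ⟨g1, g2, g3⟩ := hF p (Finset.mem_coe.1 hp)
    obtain ⟨k1, k2, k3⟩ := hF q (Finset.mem_coe.1 hq)
    have e1 := (fp_one hs g2 g3).1
    have e2 := (fp_one hs k2 k3).1
    have hpq' : (p + 1) / (2 * s) = (q + 1) / (2 * s) := hpq
    rw [hpq', e2] at e1
    omega

private lemma fp_log (K : ℕ) :
    ∀ᶠ n : ℕ in atTop, 2 * Real.log n ^ K ≤ (n : ℝ) ^ (1 / 2 : ℝ) := by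
  have tk : Tendsto (fun n : ℕ => (n : ℝ)) atTop atTop := tendsto_natCast_atTop_atTop
  have e1 := (isLittleO_log_rpow_rpow_atTop ((K : ℕ) : ℝ)
    (by norm_num : (0 : ℝ) < 1 / 2)).bound (by norm_num : (0 : ℝ) < 1 / 2)
  filter_upwards [tk.eventually e1] with n hn
  rw [Real.rpow_natCast, Real.norm_eq_abs, Real.norm_eq_abs,
    abs_of_nonneg (pow_nonneg (Real.log_natCast_nonneg n) K),
    abs_of_nonneg (Real.rpow_nonneg (Nat.cast_nonneg n) _)] at hn
  linarith

private lemma fp_sum {S : ℕ} {X R : ℝ} (h : ∑ q ∈ Icc 1 (18 * S), ER X q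
      (if q = 0 then 1 else q - 1) ≤ R) :
    ∑ s ∈ (Ioc S (9 * S)).filter Nat.Prime, ER X (2 * s) (2 * s - 1) ≤ R := by
  classical
  refine le_trans ?_ h
  have e1 : ∑ s ∈ (Ioc S (9 * S)).filter Nat.Prime, ER X (2 * s) (2 * s - 1) =
      ∑ q ∈ ((Ioc S (9 * S)).filter Nat.Prime).image (fun s => 2 * s),
        ER X q (if q = 0 then 1 else q - 1) := by
    rw [Finset.sum_image (fun x _ y _ hxy => by
      have h2 : 2 * x = 2 * y := hxy
      omega)]
    refine Finset.sum_congr rfl fun s hs => ?_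
    have h2 : s.Prime := (Finset.mem_filter.1 hs).2
    have h3 := h2.pos
    rw [if_neg (by omega)]
  rw [e1]
  refine Finset.sum_le_sum_of_subset_of_nonneg ?_ fun q _ _ => abs_nonneg _
  intro q hq
  obtain ⟨s, hs, rfl⟩ := Finset.mem_image.1 hq
  have h2 := Finset.mem_Ioc.1 (Finset.mem_filter.1 hs).1
  rw [Finset.mem_Icc]
  omega

theorem f_path (h1 : U_M1) (h2 : F_ER) (h3 : U_prs) (hg : Y_grp) : F_path := by
  classical
  obtain ⟨cM, hcM, hM1⟩ := h1
  obtain ⟨cp, hcp, hprs⟩ := h3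
  obtain ⟨B, hB⟩ := h2 4
  obtain ⟨XM, hXM⟩ := eventually_atTop.1 hM1
  obtain ⟨XE, hXE⟩ := eventually_atTop.1 hB
  obtain ⟨SP, hSP⟩ := eventually_atTop.1 hprs
  obtain ⟨D1, hD1⟩ : ∃ D1 : ℕ, D1 = 2 * B + 30 := ⟨_, rfl⟩
  obtain ⟨M, hM⟩ : ∃ M : ℝ, M = 17 + |XM| + |XE| + SP + 1944 * 4 ^ B + 5184 / (cM * cp) :=
    ⟨_, rfl⟩
  have p1 : 0 ≤ |XM| := abs_nonneg _
  have p2 : 0 ≤ |XE| := abs_nonneg _
  have p3 : (0 : ℝ) ≤ SP := Nat.cast_nonneg _
  have p4 : (0 : ℝ) < 1944 * 4 ^ B := by positivity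
  have p5 : 0 < 5184 / (cM * cp) := by positivity
  have q1 : XM ≤ M := by linarith [le_abs_self XM]
  have q2 : XE ≤ M := by linarith [le_abs_self XE]
  have q3 : (SP : ℝ) ≤ M := by linarith
  have q4 : 1944 * 4 ^ B ≤ M := by linarith
  have q5 : 5184 / (cM * cp) ≤ M := by linarith
  have q6 : 17 ≤ M := by linarith
  have q5' : 5184 ≤ M * (cM * cp) := by rwa [div_le_iff₀ (by positivity)] at q5
  clear hM p1 p2 p3 p4 p5 q5
  have tk : Tendsto (fun n : ℕ => (n : ℝ)) atTop atTop := tendsto_natCast_atTop_atTop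
  have t1 : Tendsto (fun n : ℕ => Real.log n) atTop atTop := Real.tendsto_log_atTop.comp tk
  have t2 : Tendsto (fun n : ℕ => (n : ℝ) ^ (1 / 2 : ℝ)) atTop atTop :=
    (tendsto_rpow_atTop (by norm_num)).comp tk
  obtain ⟨n0, hn0⟩ := eventually_atTop.1 ((t1.eventually_ge_atTop M).and
    ((t2.eventually_ge_atTop (M + 65537)).and (fp_log (D1 + 4))))
  refine ⟨D1 + 4, n0, fun n hn => ?_⟩
  obtain ⟨hML, hMT, hLT⟩ := hn0 n hn
  clear hn0 hn t1 t2 tk
  obtain ⟨L, hL⟩ : ∃ L : ℝ, L = Real.log n := ⟨_, rfl⟩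
  obtain ⟨T, hT⟩ : ∃ T : ℝ, T = (n : ℝ) ^ (1 / 2 : ℝ) := ⟨_, rfl⟩
  rw [← hL] at hML hLT ⊢
  rw [← hT] at hMT hLT
  have hL17 : 17 ≤ L := q6.trans hML
  have hL1 : 1 ≤ L := by linarith
  have hL0 : 0 < L := by linarith
  have hn1 : 0 < n := by
    rcases Nat.eq_zero_or_pos n with h | h
    · rw [h] at hL
      simp at hL
      linarith
    · exact h
  have hn0 : (0 : ℝ) < n := by exact_mod_cast hn1
  have hLn : L ≤ n - 1 := by rw [hL]; exact Real.log_le_sub_one_of_pos hn0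
  have hn17 : (17 : ℝ) ≤ n := by linarith
  have hTT : T * T = n := by
    rw [hT, ← Real.rpow_add hn0]
    norm_num
  have hT1 : 1 ≤ T := by linarith
  have hLD0 : 0 < L ^ D1 := by positivity
  have hLD : 2 * L ^ D1 ≤ T := by
    have e1 : L ^ D1 ≤ L ^ (D1 + 4) := pow_le_pow_right₀ hL1 (by omega)
    linarith
  have hq : T + 1 ≤ n / L ^ D1 := by
    rw [le_div_iff₀ hLD0]
    have e1 : (T + 1) * L ^ D1 ≤ (T + 1) * (T / 2) :=
      mul_le_mul_of_nonneg_left (by linarith) (by linarith)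
    nlinarith
  obtain ⟨S, hS⟩ : ∃ S : ℕ, S = ⌊(n : ℝ) / L ^ D1⌋₊ := ⟨_, rfl⟩
  have hS1 : (S : ℝ) ≤ n / L ^ D1 := by rw [hS]; exact Nat.floor_le (by positivity)
  have hS2 : (n : ℝ) / L ^ D1 < S + 1 := by rw [hS]; exact Nat.lt_floor_add_one _
  clear hS
  have hSL : (S : ℝ) * L ^ D1 ≤ n := by rwa [le_div_iff₀ hLD0] at hS1
  have hST : T ≤ S := by linarith
  have hS65r : (65537 : ℝ) ≤ S := by linarith
  have hS65 : 65537 ≤ S := by exact_mod_cast hS65r
  have hS0 : (0 : ℝ) < S := by linarith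
  have hS3 : (n : ℝ) / (2 * L ^ D1) ≤ S := by
    have e1 : (n : ℝ) / (2 * L ^ D1) = (n / L ^ D1) / 2 := by
      field_simp
    rw [e1]
    linarith
  have hSn' : (S : ℝ) ≤ n := by
    have e1 : (1 : ℝ) ≤ L ^ D1 := one_le_pow₀ hL1
    calc (S : ℝ) = S * 1 := (mul_one _).symm
      _ ≤ S * L ^ D1 := mul_le_mul_of_nonneg_left e1 hS0.le
      _ ≤ n := hSL
  obtain ⟨X, hX⟩ : ∃ X : ℝ, X = (n * S / 6 : ℝ) := ⟨_, rfl⟩
  have hXn : (n : ℝ) ≤ X := by
    have e1 : (n : ℝ) * 6 ≤ n * S := mul_le_mul_of_nonneg_left (by linarith) hn0.le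
    rw [hX]
    linarith
  have hX0 : 0 < X := by linarith
  have hXnn : X ≤ n * n := by
    have e3 : (n : ℝ) * S ≤ n * n := mul_le_mul_of_nonneg_left hSn' hn0.le
    have e4 : (0 : ℝ) ≤ n * S := by positivity
    rw [hX]
    linarith
  have hXM' : cM * X ≤ TT X := hXM X (by linarith)
  have hlogX : L ≤ Real.log X := by rw [hL]; exact Real.log_le_log hn0 hXn
  have hlogX2 : Real.log X ≤ 2 * L := by
    calc Real.log X ≤ Real.log (n * n) := Real.log_le_log hX0 hXnn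
      _ = 2 * L := by rw [Real.log_mul hn0.ne' hn0.ne', ← hL]; ring
  have hY : ((18 * S : ℕ) : ℝ) * Real.log X ^ B ≤ X ^ (1 / 2 : ℝ) := by
    rw [← Real.sqrt_eq_rpow]
    apply Real.le_sqrt_of_sq_le
    have e1 : Real.log X ^ B ≤ (2 * L) ^ B := pow_le_pow_left₀ (hL0.le.trans hlogX) hlogX2 B
    have e0 : 0 ≤ Real.log X ^ B := pow_nonneg (hL0.le.trans hlogX) B
    have e2 : (Real.log X ^ B) ^ 2 ≤ ((2 * L) ^ B) ^ 2 := pow_le_pow_left₀ e0 e1 2
    have e3 : ((2 * L) ^ B) ^ 2 = 4 ^ B * L ^ (2 * B) := by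
      rw [← pow_mul, mul_comm B 2, mul_pow, pow_mul 2 2 B]
      norm_num
    have e4 : 1944 * 4 ^ B ≤ L ^ 30 := by
      calc 1944 * 4 ^ B ≤ L := q4.trans hML
        _ = L ^ 1 := (pow_one L).symm
        _ ≤ L ^ 30 := pow_le_pow_right₀ hL1 (by norm_num)
    have e5 : S * L ^ (2 * B) * (1944 * 4 ^ B) ≤ n := by
      calc S * L ^ (2 * B) * (1944 * 4 ^ B) ≤ S * L ^ (2 * B) * L ^ 30 :=
            mul_le_mul_of_nonneg_left e4 (by positivity)
        _ = S * L ^ D1 := by rw [hD1, pow_add]; ring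
        _ ≤ n := hSL
    calc (((18 * S : ℕ) : ℝ) * Real.log X ^ B) ^ 2
        = 324 * S ^ 2 * (Real.log X ^ B) ^ 2 := by push_cast; ring
      _ ≤ 324 * S ^ 2 * (4 ^ B * L ^ (2 * B)) := by
          rw [← e3]
          exact mul_le_mul_of_nonneg_left e2 (by positivity)
      _ = S * (S * L ^ (2 * B) * (1944 * 4 ^ B)) / 6 := by ring
      _ ≤ S * n / 6 := by
          have := mul_le_mul_of_nonneg_left e5 hS0.le
          linarith
      _ = X := by rw [hX]; ring
  have hsum := fp_sum (hXE X (by linarith) (18 * S) (fun q => if q = 0 then 1 else q - 1) hY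
    (fun q => by
      show Nat.Coprime (if q = 0 then 1 else q - 1) q
      split_ifs with h
      · exact Nat.coprime_one_left q
      · obtain ⟨m, rfl⟩ := Nat.exists_eq_succ_of_ne_zero h
        simp))
  have hsum' := hsum.trans (div_le_div_of_nonneg_left hX0.le (by positivity : 0 < L ^ 4)
    (pow_le_pow_left₀ hL0.le hlogX 4))
  clear hsum hY
  obtain ⟨E, hE⟩ : ∃ E : ℝ, E = cM * n / 216 := ⟨_, rfl⟩
  have hE0 : 0 < E := by rw [hE]; positivity
  obtain ⟨Pr, hPr⟩ : ∃ Pr : Finset ℕ, Pr = (Ioc S (9 * S)).filter Nat.Prime := ⟨_, rfl⟩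
  have hPrc : cp * S / Real.log S ≤ (Pr.card : ℝ) := by
    rw [hPr]
    refine hSP S ?_
    have : (SP : ℝ) ≤ S := by linarith
    exact_mod_cast this
  rw [← hPr] at hsum'
  have hmemPr : ∀ s ∈ Pr, s.Prime ∧ S < s ∧ s ≤ 9 * S := by
    intro s hs
    rw [hPr, Finset.mem_filter, Finset.mem_Ioc] at hs
    exact ⟨hs.2, hs.1.1, hs.1.2⟩
  have hPrle : Pr.card ≤ 9 * S := by
    rw [hPr]
    calc _ ≤ (Ioc S (9 * S)).card := Finset.card_filter_le _ _
      _ = 9 * S - S := Nat.card_Ioc _ _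
      _ ≤ 9 * S := Nat.sub_le _ _
  clear hPr
  obtain ⟨Sg, hSg⟩ : ∃ Sg : Finset ℕ, Sg = Pr.filter (fun s => ER X (2 * s) (2 * s - 1) ≤ E) :=
    ⟨_, rfl⟩
  have hSgc : cp * S / (2 * L) ≤ (Sg.card : ℝ) := by
    have hcard : (Pr.card : ℝ) = (Sg.card : ℝ) +
        ((Pr.filter (fun s => ¬ ER X (2 * s) (2 * s - 1) ≤ E)).card : ℝ) := by
      rw [hSg, ← Nat.cast_add, Finset.card_filter_add_card_filter_not]
    have hbad : ((Pr.filter (fun s => ¬ ER X (2 * s) (2 * s - 1) ≤ E)).card : ℝ) * E ≤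
        X / L ^ 4 := by
      refine le_trans ?_ hsum'
      refine le_trans ?_ (Finset.sum_le_sum_of_subset_of_nonneg
        (Finset.filter_subset (fun s => ¬ ER X (2 * s) (2 * s - 1) ≤ E) Pr)
          fun s _ _ => abs_nonneg _)
      rw [← nsmul_eq_mul]
      exact Finset.card_nsmul_le_sum _ _ _ fun s hs => by
        have := (Finset.mem_filter.1 hs).2
        push Not at this
        exact this.le
    have hbad' : ((Pr.filter (fun s => ¬ ER X (2 * s) (2 * s - 1) ≤ E)).card : ℝ) ≤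
        36 * S / (cM * L ^ 4) := by
      rw [← le_div_iff₀ hE0] at hbad
      refine hbad.trans (le_of_eq ?_)
      rw [hX, hE]
      field_simp
      ring
    have hlogS : Real.log S ≤ L := by rw [hL]; exact Real.log_le_log hS0 hSn'
    have hlogS0 : 0 < Real.log S := Real.log_pos (by linarith)
    have g1 : cp * S / L ≤ cp * S / Real.log S :=
      div_le_div_of_nonneg_left (by positivity) hlogS0 hlogS
    have g2 : 36 * S / (cM * L ^ 4) ≤ cp * S / (2 * L) := by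
      rw [div_le_div_iff₀ (by positivity) (by positivity)]
      have e1 : L ^ 2 ≤ L ^ 4 := pow_le_pow_right₀ hL1 (by norm_num)
      have e3 : 72 ≤ L * (cM * cp) := by
        have : M * (cM * cp) ≤ L * (cM * cp) := mul_le_mul_of_nonneg_right hML (by positivity)
        linarith
      have e2 : 72 * L ≤ cM * cp * L ^ 2 := by
        have := mul_le_mul_of_nonneg_right e3 hL0.le
        nlinarith
      have e4 : 72 * L ≤ cM * cp * L ^ 4 :=
        e2.trans (mul_le_mul_of_nonneg_left e1 (by positivity))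
      calc 36 * (S : ℝ) * (2 * L) = S * (72 * L) := by ring
        _ ≤ S * (cM * cp * L ^ 4) := mul_le_mul_of_nonneg_left e4 hS0.le
        _ = cp * S * (cM * L ^ 4) := by ring
    have g3 : cp * S / L = cp * S / (2 * L) + cp * S / (2 * L) := by
      field_simp
      ring
    linarith
  have hSgle : Sg.card ≤ 9 * S := by
    rw [hSg]
    exact (Finset.card_filter_le _ _).trans hPrle
  have hSgm : ∀ s ∈ Sg, s.Prime ∧ S < s ∧ s ≤ 9 * S := by
    intro s hs
    rw [hSg] at hs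
    exact hmemPr s (Finset.mem_filter.1 hs).1
  obtain ⟨D, hD⟩ : ∃ D : ℕ, D = ⌈cM * n / (432 * L)⌉₊ := ⟨_, rfl⟩
  have hDr : cM * n / (432 * L) ≤ D := by rw [hD]; exact Nat.le_ceil _
  have hdeg : ∀ s ∈ Sg, D ≤ {b | b ∈ Icc 1 ((n - 1) / 2) ∧ (s * (2 * b) - 1).Prime}.ncard := by
    intro s hs
    obtain ⟨hsp, hSs, hs9⟩ := hSgm s hs
    rw [hSg, Finset.mem_filter] at hs
    have hsE := hs.2
    have hs0 : (0 : ℝ) < s := by exact_mod_cast hsp.pos
    have hs9' : (s : ℝ) ≤ 9 * S := by exact_mod_cast hs9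
    have hφ0 : 0 < Nat.totient (2 * s) := by
      rw [Nat.totient_pos]
      have := hsp.pos
      omega
    have hφ0' : (0 : ℝ) < (Nat.totient (2 * s) : ℝ) := by exact_mod_cast hφ0
    have hφ : (Nat.totient (2 * s) : ℝ) ≤ 18 * S := by
      have e1 : (Nat.totient (2 * s) : ℝ) ≤ ((2 * s : ℕ) : ℝ) := by
        exact_mod_cast Nat.totient_le _
      push_cast at e1
      linarith
    have k2 : 2 * E ≤ TT X / (Nat.totient (2 * s) : ℝ) := by
      have e1 : cM * X / (18 * S) ≤ TT X / (Nat.totient (2 * s) : ℝ) :=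
        div_le_div₀ (le_trans (by positivity) hXM') hXM' hφ0' hφ
      refine le_trans (le_of_eq ?_) e1
      rw [hX, hE]
      field_simp
      ring
    have k5 : E ≤ ∑ m ∈ (Icc 1 ⌊3 * X⌋₊).filter (fun m => m ≡ 2 * s - 1 [MOD 2 * s]), fw X m := by
      unfold ER at hsE
      have := (abs_le.1 hsE).1
      linarith
    have k6 := fp_count (B := 2 * L) k5 (fun m hm => by
      rw [Finset.mem_filter, Finset.mem_Icc] at hm
      have e0 : (0 : ℝ) < m := by exact_mod_cast hm.1.1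
      have e1 : (m : ℝ) ≤ 3 * X := (Nat.le_floor_iff (by positivity)).1 hm.1.2
      have e3 : (n : ℝ) * S ≤ n * n := mul_le_mul_of_nonneg_left hSn' hn0.le
      have e4 : (0 : ℝ) ≤ n * S := by positivity
      have e2 : (m : ℝ) ≤ n * n := by
        rw [hX] at e1
        linarith
      calc fw X m ≤ Real.log m := fp_le X m
        _ ≤ Real.log (n * n) := Real.log_le_log e0 e2
        _ = 2 * L := by rw [Real.log_mul hn0.ne' hn0.ne', ← hL]; ring)
    rw [Finset.filter_filter] at k6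
    refine fp_deg hsp.pos (F := (Icc 1 ⌊3 * X⌋₊).filter
      (fun m => m ≡ 2 * s - 1 [MOD 2 * s] ∧ fw X m ≠ 0)) ?_ ?_
    · intro m hm
      rw [Finset.mem_filter, Finset.mem_Icc] at hm
      obtain ⟨⟨m1, m2⟩, m3, m5⟩ := hm
      refine ⟨fp_prime m5, ?_, m3⟩
      have e1 : (m : ℝ) ≤ 3 * X := (Nat.le_floor_iff (by positivity)).1 m2
      have e2 : 2 * m ≤ n * S := by
        have : (2 * m : ℝ) ≤ n * S := by rw [hX] at e1; linarith
        exact_mod_cast this
      have hn2 : 17 ≤ n := by exact_mod_cast hn17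
      have e3 : n * (S + 1) ≤ n * s := Nat.mul_le_mul_left n hSs
      have e4 : n * (S + 1) = n * S + n := by ring
      omega
    · rw [hD]
      apply Nat.ceil_le.2
      rw [div_le_iff₀ (by positivity)]
      rw [hE] at k6
      have k7 := mul_le_mul_of_nonneg_left k6 (by norm_num : (0 : ℝ) ≤ 216)
      calc cM * n = 216 * (cM * n / 216) := by ring
        _ ≤ _ := k7
        _ = _ := by ring
  -- the number `d`
  have hcc : (n : ℝ) * (3 * (n / L ^ (D1 + 4))) ≤ D * Sg.card := by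
    have e1 : cM * n / (432 * L) * (cp * S / (2 * L)) ≤ D * Sg.card :=
      mul_le_mul hDr hSgc (by positivity) (Nat.cast_nonneg _)
    refine le_trans ?_ e1
    have e2 : cM * n / (432 * L) * (cp * (n / (2 * L ^ D1)) / (2 * L)) ≤
        cM * n / (432 * L) * (cp * S / (2 * L)) := by
      apply mul_le_mul_of_nonneg_left _ (by positivity)
      apply div_le_div_of_nonneg_right _ (by positivity)
      exact mul_le_mul_of_nonneg_left hS3 hcp.le
    refine le_trans ?_ e2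
    have e3 : 5184 ≤ cM * cp * L ^ 2 := by
      have h4 : M * (cM * cp) ≤ L * (cM * cp) := mul_le_mul_of_nonneg_right hML (by positivity)
      have h5 : L * (cM * cp) ≤ L * L * (cM * cp) := by
        apply mul_le_mul_of_nonneg_right _ (by positivity)
        nlinarith
      nlinarith
    have e4 : cM * n / (432 * L) * (cp * (n / (2 * L ^ D1)) / (2 * L)) =
        (cM * cp * L ^ 2) * (n * n / (1728 * L ^ (D1 + 4))) := by
      rw [pow_add]
      field_simp
      ring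
    rw [e4]
    calc (n : ℝ) * (3 * (n / L ^ (D1 + 4))) = 5184 * (n * n / (1728 * L ^ (D1 + 4))) := by
          field_simp
          ring
      _ ≤ _ := mul_le_mul_of_nonneg_right e3 (by positivity)
  have hnL : 1 ≤ (n : ℝ) / L ^ (D1 + 4) := by
    rw [le_div_iff₀ (by positivity), one_mul]
    nlinarith
  obtain ⟨d, hd⟩ : ∃ d : ℕ, d = D * Sg.card / n := ⟨_, rfl⟩
  have hd1 : D * Sg.card < n * (d + 1) := by
    rw [hd]
    exact Nat.lt_mul_div_succ _ hn1
  have hd2 : d * n ≤ D * Sg.card := by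
    rw [hd]
    exact Nat.div_mul_le_self _ _
  have hd3 : 3 * ((n : ℝ) / L ^ (D1 + 4)) < (d : ℝ) + 1 := by
    have e1 : (D * Sg.card : ℝ) < n * (d + 1) := by exact_mod_cast hd1
    have e2 : (n : ℝ) * (3 * (n / L ^ (D1 + 4))) < n * (d + 1) := lt_of_le_of_lt hcc e1
    exact lt_of_mul_lt_mul_left e2 hn0.le
  have hdpos : 1 ≤ d := by
    have : (1 : ℝ) ≤ d := by linarith
    exact_mod_cast this
  have h9S : (9 * S : ℝ) ≤ n / L ^ 20 := by
    rw [le_div_iff₀ (by positivity)]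
    have e1 : L ^ 20 * 17 ≤ L ^ D1 := by
      calc L ^ 20 * 17 ≤ L ^ 20 * L := mul_le_mul_of_nonneg_left hL17 (by positivity)
        _ = L ^ 21 := by ring
        _ ≤ L ^ D1 := pow_le_pow_right₀ hL1 (by omega)
    have e2 : (S : ℝ) * (L ^ 20 * 17) ≤ S * L ^ D1 := mul_le_mul_of_nonneg_left e1 hS0.le
    have e3 : 0 ≤ (S : ℝ) * L ^ 20 := by positivity
    nlinarith
  have h18S : 2 * (9 * S) ≤ n := by
    have e1 : (n : ℝ) / L ^ 20 ≤ n / 17 := by
      apply div_le_div_of_nonneg_left hn0.le (by norm_num)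
      calc (17 : ℝ) ≤ L := hL17
        _ = L ^ 1 := (pow_one L).symm
        _ ≤ L ^ 20 := pow_le_pow_right₀ hL1 (by norm_num)
    have e2 : (2 * (9 * S) : ℝ) ≤ n := by linarith
    exact_mod_cast e2
  have h2Sg : 2 * Sg.card ≤ n := by omega
  have h2d : 2 * d ≤ D := by
    have e1 : (2 * d) * n ≤ D * n := by
      calc (2 * d) * n = 2 * (d * n) := by ring
        _ ≤ 2 * (D * Sg.card) := Nat.mul_le_mul_left _ hd2
        _ = D * (2 * Sg.card) := by ring
        _ ≤ D * n := Nat.mul_le_mul_left _ h2Sg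
    exact Nat.le_of_mul_le_mul_right e1 hn1
  have hSgne : Sg.Nonempty := by
    rw [← Finset.card_pos]
    rcases Nat.eq_zero_or_pos Sg.card with h0 | h0
    · rw [h0] at hd2
      have : 0 < d * n := Nat.mul_pos hdpos hn1
      omega
    · exact h0
  have hBcard : 2 * d * (Icc 1 ((n - 1) / 2)).card ≤ D * Sg.card := by
    rw [Nat.card_Icc, Nat.add_sub_cancel]
    calc 2 * d * ((n - 1) / 2) = d * (2 * ((n - 1) / 2)) := by ring
      _ ≤ d * n := Nat.mul_le_mul_left _ (by omega)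
      _ ≤ _ := hd2
  obtain ⟨s, b, p1, p2, p3, p4⟩ := hg Sg (Icc 1 ((n - 1) / 2))
    (fun s b => (s * (2 * b) - 1).Prime) d D hSgne hdpos h2d hBcard hdeg
  refine ⟨d - 1, s, b, ?_, ?_, ?_, p3, p4⟩
  · rw [Nat.cast_sub hdpos]
    push_cast
    linarith
  · intro j hj
    obtain ⟨r1, r2, r3⟩ := hSgm (s j) (p1 j hj)
    refine ⟨r1, by omega, ?_, ?_⟩
    · have e1 : T < s j := lt_of_le_of_lt hST (by exact_mod_cast r2)
      have e4 : (n : ℝ) < (s j : ℝ) ^ 2 := by
        rw [← hTT, ← sq]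
        exact pow_lt_pow_left₀ e1 (by linarith) (by norm_num)
      have e5 : n < s j ^ 2 := by exact_mod_cast e4
      exact lt_of_lt_of_le e5 (Nat.pow_le_pow_right r1.pos (by norm_num))
    · have e1 : (s j : ℝ) ≤ (9 * S : ℝ) := by exact_mod_cast r3
      exact e1.trans h9S
  · intro j hj
    obtain ⟨r1, r2, r3⟩ := p2 j hj
    have r4 := Finset.mem_Icc.1 r1
    exact ⟨r4.1, by omega, r2, r3⟩

end Pool.Agent.APC
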