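import Pool.Agent.Lib.MP_e0f8f3_nt.Defs

set_option autoImplicit false

/-!
The crude lower bound for the sieve product.
-/

namespace Pool.Agent.APC

open Finset
open Pool.Agent.BVall
open Pool.Agent.Lib.MP_0da313_nt

private lemma low_qq_ge (p : ℕ) : p ≤ qq p := by
  unfold qq
  split_ifs with h
  · exact Nat.le_self_pow (by norm_num) p
  · exact le_rfl

private lemma low_nat {p : ℕ} (hp : 2 ≤ p) : 4 * p + qq p ≤ qq p * p := by
  unfold qq
  split_ifs with h
  · have e1 : p ^ 20 = p ^ 17 * (p * p * p) := by ring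
    have e2 : 2 * 2 ≤ p * p := Nat.mul_le_mul hp hp
    have e3 : 1 ≤ p ^ 17 := Nat.one_le_pow _ _ (by omega)
    have e4 : 4 * p ≤ p ^ 20 := by
      rw [e1]
      calc 4 * p = 1 * (2 * 2 * p) := by ring
        _ ≤ p ^ 17 * (p * p * p) := Nat.mul_le_mul e3 (Nat.mul_le_mul_right p e2)
    have e5 : p ^ 20 * 2 ≤ p ^ 20 * p := Nat.mul_le_mul_left _ hp
    omega
  · nlinarith

private lemma low_frac {p c : ℕ} (hp : p.Prime) (hc : c ≤ 4) :
    (c : ℝ) / (qq p : ℝ) ≤ 1 - 1 / (p : ℝ) := by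
  have hp0 : (0 : ℝ) < p := by exact_mod_cast hp.pos
  have hc' : (c : ℝ) ≤ 4 := by exact_mod_cast hc
  have hN : (4 : ℝ) * p + qq p ≤ qq p * p := by exact_mod_cast low_nat hp.two_le
  have hq0 : (0 : ℝ) < qq p := by exact_mod_cast lt_of_lt_of_le hp.pos (low_qq_ge p)
  rw [div_le_iff₀ hq0]
  have h1 : (1 - 1 / (p : ℝ)) * qq p = (qq p * p - qq p) / p := by
    field_simp
  rw [h1, le_div_iff₀ hp0]
  nlinarith

private lemma low_frac' {p c : ℕ} (hp : p.Prime) (hc : c ≤ 4) :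
    (c : ℝ) / (qq p : ℝ) ≤ ((4 : ℕ) : ℝ) / (p : ℝ) := by
  have hp0 : (0 : ℝ) < p := by exact_mod_cast hp.pos
  have hc' : (c : ℝ) ≤ ((4 : ℕ) : ℝ) := by exact_mod_cast hc
  have hq : (p : ℝ) ≤ qq p := by exact_mod_cast low_qq_ge p
  exact div_le_div₀ (by positivity) hc' hp0 hq

theorem p_low : S_low := by
  refine ⟨∏ p ∈ small 4, p, fun n A hA => ?_⟩
  set D : ℕ := ∏ p ∈ small 4, p with hD
  have hDpos : 0 < D := Finset.prod_pos fun p hp => (Finset.mem_filter.mp hp).2.pos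
  set ρ : ℕ → ℝ := fun p => if p.Prime then ((A p).card : ℝ) / (qq p : ℝ) else 0 with hρ
  have hd : Dens 4 ρ := by
    refine ⟨?_, ?_, ?_⟩
    · intro p
      simp only [hρ]
      split_ifs
      · exact div_nonneg (Nat.cast_nonneg _) (Nat.cast_nonneg _)
      · exact le_rfl
    · intro p hp
      simp only [hρ, if_pos hp]
      exact low_frac hp (hA p hp).2
    · intro p hp
      simp only [hρ, if_pos hp]
      exact low_frac' hp (hA p hp).2
  have hW := hd.W_PK n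
  have hWe : W ρ (PK 4 n) = ∏ p ∈ PK 4 n, (1 - ((A p).card : ℝ) / (qq p : ℝ)) := by
    unfold W
    refine Finset.prod_congr rfl fun p hp => ?_
    simp only [hρ, if_pos (mem_PK.1 hp).1]
  rw [hWe] at hW
  set P : ℝ := ∏ p ∈ PK 4 n, (1 - ((A p).card : ℝ) / (qq p : ℝ)) with hP
  have hDe : ∏ p ∈ small 4, (1 / (p : ℝ)) = 1 / (D : ℝ) := by
    rw [hD, Nat.cast_prod, Finset.prod_div_distrib, Finset.prod_const_one]
  rw [hDe] at hW
  set X : ℝ := (2 : ℝ) ^ 2 ^ (4 + n) with hX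
  have hX2 : (2 : ℝ) ^ (16 * n) ≤ X := by
    rw [hX]
    apply pow_le_pow_right₀ (by norm_num)
    have h1 : n < 2 ^ n := Nat.lt_two_pow_self
    have h2 : 2 ^ (4 + n) = 16 * 2 ^ n := by rw [pow_add]; norm_num
    omega
  have hD0 : (0 : ℝ) < D := by exact_mod_cast hDpos
  have h16 : (4 * 4 * n) = 16 * n := by ring
  rw [h16, one_div_pow] at hW
  have h2n : (0 : ℝ) < (2 : ℝ) ^ (16 * n) := by positivity
  calc (1 : ℝ) = (D : ℝ) * (2 : ℝ) ^ (16 * n) * (1 / (D : ℝ) * (1 / 2 ^ (16 * n))) := by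
        field_simp
    _ ≤ (D : ℝ) * X * P := by
        apply mul_le_mul _ hW (by positivity) (by positivity)
        exact mul_le_mul_of_nonneg_left hX2 hD0.le

end Pool.Agent.APC
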