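import Pool.Agent.Lib.MP_e0f8f3_nt.Defs

set_option autoImplicit false

/-!
Comparison of the sieve product for two conditions with the product of the sieve products.
-/

namespace Pool.Agent.APC

open Finset
open Pool.Agent.BVall

private lemma rat_qq {p : ℕ} (hp : p.Prime) : 65536 < qq p := by
  unfold qq
  split_ifs with h
  · calc 65536 < 2 ^ 20 := by norm_num
      _ ≤ p ^ 20 := Nat.pow_le_pow_left hp.two_le _
  · omega

private lemma rat_real (a b u q d : ℝ) (hq : 65536 < q) (ha0 : 0 ≤ a) (hb0 : 0 ≤ b) (ha : a ≤ 2)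
    (hb : b ≤ 2) (h : (d = 0 ∧ u = a + b) ∨ (d = 1 ∧ a ≤ u)) :
    1 - u / q ≤ (1 - a / q) * (1 - b / q) * (1 + 3 / q * d) := by
  have hq0 : 0 < q := by linarith
  rcases h with ⟨h1, h2⟩ | ⟨h1, h2⟩
  · rw [h1, h2]
    have : 0 ≤ a / q * (b / q) := by positivity
    have e : (a + b) / q = a / q + b / q := by ring
    rw [e]
    nlinarith
  · rw [h1]
    have e1 : a / q ≤ u / q := div_le_div_of_nonneg_right h2 hq0.le
    have e2 : b / q ≤ 2 / q := div_le_div_of_nonneg_right hb hq0.le
    have e3 : a / q ≤ 2 / q := div_le_div_of_nonneg_right ha hq0.le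
    have e4 : 1 / q ≤ 1 / 65536 := one_div_le_one_div_of_le (by norm_num) hq.le
    have e5 : (2 : ℝ) / q = 2 * (1 / q) := by ring
    have e6 : (3 : ℝ) / q = 3 * (1 / q) := by ring
    have e7 : 0 < 1 / q := by positivity
    have e8 : 0 ≤ 1 - a / q := by rw [e5] at e3; linarith
    have e9 : 1 ≤ (1 - b / q) * (1 + 3 / q * 1) := by
      rw [e6, mul_one]
      rw [e5] at e2
      set t := 1 / q with ht
      have f1 : (1 - 2 * t) * (1 + 3 * t) ≤ (1 - b / q) * (1 + 3 * t) :=
        mul_le_mul_of_nonneg_right (by linarith) (by linarith)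
      have f2 : 1 ≤ (1 - 2 * t) * (1 + 3 * t) := by nlinarith
      linarith
    calc 1 - u / q ≤ (1 - a / q) * 1 := by linarith
      _ ≤ (1 - a / q) * ((1 - b / q) * (1 + 3 / q * 1)) := mul_le_mul_of_nonneg_left e9 e8
      _ = _ := by ring

theorem p_rat : S_rat := by
  intro n A B hA hB
  rw [← prod_mul_distrib, ← prod_mul_distrib]
  apply prod_le_prod
  · intro p hp
    have hpp := (mem_PK.1 hp).1
    have h1 := card_union_le (A p) (B p)
    have h2 := (hA p hpp).2
    have h3 := (hB p hpp).2
    have h4 := rat_qq hpp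
    have h5 : ((A p ∪ B p).card : ℝ) ≤ (qq p : ℝ) := by exact_mod_cast (by omega)
    have h6 : (0 : ℝ) < qq p := by exact_mod_cast (by omega)
    rw [sub_nonneg, div_le_one h6]
    exact h5
  · intro p hp
    have hpp := (mem_PK.1 hp).1
    have h2 := (hA p hpp).2
    have h3 := (hB p hpp).2
    have h4 := rat_qq hpp
    apply rat_real _ _ _ _ _ (by exact_mod_cast h4) (Nat.cast_nonneg _) (Nat.cast_nonneg _)
      (by exact_mod_cast h2) (by exact_mod_cast h3)
    by_cases hd : Disjoint (A p) (B p)
    · left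
      refine ⟨if_pos hd, ?_⟩
      rw [card_union_of_disjoint hd]
      push_cast
      rfl
    · right
      refine ⟨if_neg hd, ?_⟩
      exact_mod_cast card_le_card subset_union_left

end Pool.Agent.APC
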