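import Mathlib
import Pool.Agent.Lib.MP_e0f8f3_nt.Defs

set_option autoImplicit false

namespace Pool.Agent.APC

open Finset
open Pool.Agent.BVall

private lemma siv_qq_ge {p : ℕ} (hp : p.Prime) : p ≤ qq p := by
  unfold qq
  split_ifs
  · calc p = p ^ 1 := (pow_one p).symm
      _ ≤ p ^ 20 := Nat.pow_le_pow_right hp.pos (by norm_num)
  · exact le_rfl

private lemma siv_qq_ge8 {p : ℕ} (hp : p.Prime) : 8 ≤ qq p := by
  unfold qq
  split_ifs
  · calc 8 ≤ 2 ^ 20 := by norm_num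
      _ ≤ p ^ 20 := Nat.pow_le_pow_left hp.two_le 20
  · omega

private lemma siv_qq_coprime {p q : ℕ} (hp : p.Prime) (hq : q.Prime) (h : p ≠ q) :
    (qq p).Coprime (qq q) := by
  have h1 : p.Coprime q := (Nat.coprime_primes hp hq).2 h
  unfold qq
  split_ifs
  · exact Nat.Coprime.pow _ _ h1
  · exact Nat.Coprime.pow_left _ h1
  · exact Nat.Coprime.pow_right _ h1
  · exact h1

private lemma siv_dens {A : ℕ → Finset ℕ}
    (hA : ∀ p, p.Prime → A p ⊆ range (qq p) ∧ (A p).card ≤ 4) :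
    Dens 4 (fun p => if p.Prime then ((A p).card : ℝ) / (qq p : ℝ) else 0) := by
  constructor
  · intro p

    split_ifs
    · positivity
    · exact le_rfl
  · intro p hp

    rw [if_pos hp]
    have h8 : (8 : ℝ) ≤ (qq p : ℝ) := by exact_mod_cast siv_qq_ge8 hp
    have h4 : ((A p).card : ℝ) ≤ 4 := by exact_mod_cast (hA p hp).2
    have h1 : ((A p).card : ℝ) / (qq p : ℝ) ≤ 1 / 2 := by
      rw [div_le_iff₀ (by linarith)]
      linarith
    have h2 : (1 : ℝ) / p ≤ 1 / 2 := by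
      apply one_div_le_one_div_of_le (by norm_num)
      exact_mod_cast hp.two_le
    linarith
  · intro p hp

    rw [if_pos hp]
    have h4 : ((A p).card : ℝ) ≤ 4 := by exact_mod_cast (hA p hp).2
    have hp0 : (0 : ℝ) < p := by exact_mod_cast hp.pos
    have hq : (p : ℝ) ≤ (qq p : ℝ) := by exact_mod_cast siv_qq_ge hp
    calc ((A p).card : ℝ) / (qq p : ℝ) ≤ 4 / (p : ℝ) :=
          div_le_div₀ (by norm_num) h4 hp0 hq
      _ = ((4 : ℕ) : ℝ) / (p : ℝ) := by norm_num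

private lemma siv_prod (n : ℕ) : ∏ p ∈ PK 4 n, (1 + (4 : ℝ) / (p : ℝ)) ≤
    ((2 : ℝ) ^ 2 ^ (4 + n) + 1) ^ 4 := by
  have hX : ∀ X : ℕ, ∏ k ∈ Ico 1 (X + 1), (1 + 1 / (k : ℝ)) = (X : ℝ) + 1 := by
    intro X
    induction X with
    | zero => simp
    | succ X ih =>
      rw [Finset.prod_Ico_succ_top (by omega), ih]
      push_cast
      have : ((X : ℝ) + 1) ≠ 0 := by positivity
      field_simp
  calc ∏ p ∈ PK 4 n, (1 + (4 : ℝ) / (p : ℝ))
      ≤ ∏ p ∈ PK 4 n, (1 + 1 / (p : ℝ)) ^ 4 := by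
        apply Finset.prod_le_prod
        · intro p _
          positivity
        · intro p hp
          have h3 : 1 + ((4 : ℕ) : ℝ) * (1 / (p : ℝ)) ≤ (1 + 1 / (p : ℝ)) ^ 4 :=
            one_add_mul_le_pow (by
              have : (0 : ℝ) ≤ 1 / (p : ℝ) := by positivity
              linarith) 4
          have h4 : 1 + ((4 : ℕ) : ℝ) * (1 / (p : ℝ)) = 1 + 4 / (p : ℝ) := by
            push_cast
            ring
          linarith
    _ = (∏ p ∈ PK 4 n, (1 + 1 / (p : ℝ))) ^ 4 := by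
        rw [Finset.prod_pow]
    _ ≤ (∏ k ∈ (Ico 1 (2 ^ 2 ^ (4 + n) + 1) : Finset ℕ), (1 + 1 / (k : ℝ))) ^ 4 := by
        apply pow_le_pow_left₀
        · apply Finset.prod_nonneg
          intro p _
          positivity
        · apply Finset.prod_le_prod_of_subset_of_one_le
          · intro p hp
            rw [mem_PK] at hp
            rw [Finset.mem_Ico]
            have := hp.1.pos
            omega
          · intro p _
            positivity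
          · intro k _ _
            have : (0 : ℝ) ≤ 1 / (k : ℝ) := by positivity
            linarith
    _ = ((2 : ℝ) ^ 2 ^ (4 + n) + 1) ^ 4 := by
        rw [hX]
        push_cast
        ring

private lemma siv_err {P : Finset ℕ} (hP : ∀ p ∈ P, p.Prime) (L : ℕ) (c : ℕ → ℕ)
    (hc : ∀ p ∈ P, c p ≤ 4) :
    ∑ T ∈ P.powerset.filter (fun T => ∏ p ∈ T, p ≤ L), ∏ p ∈ T, ((c p : ℕ) : ℝ) ≤
      (L : ℝ) * ∏ p ∈ P, (1 + (4 : ℝ) / (p : ℝ)) := by
  have h1 : ∀ T ∈ P.powerset.filter (fun T => ∏ p ∈ T, p ≤ L),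
      ∏ p ∈ T, ((c p : ℕ) : ℝ) ≤ (L : ℝ) * ∏ p ∈ T, (4 : ℝ) / (p : ℝ) := by
    intro T hT
    rw [Finset.mem_filter, Finset.mem_powerset] at hT
    have hpos : ∀ p ∈ T, (0 : ℝ) < p := fun p hp => by exact_mod_cast (hP p (hT.1 hp)).pos
    have h2 : ∏ p ∈ T, ((c p : ℕ) : ℝ) ≤ ∏ p ∈ T, ((p : ℝ) * (4 / (p : ℝ))) := by
      apply Finset.prod_le_prod
      · intro p _
        exact Nat.cast_nonneg _
      · intro p hp
        rw [mul_div_cancel₀ _ (hpos p hp).ne']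
        exact_mod_cast hc p (hT.1 hp)
    have h3 : ((∏ p ∈ T, p : ℕ) : ℝ) ≤ (L : ℝ) := by exact_mod_cast hT.2
    rw [Finset.prod_mul_distrib] at h2
    refine h2.trans (mul_le_mul_of_nonneg_right ?_ (Finset.prod_nonneg fun p hp => by positivity))
    push_cast at h3
    exact h3
  calc ∑ T ∈ P.powerset.filter (fun T => ∏ p ∈ T, p ≤ L), ∏ p ∈ T, ((c p : ℕ) : ℝ)
      ≤ ∑ T ∈ P.powerset.filter (fun T => ∏ p ∈ T, p ≤ L), (L : ℝ) * ∏ p ∈ T, (4 : ℝ) / (p : ℝ) :=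
        Finset.sum_le_sum h1
    _ ≤ ∑ T ∈ P.powerset, (L : ℝ) * ∏ p ∈ T, (4 : ℝ) / (p : ℝ) := by
        apply Finset.sum_le_sum_of_subset_of_nonneg (Finset.filter_subset _ _)
        intro T _ _
        exact mul_nonneg (Nat.cast_nonneg _) (Finset.prod_nonneg fun p _ => by positivity)
    _ = (L : ℝ) * ∏ p ∈ P, (1 + (4 : ℝ) / (p : ℝ)) := by
        rw [← Finset.mul_sum, Finset.prod_one_add]

private lemma siv_const (C0 : ℕ) (n : ℕ) :
    ((C0 * (2 ^ 2 ^ (4 + n)) ^ 82 : ℕ) : ℝ) * ∏ p ∈ PK 4 n, (1 + (4 : ℝ) / (p : ℝ)) ≤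
      ((16 * C0 : ℕ) : ℝ) * ((2 : ℝ) ^ 2 ^ (4 + n)) ^ 86 := by
  have h1 := siv_prod n
  have hX : (1 : ℝ) ≤ (2 : ℝ) ^ 2 ^ (4 + n) := one_le_pow₀ (by norm_num)
  have h2 : ((2 : ℝ) ^ 2 ^ (4 + n) + 1) ^ 4 ≤ 16 * ((2 : ℝ) ^ 2 ^ (4 + n)) ^ 4 := by
    calc ((2 : ℝ) ^ 2 ^ (4 + n) + 1) ^ 4 ≤ (2 * (2 : ℝ) ^ 2 ^ (4 + n)) ^ 4 := by
          apply pow_le_pow_left₀ (by positivity)
          linarith
      _ = 16 * ((2 : ℝ) ^ 2 ^ (4 + n)) ^ 4 := by
          rw [mul_pow]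
          norm_num
  push_cast
  set X : ℝ := (2 : ℝ) ^ 2 ^ (4 + n) with hXdef
  calc (C0 : ℝ) * X ^ 82 * ∏ p ∈ PK 4 n, (1 + (4 : ℝ) / (p : ℝ))
      ≤ (C0 : ℝ) * X ^ 82 * (16 * X ^ 4) :=
        mul_le_mul_of_nonneg_left (h1.trans h2) (by positivity)
    _ = 16 * (C0 : ℝ) * X ^ 86 := by ring

theorem p_siv (h1 : S_crt) (h2 : S_fl) : S_siv := by
  obtain ⟨C0, hC0⟩ := h2
  refine ⟨16 * C0, ?_⟩
  intro n N a A hA
  obtain ⟨Fp, Fm, hFp, hFm, hpt, hd⟩ := hC0 n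
  set X : ℕ := 2 ^ 2 ^ (4 + n) with hXdef
  have hX1 : 1 ≤ X := Nat.one_le_two_pow
  set L : ℕ := C0 * X ^ 82 with hL
  have hprime : ∀ p ∈ PK 4 n, p.Prime := fun p hp => (mem_PK.1 hp).1
  set g : ℕ → ℝ := fun p => if p.Prime then ((A p).card : ℝ) / (qq p : ℝ) else 0 with hg
  have hdens : Dens 4 g := siv_dens hA
  have hprod : ∏ p ∈ PK 4 n, (1 - g p) = ∏ p ∈ PK 4 n, (1 - ((A p).card : ℝ) / (qq p : ℝ)) := by
    apply Finset.prod_congr rfl
    intro p hp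
    rw [hg]
    beta_reduce
    rw [if_pos (hprime p hp)]
  -- the indicator
  set ind : ℕ → ℕ → ℝ := fun y p => if y % qq p ∈ A p then (1 : ℝ) else 0 with hind
  have hcount : ∀ T ⊆ PK 4 n, ∏ p ∈ T, p ≤ L →
      |∑ y ∈ Ico a (a + N), (fun _ : ℕ => (1 : ℝ)) y * ∏ p ∈ T, ind y p - (N : ℝ) * ∏ p ∈ T, g p| ≤
        (fun T : Finset ℕ => ∏ p ∈ T, ((A p).card : ℝ)) T := by
    intro T hT _
    beta_reduce
    have e1 : ∑ y ∈ Ico a (a + N), (1 : ℝ) * ∏ p ∈ T, ind y p =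
        (((Ico a (a + N)).filter (fun y => ∀ p ∈ T, y % qq p ∈ A p)).card : ℝ) := by
      rw [Finset.card_filter, Nat.cast_sum]
      apply Finset.sum_congr rfl
      intro y _
      rw [one_mul, hind]
      beta_reduce
      rw [Finset.prod_ite_zero]
      simp only [Finset.prod_const_one, Nat.cast_ite, Nat.cast_one, Nat.cast_zero]
    have e2 : ∏ p ∈ T, g p = ∏ p ∈ T, ((A p).card : ℝ) / (qq p : ℝ) := by
      apply Finset.prod_congr rfl
      intro p hp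
      rw [hg]
      beta_reduce
      rw [if_pos (hprime p (hT hp))]
    rw [e1, e2]
    exact h1 T qq A a N (fun p hp => lt_of_lt_of_le (by norm_num) (siv_qq_ge8 (hprime p (hT hp))))
      (fun p hp p' hp' hne => siv_qq_coprime (hprime p (hT hp)) (hprime p' (hT hp')) hne)
      (fun p hp => (hA p (hprime p (hT hp))).1)
  have hE : ∑ T ∈ (PK 4 n).powerset.filter (fun T => ∏ p ∈ T, p ≤ L),
      (fun T : Finset ℕ => ∏ p ∈ T, ((A p).card : ℝ)) T ≤
      ((16 * C0 : ℕ) : ℝ) * ((2 : ℝ) ^ 2 ^ (4 + n)) ^ 86 := by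
    have h3 := siv_err hprime L (fun p => (A p).card) (fun p hp => (hA p (hprime p hp)).2)
    exact h3.trans (siv_const C0 n)
  have hcard : (((Ico a (a + N)).filter (fun y => ∀ p ∈ PK 4 n, y % qq p ∉ A p)).card : ℝ) =
      ∑ y ∈ Ico a (a + N), ∏ p ∈ PK 4 n, (1 - ind y p) := by
    rw [Finset.card_filter, Nat.cast_sum]
    apply Finset.sum_congr rfl
    intro y _
    have e3 : ∀ p ∈ PK 4 n, (1 - ind y p) = if y % qq p ∉ A p then (1 : ℝ) else 0 := by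
      intro p _
      rw [hind]
      beta_reduce
      by_cases h : y % qq p ∈ A p
      · simp [h]
      · simp [h]
    rw [Finset.prod_congr rfl e3, Finset.prod_ite_zero]
    simp only [Finset.prod_const_one, Nat.cast_ite, Nat.cast_one, Nat.cast_zero]
  have hind01 : ∀ y, ∀ p ∈ PK 4 n, 0 ≤ ind y p ∧ ind y p ≤ 1 := by
    intro y p _
    rw [hind]
    beta_reduce
    split_ifs <;> norm_num
  have hN : (0 : ℝ) ≤ (N : ℝ) := Nat.cast_nonneg N
  obtain ⟨hup, hlo⟩ := hd g hdens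
  rw [hprod] at hup hlo
  constructor
  · have k1 := hFm.sum_estimate (Ico a (a + N)) (fun _ => (1 : ℝ)) ind (N : ℝ) g
      (fun T => ∏ p ∈ T, ((A p).card : ℝ)) hcount
    have k2 := (abs_le.1 (k1.trans hE)).1
    have k3 : ∑ y ∈ Ico a (a + N), (1 : ℝ) * Fm (ind y) ≤
        ∑ y ∈ Ico a (a + N), ∏ p ∈ PK 4 n, (1 - ind y p) := by
      apply Finset.sum_le_sum
      intro y _
      rw [one_mul]
      exact (hpt (ind y) (hind01 y)).1
    rw [hcard]
    have k4 := mul_le_mul_of_nonneg_left hlo hN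
    have k5 : (1 - 1 / 1000) * (N : ℝ) * ∏ p ∈ PK 4 n, (1 - ((A p).card : ℝ) / (qq p : ℝ)) =
        (N : ℝ) * ((1 - 1 / 1000) * ∏ p ∈ PK 4 n, (1 - ((A p).card : ℝ) / (qq p : ℝ))) := by ring
    rw [k5]
    linarith
  · have k1 := hFp.sum_estimate (Ico a (a + N)) (fun _ => (1 : ℝ)) ind (N : ℝ) g
      (fun T => ∏ p ∈ T, ((A p).card : ℝ)) hcount
    have k2 := (abs_le.1 (k1.trans hE)).2
    have k3 : ∑ y ∈ Ico a (a + N), ∏ p ∈ PK 4 n, (1 - ind y p) ≤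
        ∑ y ∈ Ico a (a + N), (1 : ℝ) * Fp (ind y) := by
      apply Finset.sum_le_sum
      intro y _
      rw [one_mul]
      exact (hpt (ind y) (hind01 y)).2
    rw [hcard]
    have k4 := mul_le_mul_of_nonneg_left hup hN
    have k5 : (1 + 1 / 1000) * (N : ℝ) * ∏ p ∈ PK 4 n, (1 - ((A p).card : ℝ) / (qq p : ℝ)) =
        (N : ℝ) * ((1 + 1 / 1000) * ∏ p ∈ PK 4 n, (1 - ((A p).card : ℝ) / (qq p : ℝ))) := by ring
    rw [k5]
    linarith

end Pool.Agent.APC
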