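import Pool.Agent.Lib.MP_e0f8f3_nt.DefsB

set_option autoImplicit false

/-!
Existence of the product of the odd primes up to a bound.
-/

namespace Pool.Agent.APC

open Finset

private lemma tP_sqf (s : Finset ℕ) (hs : ∀ p ∈ s, p.Prime) : Squarefree (∏ p ∈ s, p) := by
  classical
  induction s using Finset.induction_on with
  | empty => simp
  | insert p s hp ih =>
    rw [Finset.prod_insert hp]
    have h1 : p.Prime := hs p (Finset.mem_insert_self p s)
    have h2 : ∀ q ∈ s, q.Prime := fun q hq => hs q (Finset.mem_insert_of_mem hq)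
    have hc : Nat.Coprime p (∏ q ∈ s, q) :=
      Nat.Coprime.prod_right fun q hq => (Nat.coprime_primes h1 (h2 q hq)).2 (by
        rintro rfl
        exact hp hq)
    exact (Nat.squarefree_mul hc).2 ⟨h1.prime.squarefree, ih h2⟩

private lemma tP_gen (L : ℕ) (hL : 3 ≤ L) : ∃ P : ℕ, Odd P ∧ Squarefree P ∧ 3 ≤ P ∧
    (∀ p, p.Prime → p ∣ P → p ≤ L) ∧ ∀ p, p.Prime → p ≤ L → p ≠ 2 → p ∣ P := by
  have hmem : ∀ p, p ∈ (Finset.range (L + 1)).filter (fun p => p.Prime ∧ p ≠ 2) ↔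
      p ≤ L ∧ p.Prime ∧ p ≠ 2 := by
    intro p
    rw [Finset.mem_filter, Finset.mem_range, Nat.lt_succ_iff]
  refine ⟨∏ p ∈ (Finset.range (L + 1)).filter (fun p => p.Prime ∧ p ≠ 2), p, ?_, ?_, ?_, ?_, ?_⟩
  · refine Finset.prod_induction _ Odd (fun a b ha hb => ha.mul hb) odd_one fun p hp => ?_
    obtain ⟨_, h1, h2⟩ := (hmem p).1 hp
    exact h1.odd_of_ne_two h2
  · exact tP_sqf _ fun p hp => ((hmem p).1 hp).2.1
  · refine Nat.le_of_dvd (Finset.prod_pos fun p hp => ((hmem p).1 hp).2.1.pos) ?_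
    exact Finset.dvd_prod_of_mem (fun p => p) ((hmem 3).2 ⟨hL, Nat.prime_three, by norm_num⟩)
  · intro p hp hd
    obtain ⟨q, hq, hpq⟩ := hp.prime.exists_mem_finset_dvd hd
    obtain ⟨h0, h1, _⟩ := (hmem q).1 hq
    rw [(Nat.prime_dvd_prime_iff_eq hp h1).1 hpq]
    exact h0
  · intro p hp hpL hp2
    exact Finset.dvd_prod_of_mem (fun p => p) ((hmem p).2 ⟨hpL, hp, hp2⟩)

theorem q_P : T_P := by
  unfold T_P IsP
  exact tP_gen 65536 (by norm_num)

end Pool.Agent.APC
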