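import Pool.Agent.Lib.MP_e0f8f3_nt.DefsB

set_option autoImplicit false

/-!
The members of a residue class in `[1, m]`.
-/

namespace Pool.Agent.APC

open Finset
open Pool.Agent.BVall

theorem q_W : T_W := by
  intro P q m c hP hc hm1 hm2 hq
  rcases Nat.eq_zero_or_pos c with h0 | h0
  · subst h0
    refine ⟨1, m / P, ?_, ?_, ?_⟩
    · exact (Nat.le_div_iff_mul_le hP).2 hm1
    · have : m / P < q + 2 := by
        rw [Nat.div_lt_iff_lt_mul hP]
        nlinarith
      omega
    · intro w
      have e : w ≤ m / P ↔ w * P ≤ m := Nat.le_div_iff_mul_le hP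
      have e2 : 1 ≤ w ↔ 1 ≤ P * w := by
        constructor
        · intro h
          exact Nat.mul_pos hP h
        · intro h
          exact Nat.pos_of_ne_zero (fun h1 => by subst h1; simp at h)
      rw [zero_add, mul_comm P w] at *
      omega
  · have hcm : c ≤ m := by nlinarith
    refine ⟨0, (m - c) / P + 1, ?_, ?_, ?_⟩
    · have : q ≤ (m - c) / P + 1 := by
        have h1 : (q - 1) * P ≤ m - c := by
          obtain ⟨r, hr⟩ : ∃ r, q = r + 1 := ⟨q - 1, by omega⟩
          subst hr
          rw [Nat.add_sub_cancel]
          have : (r + 1) * P = r * P + P := by ring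
          omega
        have := (Nat.le_div_iff_mul_le hP).2 h1
        omega
      exact this
    · have : (m - c) / P < q + 1 := by
        rw [Nat.div_lt_iff_lt_mul hP]
        omega
      omega
    · intro w
      have e : w ≤ (m - c) / P ↔ w * P ≤ m - c := Nat.le_div_iff_mul_le hP
      rw [mul_comm P w]
      omega

end Pool.Agent.APC
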