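import Pool.Agent.Lib.MP_e0f8f3_nt.DefsB

set_option autoImplicit false

/-!
Consecutive odd numbers at a regular position.
-/

namespace Pool.Agent.APC

open Finset
open Pool.Agent.BVall

private lemma ta_ga (P q i t : ℕ) (hi : i < P) (ht : t < q) :
    i * q + t < q * P ∧ ga P q (i * q + t) = i + P * t := by
  have h1 : i * q + t < q * P := by
    calc i * q + t < i * q + q := by omega
      _ = (i + 1) * q := by ring
      _ ≤ P * q := Nat.mul_le_mul_right _ hi
      _ = q * P := by ring
  have h2 : (i * q + t) % q = t := by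
    rw [add_comm, Nat.add_mul_mod_self_right, Nat.mod_eq_of_lt ht]
  have h3 : (i * q + t) / q = i := by
    rw [add_comm, Nat.add_mul_div_right _ _ (by omega), Nat.div_eq_of_lt ht, zero_add]
  refine ⟨h1, ?_⟩
  unfold ga
  rw [if_pos h1, h2, h3]
  ring

theorem q_aa : T_aa := by
  intro P q H i t hP hi ht hH
  obtain ⟨a1, a2⟩ := ta_ga P q i t hi (by omega)
  obtain ⟨b1, b2⟩ := ta_ga P q i (t + 1) hi (by omega)
  rw [← add_assoc] at b1 b2
  unfold aa
  rw [if_pos (by omega), if_pos (by omega), a2, b2]
  refine ⟨rfl, by ring, by omega⟩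

end Pool.Agent.APC
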