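import Mathlib
import Pool.Agent.Lib.MP_e0f8f3_nt.DefsB

set_option autoImplicit false

/-! Circular arrangement, even case, strong form. -/

namespace Pool.Agent.APC

open Finset

private lemma tE_ga_lt {P q H j : ℕ} (hP : 0 < P) (hq : 1 ≤ q) (hH : q * P ≤ H) (hj : j < H) :
    ga P q j < H := by
  unfold ga
  split_ifs with h
  · have h1 : j % q < q := Nat.mod_lt _ hq
    have h2 : j / q < P := by
      rw [Nat.div_lt_iff_lt_mul hq]
      rwa [mul_comm] at h
    have h3 : (j % q + 1) * P ≤ q * P := Nat.mul_le_mul_right _ h1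
    have h4 : (j % q + 1) * P = j % q * P + P := by ring
    omega
  · exact hj

private lemma tE_ga_lt' {P q j : ℕ} (hq : 1 ≤ q) (h : j < q * P) :
    j % q * P + j / q < q * P := by
  have h1 : j % q < q := Nat.mod_lt _ hq
  have h2 : j / q < P := by
    rw [Nat.div_lt_iff_lt_mul hq]
    rwa [mul_comm] at h
  have h3 : (j % q + 1) * P ≤ q * P := Nat.mul_le_mul_right _ h1
  have h4 : (j % q + 1) * P = j % q * P + P := by ring
  omega

private lemma tE_ga_inj {P q i j : ℕ} (hP : 0 < P) (hq : 1 ≤ q) (h : ga P q i = ga P q j) :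
    i = j := by
  unfold ga at h
  split_ifs at h with h1 h2 h2
  · have hi : i / q < P := by
      rw [Nat.div_lt_iff_lt_mul hq]
      rwa [mul_comm] at h1
    have hj : j / q < P := by
      rw [Nat.div_lt_iff_lt_mul hq]
      rwa [mul_comm] at h2
    have e1 : i / q = j / q := by
      have e := congrArg (· % P) h
      simp only [Nat.mul_add_mod_self_right] at e
      rwa [Nat.mod_eq_of_lt hi, Nat.mod_eq_of_lt hj] at e
    have e2 : i % q = j % q := by
      rw [e1] at h
      have h3 : i % q * P = j % q * P := by omega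
      exact Nat.eq_of_mul_eq_mul_right hP h3
    rw [← Nat.div_add_mod i q, ← Nat.div_add_mod j q, e1, e2]
  · have := tE_ga_lt' hq h1
    omega
  · have := tE_ga_lt' hq h2
    omega
  · exact h

private lemma tE_aa_range {P q m j : ℕ} (hm : 2 ≤ m) (hP : 0 < P) (hq : 1 ≤ q)
    (hH : q * P ≤ m - 1) :
    1 ≤ aa P q (m - 1) j ∧ aa P q (m - 1) j ≤ 2 * m ∧ aa P q (m - 1) j % 2 = 1 := by
  unfold aa
  split_ifs with h
  · have := tE_ga_lt hP hq hH h
    omega
  · omega

private lemma tE_aa_inj {P q m i j : ℕ} (hP : 0 < P) (hq : 1 ≤ q) (hi : i < m) (hj : j < m)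
    (h : aa P q (m - 1) i = aa P q (m - 1) j) : i = j := by
  unfold aa at h
  split_ifs at h with h1 h2 h2
  · exact tE_ga_inj hP hq (by omega)
  · omega
  · omega
  · omega

private def tEpi (P q m : ℕ) (f : ℕ → ℕ) (i : ℕ) : ℕ :=
  if i % 2 = 0 then aa P q (m - 1) (i / 2) else 2 * f (i / 2)

private lemma tE_even {P q m : ℕ} (f : ℕ → ℕ) {i : ℕ} (h : i % 2 = 0) :
    tEpi P q m f i = aa P q (m - 1) (i / 2) := by
  unfold tEpi
  rw [if_pos h]

private lemma tE_odd {P q m : ℕ} (f : ℕ → ℕ) {i : ℕ} (h : i % 2 ≠ 0) :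
    tEpi P q m f i = 2 * f (i / 2) := by
  unfold tEpi
  rw [if_neg h]

theorem q_cirE : T_cirE := by
  intro m P q R f hm hP hq hH hf hinj
  have hlt : ∀ i < 2 * m, i / 2 < m := by
    intro i hi
    omega
  refine ⟨tEpi P q m f, ?_, ?_, ?_⟩
  · intro i hi
    by_cases h : i % 2 = 0
    · rw [tE_even f h]
      have := tE_aa_range (j := i / 2) hm hP hq hH
      exact ⟨this.1, this.2.1⟩
    · rw [tE_odd f h]
      have := hf _ (hlt i hi)
      omega
  · intro i hi j hj hij
    have r1 := tE_aa_range (j := i / 2) hm hP hq hH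
    have r2 := tE_aa_range (j := j / 2) hm hP hq hH
    by_cases h : i % 2 = 0 <;> by_cases h' : j % 2 = 0
    · rw [tE_even f h, tE_even f h'] at hij
      have := tE_aa_inj hP hq (hlt i hi) (hlt j hj) hij
      omega
    · rw [tE_even f h, tE_odd f h'] at hij
      omega
    · rw [tE_odd f h, tE_even f h'] at hij
      omega
    · rw [tE_odd f h, tE_odd f h'] at hij
      have h3 := hinj _ (hlt i hi) _ (hlt j hj) (by omega)
      omega
  · intro i hi
    obtain ⟨-, -, h2, h3⟩ := hf _ (hlt i hi)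
    by_cases h : i % 2 = 0
    · have e1 : (i + 1) % (2 * m) = i + 1 := Nat.mod_eq_of_lt (by omega)
      have e2 : (i + 1) % 2 ≠ 0 := by omega
      have e3 : (i + 1) / 2 = i / 2 := by omega
      rw [e1, tE_even f h, tE_odd f e2, e3]
      exact h2
    · by_cases hl : i / 2 + 1 = m
      · have e1 : (i + 1) % (2 * m) = 0 := by
          have h4 : i + 1 = 2 * m := by omega
          rw [h4, Nat.mod_self]
        have e2 : (i / 2 + 1) % m = 0 := by rw [hl, Nat.mod_self]
        rw [e2] at h3
        rw [e1, tE_odd f h, tE_even f (i := 0) rfl]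
        exact h3
      · have e1 : (i + 1) % (2 * m) = i + 1 := Nat.mod_eq_of_lt (by omega)
        have e2 : (i + 1) % 2 = 0 := by omega
        have e3 : (i + 1) / 2 = i / 2 + 1 := by omega
        have e4 : (i / 2 + 1) % m = i / 2 + 1 := Nat.mod_eq_of_lt (by have := hlt i hi; omega)
        rw [e4] at h3
        rw [e1, tE_odd f h, tE_even f e2, e3]
        exact h3

end Pool.Agent.APC
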