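import Mathlib
import Pool.Agent.Lib.MP_e0f8f3_nt.DefsB

set_option autoImplicit false

namespace Pool.Agent.APC

open Finset

private theorem tcls_pow {p T : ℕ} (hp : p.Prime) (hT : p - 1 ∣ T) (hT2 : 2 ≤ T) (x : ZMod p) :
    x ^ (T - 1) = x⁻¹ := by
  have := Fact.mk hp
  by_cases hx : x = 0
  · subst hx
    rw [inv_zero, zero_pow (by omega)]
  · have h1 : x ^ T = 1 := by
      obtain ⟨c, rfl⟩ := hT
      rw [pow_mul, ZMod.pow_card_sub_one_eq_one hx, one_pow]
    have h2 : x ^ (T - 1) * x = 1 := by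
      rw [← pow_succ, show T - 1 + 1 = T by omega, h1]
    exact eq_inv_of_mul_eq_one_left h2

private theorem tcls_key {P p T : ℕ} (hP : Odd P) (hp : p.Prime) (hpP : p ∣ P)
    (hT : p - 1 ∣ T) (hT2 : 2 ≤ T) (i : ℕ) :
    (2 : ZMod p) * (((((P - 1) * (3 + 2 * i) ^ (T - 1) * ((P + 1) / 2)) % P : ℕ)) : ZMod p) =
      -((3 + 2 * i : ℕ) : ZMod p)⁻¹ := by
  have := Fact.mk hp
  have hP0 : ((P : ℕ) : ZMod p) = 0 := (ZMod.natCast_eq_zero_iff P p).2 hpP
  have hP1 : 1 ≤ P := hP.pos
  have h1 : ((((P - 1) * (3 + 2 * i) ^ (T - 1) * ((P + 1) / 2)) % P : ℕ) : ZMod p) =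
      (((P - 1) * (3 + 2 * i) ^ (T - 1) * ((P + 1) / 2) : ℕ) : ZMod p) := by
    rw [ZMod.natCast_eq_natCast_iff]
    exact (Nat.mod_modEq _ P).of_dvd hpP
  have h2 : (2 : ZMod p) * (((P + 1) / 2 : ℕ) : ZMod p) = 1 := by
    obtain ⟨c, hc⟩ := hP
    have h3 : 2 * ((P + 1) / 2) = P + 1 := by omega
    have h4 := congrArg (fun n : ℕ => (n : ZMod p)) h3
    push_cast at h4
    rw [h4, hP0, zero_add]
  have h5 : ((P - 1 : ℕ) : ZMod p) = -1 := by
    rw [Nat.cast_sub hP1, hP0]
    simp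
  rw [h1, Nat.cast_mul, Nat.cast_mul, Nat.cast_pow, h5, tcls_pow hp hT hT2]
  calc (2 : ZMod p) * (-1 * ((3 + 2 * i : ℕ) : ZMod p)⁻¹ * (((P + 1) / 2 : ℕ) : ZMod p))
      = -((3 + 2 * i : ℕ) : ZMod p)⁻¹ * (2 * (((P + 1) / 2 : ℕ) : ZMod p)) := by ring
    _ = _ := by rw [h2, mul_one]

theorem q_cls : T_cls := by
  intro P hIsP
  obtain ⟨hodd, hsq, h3, -, -⟩ := hIsP
  have hT2 : 2 ≤ Nat.totient P := by
    have h := Nat.totient_even (n := P) (by omega)
    have h' : 0 < Nat.totient P := Nat.totient_pos.2 (by omega)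
    obtain ⟨c, hc⟩ := h
    omega
  have hdiv : ∀ p : ℕ, p.Prime → p ∣ P → p - 1 ∣ Nat.totient P := by
    intro p hp hpP
    rw [← Nat.totient_prime hp]
    exact Nat.totient_dvd_of_dvd hpP
  have hne2 : ∀ p : ℕ, p.Prime → p ∣ P → 3 ≤ p := by
    intro p hp hpP
    have h2 := hp.two_le
    rcases Nat.lt_or_ge 2 p with h | h
    · omega
    · have : p = 2 := by omega
      subst this
      exact absurd hodd (Nat.not_odd_iff_even.2 (even_iff_two_dvd.2 hpP))
  refine ⟨fun i => ((P - 1) * (3 + 2 * i) ^ (Nat.totient P - 1) * ((P + 1) / 2)) % P,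
    fun i _ => Nat.mod_lt _ (by omega), ?_, ?_, ?_⟩
  · intro i hi j hj hij
    have hmod : ∀ p : ℕ, p.Prime → p ∣ P → (i : ZMod p) = (j : ZMod p) := by
      intro p hp hpP
      have := Fact.mk hp
      have e1 := tcls_key hodd hp hpP (hdiv p hp hpP) hT2 i
      have e2 := tcls_key hodd hp hpP (hdiv p hp hpP) hT2 j
      simp only at hij
      rw [hij, e2] at e1
      have e3 : ((3 + 2 * i : ℕ) : ZMod p) = ((3 + 2 * j : ℕ) : ZMod p) :=
        (inv_injective (neg_injective e1)).symm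
      push_cast at e3
      have h2 : (2 : ZMod p) ≠ 0 := by
        intro h0
        have : ((2 : ℕ) : ZMod p) = 0 := by exact_mod_cast h0
        rw [ZMod.natCast_eq_zero_iff] at this
        have := Nat.le_of_dvd (by norm_num) this
        have := hne2 p hp hpP
        omega
      exact mul_left_cancel₀ h2 (add_left_cancel e3)
    have hmodP : (P : ℤ) ∣ (i : ℤ) - j := by
      rw [Int.natCast_dvd]
      have hsub := Nat.prod_primeFactors_of_squarefree hsq
      have hd : ∏ p ∈ P.primeFactors, p ∣ ((i : ℤ) - j).natAbs := by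
        refine Finset.prod_primes_dvd _ ?_ ?_
        · intro p hp
          exact (Nat.prime_of_mem_primeFactors hp).prime
        · intro p hp
          have h := hmod p (Nat.prime_of_mem_primeFactors hp) (Nat.dvd_of_mem_primeFactors hp)
          rw [← Int.natCast_dvd, ← ZMod.intCast_zmod_eq_zero_iff_dvd]
          push_cast
          rw [h, sub_self]
      rwa [hsub] at hd
    have habs : |(i : ℤ) - j| < P := by
      rw [abs_lt]
      constructor <;> omega
    have := Int.eq_zero_of_abs_lt_dvd hmodP habs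
    omega
  · intro i _ p hp hpP h1
    have := Fact.mk hp
    have h3p := hne2 p hp hpP
    have e1 := tcls_key hodd hp hpP (hdiv p hp hpP) hT2 i
    have e2 : (((3 + 2 * i) * (2 * (((P - 1) * (3 + 2 * i) ^ (Nat.totient P - 1) *
        ((P + 1) / 2)) % P)) : ℕ) : ZMod p) = ((1 : ℕ) : ZMod p) := by
      rw [ZMod.natCast_eq_natCast_iff]
      unfold Nat.ModEq
      rw [h1, Nat.mod_eq_of_lt (by omega)]
    rw [Nat.cast_mul, Nat.cast_mul, Nat.cast_ofNat, e1, Nat.cast_one] at e2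
    by_cases hx : ((3 + 2 * i : ℕ) : ZMod p) = 0
    · rw [hx] at e2
      simp at e2
    · rw [mul_neg, mul_inv_cancel₀ hx] at e2
      have h2 : ((2 : ℕ) : ZMod p) = 0 := by
        have : (1 : ZMod p) + 1 = 0 := by
          nth_rewrite 1 [← e2]
          ring
        rw [← this]
        push_cast
        norm_num
      rw [ZMod.natCast_eq_zero_iff] at h2
      have := Nat.le_of_dvd (by norm_num) h2
      omega
  · intro I hI hne hneq
    obtain ⟨i, hi⟩ := hne
    obtain ⟨j, hj, hjI⟩ : ∃ j ∈ range P, j ∉ I := by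
      by_contra hcon
      push Not at hcon
      exact hneq (Finset.Subset.antisymm hI hcon)
    obtain ⟨c, hc⟩ := hodd
    have hk : 3 + 2 * ((P - 3) / 2) = P := by omega
    by_cases hkI : (P - 3) / 2 ∈ I
    · refine ⟨(P - 3) / 2, hkI, j, Finset.mem_sdiff.2 ⟨hj, hjI⟩, ?_⟩
      intro p hp hpP
      rw [hk]
      have : p ∣ P * (2 * (((P - 1) * (3 + 2 * j) ^ (Nat.totient P - 1) *
        ((P + 1) / 2)) % P)) := hpP.mul_right _
      rw [Nat.mod_eq_zero_of_dvd this]
      exact zero_ne_one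
    · refine ⟨i, hi, (P - 3) / 2, Finset.mem_sdiff.2 ⟨Finset.mem_range.2 (by omega), hkI⟩, ?_⟩
      intro p hp hpP
      have h0 : ((P - 1) * (3 + 2 * ((P - 3) / 2)) ^ (Nat.totient P - 1) *
        ((P + 1) / 2)) % P = 0 := by
        rw [hk]
        refine Nat.mod_eq_zero_of_dvd ?_
        exact ((dvd_pow_self P (by omega)).mul_left _).mul_right _
      simp only [h0]
      simp
end Pool.Agent.APC
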