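import Mathlib
import Pool.Agent.Lib.MP_e0f8f3_nt.DefsB

set_option autoImplicit false

namespace Pool.Agent.APC

open Finset
open Pool.Agent.BVall

private lemma tdeg_qq {p : ℕ} (h : ¬ p ≤ 65536) : qq p = p := by
  unfold qq
  exact if_neg h

private lemma tdeg_mod (x c P p w : ℕ) :
    (x * (2 * (c + P * w))) % p = (x * (2 * (c + P * (w % p)))) % p := by
  have h1 : w % p ≡ w [MOD p] := Nat.mod_modEq w p
  have h2 : x * (2 * (c + P * (w % p))) ≡ x * (2 * (c + P * w)) [MOD p] :=
    Nat.ModEq.mul_left _ (Nat.ModEq.mul_left _ (Nat.ModEq.add_left _ (Nat.ModEq.mul_left _ h1)))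
  exact h2.symm

private lemma tdeg_dvd (x c P p w : ℕ) (hp : p ∣ P) :
    (x * (2 * (c + P * w))) % p = (x * (2 * c)) % p := by
  have h1 : P * w ≡ 0 [MOD p] := (Nat.modEq_zero_iff_dvd).2 (hp.mul_right w)
  have h2 : c + P * w ≡ c + 0 [MOD p] := Nat.ModEq.add_left _ h1
  have h3 : x * (2 * (c + P * w)) ≡ x * (2 * (c + 0)) [MOD p] :=
    Nat.ModEq.mul_left _ (Nat.ModEq.mul_left _ h2)
  exact h3

private lemma tdeg_inj {x c P p w w' : ℕ} (hp : p.Prime) (hcop : Nat.Coprime P p)
    (hw : w < p) (hw' : w' < p) (h : (x * (2 * (c + P * w))) % p = 1)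
    (h' : (x * (2 * (c + P * w'))) % p = 1) : w = w' := by
  have hp1 : 1 % p = 1 := Nat.mod_eq_of_lt hp.one_lt
  have e1 : x * (2 * (c + P * w)) ≡ 1 [MOD p] := by
    show (x * (2 * (c + P * w))) % p = 1 % p
    rw [h, hp1]
  have e0 : x * (2 * (c + P * w)) ≡ x * (2 * (c + P * w')) [MOD p] := by
    show (x * (2 * (c + P * w))) % p = (x * (2 * (c + P * w'))) % p
    rw [h, h']
  have hx : Nat.Coprime (x * 2) p := by
    have hnd : ¬ p ∣ x * 2 := by
      intro hd
      have hd2 : p ∣ x * (2 * (c + P * w)) := by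
        have : x * (2 * (c + P * w)) = x * 2 * (c + P * w) := by ring
        rw [this]
        exact hd.mul_right _
      have e2 := Nat.mod_eq_zero_of_dvd hd2
      rw [h] at e2
      exact one_ne_zero e2
    exact ((Nat.Prime.coprime_iff_not_dvd hp).2 hnd).symm
  have e3 : x * 2 * (c + P * w) ≡ x * 2 * (c + P * w') [MOD p] := by
    have a1 : x * (2 * (c + P * w)) = x * 2 * (c + P * w) := by ring
    have a2 : x * (2 * (c + P * w')) = x * 2 * (c + P * w') := by ring
    rw [← a1, ← a2]
    exact e0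
  have e4 : c + P * w ≡ c + P * w' [MOD p] :=
    Nat.ModEq.cancel_left_of_coprime hx.symm e3
  have e5 : P * w ≡ P * w' [MOD p] := Nat.ModEq.add_left_cancel' c e4
  have e6 : w ≡ w' [MOD p] := Nat.ModEq.cancel_left_of_coprime hcop.symm e5
  have e7 : w % p = w' % p := e6
  rwa [Nat.mod_eq_of_lt hw, Nat.mod_eq_of_lt hw'] at e7

private lemma tdeg_one {x c P p : ℕ} (hp : p.Prime) (hcop : Nat.Coprime P p) :
    {w | w < p ∧ (x * (2 * (c + P * w))) % p = 1}.ncard ≤ 1 := by
  have hfin : {w | w < p ∧ (x * (2 * (c + P * w))) % p = 1}.Finite :=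
    (Set.finite_lt_nat p).subset (fun w hw => hw.1)
  rw [Set.ncard_le_one hfin]
  intro a ha b hb
  exact tdeg_inj hp hcop ha.1 hb.1 ha.2 hb.2

theorem q_deg (h : T_dega) : T_deg := by
  intro P hP D
  obtain ⟨-, -, -, hPle, hPdvd⟩ := hP
  obtain ⟨C, hC⟩ := h D
  refine ⟨C, fun n N a x y c hN hc => ?_⟩
  have hcop : ∀ p, p.Prime → ¬ p ≤ 65536 → Nat.Coprime P p := by
    intro p hp hn
    have hnd : ¬ p ∣ P := fun hd => hn (hPle p hp hd)
    exact ((Nat.Prime.coprime_iff_not_dvd hp).2 hnd).symm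
  have key := hC n N a (fun p w => ¬ p ≤ 65536 ∧ ((x * (2 * (c + P * w))) % p = 1 ∨
    (y * (2 * (c + P * w))) % p = 1)) hN (by
      intro p w
      by_cases hle : p ≤ 65536
      · constructor
        · intro hh
          exact absurd hle hh.1
        · intro hh
          exact absurd hle hh.1
      · rw [tdeg_qq hle, tdeg_mod x c P p w, tdeg_mod y c P p w]) (by
      intro p hp
      by_cases hle : p ≤ 65536
      · have he : {w | w < qq p ∧ (¬ p ≤ 65536 ∧ ((x * (2 * (c + P * w))) % p = 1 ∨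
            (y * (2 * (c + P * w))) % p = 1))} = ∅ := by
          apply Set.eq_empty_of_forall_notMem
          intro w hw
          exact hw.2.1 hle
        rw [he, Set.ncard_empty]
        exact Nat.zero_le _
      · have hsub : {w | w < qq p ∧ (¬ p ≤ 65536 ∧ ((x * (2 * (c + P * w))) % p = 1 ∨
            (y * (2 * (c + P * w))) % p = 1))} ⊆
            {w | w < p ∧ (x * (2 * (c + P * w))) % p = 1} ∪
            {w | w < p ∧ (y * (2 * (c + P * w))) % p = 1} := by
          intro w hw
          have h1 : w < p := by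
            have := hw.1
            rwa [tdeg_qq hle] at this
          rcases hw.2.2 with h2 | h2
          · exact Or.inl ⟨h1, h2⟩
          · exact Or.inr ⟨h1, h2⟩
        have hfin : ({w | w < p ∧ (x * (2 * (c + P * w))) % p = 1} ∪
            {w | w < p ∧ (y * (2 * (c + P * w))) % p = 1}).Finite :=
          ((Set.finite_lt_nat p).subset (fun w hw => hw.1)).union
            ((Set.finite_lt_nat p).subset (fun w hw => hw.1))
        have h1 := Set.ncard_le_ncard hsub hfin
        have h2 := Set.ncard_union_le {w | w < p ∧ (x * (2 * (c + P * w))) % p = 1}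
          {w | w < p ∧ (y * (2 * (c + P * w))) % p = 1}
        have h3 := tdeg_one (x := x) (c := c) hp (hcop p hp hle)
        have h4 := tdeg_one (x := y) (c := c) hp (hcop p hp hle)
        exact h1.trans (h2.trans (Nat.add_le_add h3 h4)))
  have hfr : ∀ z w : ℕ, (∀ p, p.Prime → p ∣ P → (z * (2 * c)) % p ≠ 1) →
      (∀ p ∈ PK 4 n, ¬ p ≤ 65536 → (z * (2 * (c + P * w))) % p ≠ 1) →
      Fr n z (2 * (c + P * w)) := by
    intro z w hz hbig p hp
    have hpp : p.Prime := (mem_PK.1 hp).1
    by_cases hle : p ≤ 65536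
    · by_cases h2 : p = 2
      · subst h2
        have : z * (2 * (c + P * w)) = 2 * (z * (c + P * w)) := by ring
        rw [this, Nat.mul_mod_right]
        exact zero_ne_one
      · rw [tdeg_dvd z c P p w (hPdvd p hpp hle h2)]
        exact hz p hpp (hPdvd p hpp hle h2)
    · exact hbig p hp hle
  refine key.trans (Set.ncard_le_ncard ?_ ?_)
  · intro w hw
    refine ⟨hw.1, hfr x w (fun p hp hd => (hc p hp hd).1) ?_,
      hfr y w (fun p hp hd => (hc p hp hd).2) ?_⟩
    · intro p hp hle he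
      exact hw.2 p hp ⟨hle, Or.inl he⟩
    · intro p hp hle he
      exact hw.2 p hp ⟨hle, Or.inr he⟩
  · exact (Finset.finite_toSet (Ico a (a + N))).subset (fun w hw => hw.1)

end Pool.Agent.APC
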