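import Mathlib
import Pool.Agent.Lib.MP_e0f8f3_nt.DefsB

set_option autoImplicit false

namespace Pool.Agent.APC

open Finset

private theorem ncard_le_card_of_sub (A : Set ℕ) (K : Finset ℕ) (h : ∀ w ∈ A, w ∈ K) :
    A.ncard ≤ K.card := by
  have h1 : A ⊆ (K : Set ℕ) := fun w hw => by simpa using h w hw
  calc A.ncard ≤ (K : Set ℕ).ncard := Set.ncard_le_ncard h1 (Finset.finite_toSet K)
    _ = K.card := Set.ncard_coe_finset K

private theorem glob_core (P q m F : ℕ) (φ w0 N : ℕ → ℕ) (G : ℕ → ℕ → Prop)
    (hP : 0 < P) (hq : 1 ≤ q) (hqm : q * P ≤ m) (hm : m ≤ (q - 1) * P + F)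
    (hφ : ∀ i < P, φ i < P) (hφi : ∀ i < P, ∀ j < P, φ i = φ j → i = j)
    (hW : ∀ c < P, ∀ w, (w0 c ≤ w ∧ w < w0 c + N c) ↔ (1 ≤ c + P * w ∧ c + P * w ≤ m))
    (hN : ∀ c < P, q - 1 ≤ N c)
    (hdeg : ∀ x < m, F ≤ {v | v ∈ Icc 1 m ∧ G x v}.ncard)
    (hcl : ∀ i < P, ∀ S ⊆ range (q - 1), S.Nonempty →
      (∀ w ∈ Ico (w0 (φ i)) (w0 (φ i) + N (φ i)), ∃ t ∈ S, G (i * q + t) (φ i + P * w)) ∨
      S.card + F ≤ {w | w ∈ Ico (w0 (φ i)) (w0 (φ i) + N (φ i)) ∧
        ∃ t ∈ S, G (i * q + t) (φ i + P * w)}.ncard)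
    (hcon : ∀ I : Finset ℕ, I ⊆ range P → I.Nonempty → I ≠ range P → ∃ i ∈ I, ∃ j ∈ range P \ I,
      ∀ t < q - 1, F ≤ {w | w ∈ Ico (w0 (φ j)) (w0 (φ j) + N (φ j)) ∧
        G (i * q + t) (φ j + P * w)}.ncard)
    (S : Finset ℕ) (hS : S ⊆ range m) (T : Finset ℕ)
    (hT : ∀ v, v ∈ T ↔ v ∈ Icc 1 m ∧ ∃ x ∈ S, G x v) : S.card ≤ T.card := by
  classical
  rcases S.eq_empty_or_nonempty with rfl | ⟨x0, hx0⟩
  · simp
  obtain ⟨Si, hSi⟩ : ∃ Si : ℕ → Finset ℕ, ∀ i, Si i = (range (q - 1)).filter (fun t => i * q + t ∈ S) :=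
    ⟨_, fun _ => rfl⟩
  obtain ⟨K, hK⟩ : ∃ K : ℕ → Finset ℕ, ∀ i, K i =
      (Ico (w0 (φ i)) (w0 (φ i) + N (φ i))).filter (fun w => φ i + P * w ∈ T) := ⟨_, fun _ => rfl⟩
  have hSisub : ∀ i, Si i ⊆ range (q - 1) := by
    intro i
    rw [hSi]
    exact filter_subset _ _
  have hSimem : ∀ i t, t ∈ Si i → i * q + t ∈ S := by
    intro i t ht
    rw [hSi] at ht
    exact (mem_filter.1 ht).2
  have hmem : ∀ c < P, ∀ w ∈ Ico (w0 c) (w0 c + N c), c + P * w ∈ Icc 1 m := by
    intro c hc w hw
    rw [mem_Ico] at hw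
    rw [mem_Icc]
    exact (hW c hc w).1 hw
  -- fact 1
  have fact1 : ∑ i ∈ range P, (K i).card ≤ T.card := by
    rw [← Finset.card_sigma]
    apply Finset.card_le_card_of_injOn (fun z : (_ : ℕ) × ℕ => φ z.1 + P * z.2)
    · rintro ⟨i, w⟩ hz
      have hz' := Finset.mem_sigma.1 (Finset.mem_coe.1 hz)
      have h2 := hz'.2
      simp only [hK, mem_filter] at h2
      exact h2.2
    · rintro ⟨i, w⟩ hz ⟨j, w'⟩ hz' heq
      have h1 := (Finset.mem_sigma.1 (Finset.mem_coe.1 hz)).1
      have h2 := (Finset.mem_sigma.1 (Finset.mem_coe.1 hz')).1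
      simp only [mem_range] at h1 h2
      simp only at heq
      have e1 : φ i = φ j := by
        have := congrArg (fun z => z % P) heq
        simp only [Nat.add_mul_mod_self_left] at this
        rwa [Nat.mod_eq_of_lt (hφ i h1), Nat.mod_eq_of_lt (hφ j h2)] at this
      have e2 : i = j := hφi i h1 j h2 e1
      subst e2
      have e3 : P * w = P * w' := by omega
      have e4 : w = w' := Nat.eq_of_mul_eq_mul_left hP e3
      rw [e4]
  -- fact 2
  have fact2 : S.card ≤ ∑ i ∈ range P, (Si i).card + F := by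
    obtain ⟨R, hR⟩ : ∃ R : Finset ℕ, R = (range P ×ˢ range (q - 1)).image (fun z => z.1 * q + z.2) :=
      ⟨_, rfl⟩
    have hRcard : R.card = P * (q - 1) := by
      rw [hR, Finset.card_image_of_injOn, Finset.card_product, card_range, card_range]
      rintro ⟨i, t⟩ hz ⟨j, t'⟩ hz' heq
      have h1 := Finset.mem_product.1 (Finset.mem_coe.1 hz)
      have h2 := Finset.mem_product.1 (Finset.mem_coe.1 hz')
      simp only [mem_range] at h1 h2
      have heq' : i * q + t = j * q + t' := heq
      have hqpos : 0 < q := hq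
      have e1 : i = j := by
        have : (i * q + t) / q = (j * q + t') / q := congrArg (fun z => z / q) heq'
        rw [Nat.add_comm (i * q), Nat.add_comm (j * q), Nat.add_mul_div_right _ _ hqpos,
          Nat.add_mul_div_right _ _ hqpos, Nat.div_eq_of_lt (by omega), Nat.div_eq_of_lt (by omega)] at this
        omega
      subst e1
      have e2 : t = t' := by omega
      rw [e2]
    have hRsub : R ⊆ range m := by
      intro x hx
      rw [hR] at hx
      obtain ⟨⟨i, t⟩, hz, rfl⟩ := mem_image.1 hx
      have h1 := Finset.mem_product.1 hz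
      simp only [mem_range] at h1 ⊢
      have h3 : (i + 1) * q ≤ P * q := Nat.mul_le_mul_right q h1.1
      have h4 : (i + 1) * q = i * q + q := by ring
      have h5 : P * q = q * P := Nat.mul_comm _ _
      omega
    have hexc : (S \ R).card ≤ F := by
      calc (S \ R).card ≤ (range m \ R).card := card_le_card (sdiff_subset_sdiff hS (le_refl R))
        _ = m - P * (q - 1) := by rw [card_sdiff_of_subset hRsub, card_range, hRcard]
        _ ≤ F := by
          have : P * (q - 1) = (q - 1) * P := Nat.mul_comm _ _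
          omega
    have hreg : (S ∩ R).card ≤ ∑ i ∈ range P, (Si i).card := by
      rw [← Finset.card_sigma]
      have hsub : S ∩ R ⊆ ((range P).sigma Si).image (fun z : (_ : ℕ) × ℕ => z.1 * q + z.2) := by
        intro x hx
        have hx1 := (mem_inter.1 hx).1
        have hx2 := (mem_inter.1 hx).2
        rw [hR] at hx2
        obtain ⟨⟨i, t⟩, hz, rfl⟩ := mem_image.1 hx2
        have h1 := Finset.mem_product.1 hz
        refine mem_image.2 ⟨⟨i, t⟩, Finset.mem_sigma.2 ⟨h1.1, ?_⟩, rfl⟩
        simp only [hSi, mem_filter]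
        exact ⟨h1.2, hx1⟩
      exact (card_le_card hsub).trans card_image_le
    have : S.card = (S ∩ R).card + (S \ R).card := (card_inter_add_card_sdiff S R).symm
    omega
  -- images of hits are in K
  have hKmem : ∀ i < P, ∀ j < P, ∀ t ∈ Si i, ∀ w ∈ Ico (w0 (φ j)) (w0 (φ j) + N (φ j)),
      G (i * q + t) (φ j + P * w) → w ∈ K j := by
    intro i hi j hj t ht w hw hG
    rw [hK, mem_filter]
    refine ⟨hw, (hT _).2 ⟨hmem _ (hφ j hj) w hw, i * q + t, hSimem i t ht, hG⟩⟩
  have halt : ∀ i < P, (Si i).Nonempty →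
      (∀ w ∈ Ico (w0 (φ i)) (w0 (φ i) + N (φ i)), ∃ t ∈ Si i, G (i * q + t) (φ i + P * w)) ∨
      (Si i).card + F ≤ (K i).card := by
    intro i hi hne
    rcases hcl i hi (Si i) (hSisub i) hne with h | h
    · exact Or.inl h
    · right
      refine h.trans (ncard_le_card_of_sub _ _ ?_)
      rintro w ⟨hw, t, ht, hG⟩
      exact hKmem i hi i hi t ht w hw hG
  have fact3 : ∀ i < P, (Si i).card ≤ (K i).card := by
    intro i hi
    rcases (Si i).eq_empty_or_nonempty with h0 | hne
    · rw [h0]
      simp
    rcases halt i hi hne with h | h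
    · have hKall : K i = Ico (w0 (φ i)) (w0 (φ i) + N (φ i)) := by
        apply Finset.Subset.antisymm
        · rw [hK]
          exact filter_subset _ _
        · intro w hw
          obtain ⟨t, ht, hG⟩ := h w hw
          exact hKmem i hi i hi t ht w hw hG
      rw [hKall, Nat.card_Ico]
      have h1 : (Si i).card ≤ q - 1 := by
        have := card_le_card (hSisub i)
        rwa [card_range] at this
      have h2 := hN (φ i) (hφ i hi)
      omega
    · omega
  by_cases hbig : ∃ i < P, (Si i).card + F ≤ (K i).card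
  · obtain ⟨i0, hi0, hbig⟩ := hbig
    have hi0' : i0 ∈ range P := mem_range.2 hi0
    have e1 : ∑ i ∈ range P, (K i).card = (K i0).card + ∑ i ∈ (range P).erase i0, (K i).card :=
      (Finset.add_sum_erase _ _ hi0').symm
    have e2 : ∑ i ∈ range P, (Si i).card = (Si i0).card + ∑ i ∈ (range P).erase i0, (Si i).card :=
      (Finset.add_sum_erase _ _ hi0').symm
    have e3 : ∑ i ∈ (range P).erase i0, (Si i).card ≤ ∑ i ∈ (range P).erase i0, (K i).card :=
      Finset.sum_le_sum fun i hi => fact3 i (mem_range.1 (mem_of_mem_erase hi))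
    omega
  · have hbig' : ∀ i < P, ¬ ((Si i).card + F ≤ (K i).card) := fun i hi h => hbig ⟨i, hi, h⟩
    obtain ⟨I, hI⟩ : ∃ I : Finset ℕ, I = (range P).filter (fun i => (Si i).Nonempty) := ⟨_, rfl⟩
    have hIsub : I ⊆ range P := by
      rw [hI]
      exact filter_subset _ _
    rcases I.eq_empty_or_nonempty with h0 | hIne
    · have hz : ∑ i ∈ range P, (Si i).card = 0 := by
        apply Finset.sum_eq_zero
        intro i hi
        rw [card_eq_zero]
        by_contra hne
        have : i ∈ I := by
          rw [hI, mem_filter]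
          exact ⟨hi, nonempty_iff_ne_empty.2 hne⟩
        rw [h0] at this
        simp at this
      have h1 : F ≤ T.card := by
        refine (hdeg x0 (mem_range.1 (hS hx0))).trans (ncard_le_card_of_sub _ _ ?_)
        rintro v ⟨hv, hG⟩
        exact (hT v).2 ⟨hv, x0, hx0, hG⟩
      omega
    · have hfirst : ∀ i ∈ I, ∀ w ∈ Ico (w0 (φ i)) (w0 (φ i) + N (φ i)),
          ∃ t ∈ Si i, G (i * q + t) (φ i + P * w) := by
        intro i hi
        have hi' := hi
        rw [hI, mem_filter] at hi'
        have hiP := mem_range.1 hi'.1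
        rcases halt i hiP hi'.2 with h | h
        · exact h
        · exact absurd h (hbig' i hiP)
      by_cases hIall : I = range P
      · have himg : (range P).image φ = range P := by
          apply Finset.eq_of_subset_of_card_le
          · intro c hc
            obtain ⟨i, hi, rfl⟩ := mem_image.1 hc
            exact mem_range.2 (hφ i (mem_range.1 hi))
          · rw [Finset.card_image_of_injOn]
            intro i hi j hj hij
            exact hφi i (by simpa using hi) j (by simpa using hj) hij
        have hTall : Icc 1 m ⊆ T := by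
          intro v hv
          have hc : v % P ∈ range P := mem_range.2 (Nat.mod_lt _ hP)
          rw [← himg] at hc
          obtain ⟨i, hi, hic⟩ := mem_image.1 hc
          have hv2 : φ i + P * (v / P) = v := by
            rw [hic]
            exact Nat.mod_add_div v P
          have hiP := mem_range.1 hi
          have hw : v / P ∈ Ico (w0 (φ i)) (w0 (φ i) + N (φ i)) := by
            rw [mem_Ico, hW (φ i) (hφ i hiP), hv2]
            exact mem_Icc.1 hv
          obtain ⟨t, ht, hG⟩ := hfirst i (by rw [hIall]; exact hi) _ hw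
          rw [hv2] at hG
          exact (hT v).2 ⟨hv, i * q + t, hSimem i t ht, hG⟩
        have h1 : m ≤ T.card := by
          have := card_le_card hTall
          rw [Nat.card_Icc] at this
          omega
        have h2 : S.card ≤ m := by
          have := card_le_card hS
          rwa [card_range] at this
        omega
      · obtain ⟨i, hi, j, hj, hh⟩ := hcon I hIsub hIne hIall
        have hjP := mem_range.1 (mem_sdiff.1 hj).1
        have hjI := (mem_sdiff.1 hj).2
        have hSj : Si j = ∅ := by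
          by_contra hne
          apply hjI
          rw [hI, mem_filter]
          exact ⟨(mem_sdiff.1 hj).1, nonempty_iff_ne_empty.2 hne⟩
        have hi' := hi
        rw [hI, mem_filter] at hi'
        obtain ⟨t, ht⟩ := hi'.2
        have htq := mem_range.1 (hSisub i ht)
        have h1 : F ≤ (K j).card := by
          refine (hh t htq).trans (ncard_le_card_of_sub _ _ ?_)
          rintro w ⟨hw, hG⟩
          exact hKmem i (mem_range.1 hi'.1) j hjP t ht w hw hG
        exfalso
        apply hbig' j hjP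
        rw [hSj]
        simpa using h1

theorem q_glob : T_glob := by
  classical
  intro P q m F φ w0 N G hP hq hqm hm hφ hφi hW hN hdeg hcl hcon
  have hall : ∀ S : Finset (Fin m),
      S.card ≤ (S.biUnion (fun x : Fin m => (Icc 1 m).filter (fun v => G x v))).card := by
    intro S
    have h1 := glob_core P q m F φ w0 N G hP hq hqm hm hφ hφi hW hN hdeg hcl hcon
      (S.image (fun x : Fin m => (x : ℕ))) (by
        intro x hx
        obtain ⟨y, _, rfl⟩ := mem_image.1 hx
        exact mem_range.2 y.2)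
      (S.biUnion (fun x : Fin m => (Icc 1 m).filter (fun v => G x v))) (by
        intro v
        rw [mem_biUnion]
        constructor
        · rintro ⟨x, hx, hv⟩
          rw [mem_filter] at hv
          exact ⟨hv.1, (x : ℕ), mem_image_of_mem _ hx, hv.2⟩
        · rintro ⟨hv, x, hx, hG⟩
          obtain ⟨y, hy, rfl⟩ := mem_image.1 hx
          exact ⟨y, hy, mem_filter.2 ⟨hv, hG⟩⟩)
    rwa [card_image_of_injective _ Fin.val_injective] at h1
  obtain ⟨f, hf1, hf2⟩ := (Finset.all_card_le_biUnion_card_iff_exists_injective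
    (fun x : Fin m => (Icc 1 m).filter (fun v => G x v))).1 hall
  refine ⟨fun x => if h : x < m then f ⟨x, h⟩ else 0, ?_, ?_⟩
  · intro x hx
    have h1 := hf2 ⟨x, hx⟩
    rw [mem_filter, mem_Icc] at h1
    simp only [hx, dif_pos]
    exact ⟨h1.1.1, h1.1.2, h1.2⟩
  · intro x hx y hy hxy
    simp only [hx, hy, dif_pos] at hxy
    have := hf1 hxy
    exact congrArg Fin.val this

end Pool.Agent.APC
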