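import Pool.Agent.Lib.MP_e0f8f3_nt.DefsB

set_option autoImplicit false

/-!
Meaning of the relation at the large primes for compatible classes.
-/

namespace Pool.Agent.APC

open Finset
open Pool.Agent.BVall

private lemma tg_small {P p i c t w : ℕ} (hd : p ∣ P) :
    ((3 + 2 * (i + P * t)) * (2 * (c + P * w))) % p = ((3 + 2 * i) * (2 * c)) % p ∧
    ((3 + 2 * (i + P * t) + 2 * P) * (2 * (c + P * w))) % p = ((3 + 2 * i) * (2 * c)) % p := by
  have hP : P ≡ 0 [MOD p] := (Nat.modEq_zero_iff_dvd).2 hd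
  have h1 : 3 + 2 * (i + P * t) ≡ 3 + 2 * i [MOD p] := by
    calc 3 + 2 * (i + P * t) ≡ 3 + 2 * (i + 0 * t) [MOD p] :=
          Nat.ModEq.add_left _ (Nat.ModEq.mul_left _ (Nat.ModEq.add_left _ (hP.mul_right _)))
      _ = 3 + 2 * i := by ring
  have h2 : 2 * (c + P * w) ≡ 2 * c [MOD p] := by
    calc 2 * (c + P * w) ≡ 2 * (c + 0 * w) [MOD p] :=
          Nat.ModEq.mul_left _ (Nat.ModEq.add_left _ (hP.mul_right _))
      _ = 2 * c := by ring
  have h3 : 3 + 2 * (i + P * t) + 2 * P ≡ 3 + 2 * i [MOD p] := by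
    calc 3 + 2 * (i + P * t) + 2 * P ≡ 3 + 2 * i + 2 * 0 [MOD p] :=
          h1.add (hP.mul_left 2)
      _ = 3 + 2 * i := by ring
  exact ⟨h1.mul h2, h3.mul h2⟩

theorem q_good : T_good := by
  intro P hP i c n t w hcm
  constructor
  · rintro ⟨h1, h2⟩ p hp ⟨-, h3 | h3⟩
    · exact h1 p hp h3
    · exact h2 p hp h3
  · intro h
    have key : ∀ p ∈ PK 4 n, ((3 + 2 * (i + P * t)) * (2 * (c + P * w))) % p ≠ 1 ∧
        ((3 + 2 * (i + P * t) + 2 * P) * (2 * (c + P * w))) % p ≠ 1 := by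
      intro p hp
      have hpp := (mem_PK.1 hp).1
      rcases lt_or_ge 65536 p with hb | hb
      · have h4 := h p hp
        unfold RlB at h4
        tauto
      · rcases eq_or_ne p 2 with h2 | h2
        · subst h2
          have e : ∀ x y : ℕ, (x * (2 * y)) % 2 ≠ 1 := by
            intro x y
            rw [show x * (2 * y) = 2 * (x * y) by ring, Nat.mul_mod_right]
            norm_num
          exact ⟨e _ _, e _ _⟩
        · have hd := hP.2.2.2.2 p hpp hb h2
          obtain ⟨e1, e2⟩ := tg_small (i := i) (c := c) (t := t) (w := w) hd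
          rw [e1, e2]
          exact ⟨hcm p hpp hd, hcm p hpp hd⟩
    exact ⟨fun p hp => (key p hp).1, fun p hp => (key p hp).2⟩

end Pool.Agent.APC
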