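import Pool.Agent.Lib.MP_e0f8f3_nt.DefsB

set_option autoImplicit false

/-!
The relation at the large primes is periodic with at most two solutions in each variable.
-/

namespace Pool.Agent.APC

open Finset
open Pool.Agent.BVall

private lemma tr_two (q : ℕ) (A B : ℕ → Prop)
    (hA : ∀ x < q, ∀ y < q, A x → A y → x = y) (hB : ∀ x < q, ∀ y < q, B x → B y → x = y) :
    {x | x < q ∧ (A x ∨ B x)}.ncard ≤ 2 := by
  have e : {x | x < q ∧ (A x ∨ B x)} = {x | x < q ∧ A x} ∪ {x | x < q ∧ B x} := by
    ext x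
    simp only [Set.mem_ofPred_eq, Set.mem_union]
    tauto
  rw [e]
  refine (Set.ncard_union_le _ _).trans ?_
  have h1 : {x | x < q ∧ A x}.ncard ≤ 1 := by
    rw [Set.ncard_le_one ((Set.finite_lt_nat q).subset (fun x hx => hx.1))]
    intro a ha b hb
    exact hA a ha.1 b hb.1 ha.2 hb.2
  have h2 : {x | x < q ∧ B x}.ncard ≤ 1 := by
    rw [Set.ncard_le_one ((Set.finite_lt_nat q).subset (fun x hx => hx.1))]
    intro a ha b hb
    exact hB a ha.1 b hb.1 ha.2 hb.2
  omega

/-- the inverse is unique -/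
private lemma tr_inv {q x y z : ℕ} (h : (x * y) % q = 1) (h' : (x * z) % q = 1) :
    y ≡ z [MOD q] := by
  have h1 : x * y ≡ x * z [MOD q] := h.trans h'.symm
  rcases Nat.lt_or_ge 1 q with hq | hq
  · have e1 : x * y ≡ 1 [MOD q] := by unfold Nat.ModEq; rw [h, Nat.mod_eq_of_lt hq]
    have e2 : x * z ≡ 1 [MOD q] := by unfold Nat.ModEq; rw [h', Nat.mod_eq_of_lt hq]
    calc y = y * 1 := (mul_one y).symm
      _ ≡ y * (x * z) [MOD q] := (e2.symm).mul_left y
      _ = (x * y) * z := by ring
      _ ≡ 1 * z [MOD q] := e1.mul_right z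
      _ = z := one_mul z
  · interval_cases q
    · rw [Nat.mod_zero] at h h'
      rw [Nat.eq_one_of_mul_eq_one_left h, Nat.eq_one_of_mul_eq_one_left h']
    · exact Nat.modEq_one

private lemma tr_lin {p P a w w' : ℕ} (hc : Nat.Coprime p (2 * P))
    (h : a + 2 * P * w ≡ a + 2 * P * w' [MOD p]) (hw : w < p) (hw' : w' < p) : w = w' := by
  have h1 : 2 * P * w ≡ 2 * P * w' [MOD p] := Nat.ModEq.add_left_cancel' a h
  have h2 : w ≡ w' [MOD p] := Nat.ModEq.cancel_left_of_coprime hc h1
  exact Nat.ModEq.eq_of_lt_of_lt h2 hw hw'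

private lemma tr_cop {P p : ℕ} (hP : IsP P) (hp : p.Prime) (hb : 65536 < p) :
    Nat.Coprime p (2 * P) := by
  rw [Nat.Prime.coprime_iff_not_dvd hp]
  intro hd
  rcases (Nat.Prime.dvd_mul hp).1 hd with h | h
  · have := Nat.le_of_dvd (by norm_num) h
    omega
  · have := hP.2.2.2.1 p hp h
    omega

private lemma tr_qq {p : ℕ} (h : 65536 < p) : qq p = p := by
  unfold qq
  rw [if_neg (by omega)]

theorem q_rl : T_rl := by
  intro P hP i c
  refine ⟨?_, ?_, ?_, ?_⟩
  · intro p t w
    unfold RlB
    refine and_congr_right fun hb => ?_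
    rw [tr_qq hb]
    have e : P * t ≡ P * (t % p) [MOD p] := ((Nat.mod_modEq t p).symm).mul_left P
    have e1 : 3 + 2 * (i + P * t) ≡ 3 + 2 * (i + P * (t % p)) [MOD p] :=
      Nat.ModEq.add_left _ (Nat.ModEq.mul_left _ (Nat.ModEq.add_left _ e))
    have e2 := e1.add_right (2 * P)
    have f1 := e1.mul_right (2 * (c + P * w))
    have f2 := e2.mul_right (2 * (c + P * w))
    unfold Nat.ModEq at f1 f2
    rw [f1, f2]
  · intro p t w
    unfold RlB
    refine and_congr_right fun hb => ?_
    rw [tr_qq hb]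
    have e : P * w ≡ P * (w % p) [MOD p] := ((Nat.mod_modEq w p).symm).mul_left P
    have e1 : 2 * (c + P * w) ≡ 2 * (c + P * (w % p)) [MOD p] :=
      Nat.ModEq.mul_left _ (Nat.ModEq.add_left _ e)
    have f1 := e1.mul_left (3 + 2 * (i + P * t))
    have f2 := e1.mul_left (3 + 2 * (i + P * t) + 2 * P)
    unfold Nat.ModEq at f1 f2
    rw [f1, f2]
  · intro p t hp
    rcases Nat.lt_or_ge 65536 p with hb | hb
    · have hc := tr_cop hP hp hb
      have e : {w | w < qq p ∧ RlB P i c p t w} = {w | w < p ∧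
          (((3 + 2 * (i + P * t)) * (2 * (c + P * w))) % p = 1 ∨
            ((3 + 2 * (i + P * t) + 2 * P) * (2 * (c + P * w))) % p = 1)} := by
        ext w
        simp only [Set.mem_ofPred_eq, RlB, tr_qq hb]
        tauto
      rw [e]
      have key : ∀ s, ∀ x < p, ∀ y < p, (s * (2 * (c + P * x))) % p = 1 →
          (s * (2 * (c + P * y))) % p = 1 → x = y := by
        intro s x hx y hy h1 h2
        have h3 := tr_inv h1 h2
        refine tr_lin (a := 2 * c) hc ?_ hx hy
        rw [show 2 * c + 2 * P * x = 2 * (c + P * x) by ring,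
          show 2 * c + 2 * P * y = 2 * (c + P * y) by ring]
        exact h3
      exact tr_two p _ _ (key _) (key _)
    · have e : {w | w < qq p ∧ RlB P i c p t w} = ∅ := by
        ext w
        simp only [Set.mem_ofPred_eq, Set.mem_empty_iff_false, iff_false, RlB]
        omega
      rw [e]
      simp
  · intro p w hp
    rcases Nat.lt_or_ge 65536 p with hb | hb
    · have hc := tr_cop hP hp hb
      have e : {t | t < qq p ∧ RlB P i c p t w} = {t | t < p ∧
          (((3 + 2 * (i + P * t)) * (2 * (c + P * w))) % p = 1 ∨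
            ((3 + 2 * (i + P * t) + 2 * P) * (2 * (c + P * w))) % p = 1)} := by
        ext t
        simp only [Set.mem_ofPred_eq, RlB, tr_qq hb]
        tauto
      rw [e]
      have key : ∀ b, ∀ a, ∀ x < p, ∀ y < p, ((3 + 2 * (i + P * x) + a) * b) % p = 1 →
          ((3 + 2 * (i + P * y) + a) * b) % p = 1 → x = y := by
        intro b a x hx y hy h1 h2
        rw [mul_comm] at h1 h2
        have h3 := tr_inv h1 h2
        refine tr_lin (a := 3 + 2 * i + a) hc ?_ hx hy
        rw [show 3 + 2 * i + a + 2 * P * x = 3 + 2 * (i + P * x) + a by ring,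
          show 3 + 2 * i + a + 2 * P * y = 3 + 2 * (i + P * y) + a by ring]
        exact h3
      exact tr_two p _ _ (fun x hx y hy => key (2 * (c + P * w)) 0 x hx y hy)
        (fun x hx y hy => key (2 * (c + P * w)) (2 * P) x hx y hy)
    · have e : {t | t < qq p ∧ RlB P i c p t w} = ∅ := by
        ext t
        simp only [Set.mem_ofPred_eq, Set.mem_empty_iff_false, iff_false, RlB]
        omega
      rw [e]
      simp

end Pool.Agent.APC
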