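import Pool.Agent.Lib.MP_e0f8f3_nt.DefsB

set_option autoImplicit false

namespace Pool.Agent.APC

/-- the class `0` is compatible with every number -/
theorem q_two : T_two := by
  intro P hP x y
  refine ⟨0, ?_, fun p _ _ => ?_⟩
  · have := hP.2.2.1
    omega
  · simp

end Pool.Agent.APC
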