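import Pool.Agent.Lib.MP_0da313_nt.CM.Main
import Pool.Agent.Lib.MP_e0f8f3_nt.DefsC

set_option autoImplicit false

namespace Pool.Agent.APC

open Finset Filter

private lemma fw_eq (X : ℝ) (n : ℕ) :
    Pool.Agent.CH.thP n * Pool.Agent.CM.wd 1 X n = fw X n := by
  unfold fw Pool.Agent.CH.thP Pool.Agent.CM.wd Pool.Agent.MP89da58.tri
  rw [one_mul]

theorem r_BV : U_BV := by
  intro A W ε hW hε
  have h := (Pool.Agent.CM.B.h_B 1 le_rfl).1 A W 1 ε hW hε
  filter_upwards [h] with X hX a ha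
  have h2 := hX Pool.Agent.CH.thP rfl a ha
  simp only [Nat.cast_one, one_pow, one_mul, fw_eq] at h2
  exact h2

theorem r_M1 : U_M1 := by
  have hmu : 0 < Pool.Agent.CM.mu 1 := by
    have := (Pool.Agent.CM.M.h_mu 1 le_rfl).1
    linarith
  refine ⟨Pool.Agent.CM.mu 1 / 2, by positivity, ?_⟩
  filter_upwards [Pool.Agent.CM.M.h_m1 1 (Pool.Agent.CM.mu 1 / 2) le_rfl (by positivity)]
    with X hX
  simp only [fw_eq] at hX
  have h1 := (abs_le.1 hX).1
  unfold TT
  linarith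

end Pool.Agent.APC
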