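import Mathlib
import Pool.Agent.Lib.MP_e0f8f3_nt.DefsC

set_option autoImplicit false

/-!
Degrees with their size: the number of elements of a long interval which avoid two residue
classes at every sifting modulus.
-/

namespace Pool.Agent.APC

open Finset
open Pool.Agent.BVall

private lemma qq_gt_vdega {p : ℕ} (hp : p.Prime) : 1 < qq p := by
  unfold qq
  split_ifs with h
  · exact Nat.one_lt_pow (by norm_num) hp.one_lt
  · exact hp.one_lt

private lemma real_vdega (C1 C2 : ℕ) (N X W K : ℝ) (hX : 2 ≤ X)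
    (hm : ((4 * (C1 + 1) * (C2 + 1) : ℕ) : ℝ) * X ^ 88 ≤ N)
    (hW : 1 ≤ (C2 : ℝ) * X * W) (hK : (1 - 1 / 1000) * N * W - C1 * X ^ 86 ≤ K) :
    N ≤ ((4 * (C1 + 1) * (C2 + 1) : ℕ) : ℝ) * X * K := by
  have hX1 : (1 : ℝ) ≤ X := by linarith
  have hX0 : (0 : ℝ) < X := by linarith
  have hC1 : (0 : ℝ) ≤ (C1 : ℝ) := Nat.cast_nonneg _
  have hC2 : (0 : ℝ) ≤ (C2 : ℝ) := Nat.cast_nonneg _
  have e1 : X ^ 86 * X ≤ X ^ 88 := by
    rw [← pow_succ]
    exact pow_le_pow_right₀ hX1 (by norm_num)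
  have hWpos : 0 < W := by
    by_contra hneg
    push Not at hneg
    have : (C2 : ℝ) * X * W ≤ 0 := by
      apply mul_nonpos_of_nonneg_of_nonpos _ hneg
      positivity
    linarith
  have hN0 : 0 ≤ N := le_trans (by positivity) hm
  have e3 : 1 ≤ ((C2 : ℝ) + 1) * X * W := by
    have : (C2 : ℝ) * X * W ≤ ((C2 : ℝ) + 1) * X * W := by
      apply mul_le_mul_of_nonneg_right _ hWpos.le
      apply mul_le_mul_of_nonneg_right _ (by linarith)
      linarith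
    linarith
  have e2 : 4 * ((C1 : ℝ) * X ^ 86 * (((C2 : ℝ) + 1) * X)) ≤ N := by
    calc 4 * ((C1 : ℝ) * X ^ 86 * (((C2 : ℝ) + 1) * X))
        = 4 * (C1 : ℝ) * ((C2 : ℝ) + 1) * (X ^ 86 * X) := by ring
      _ ≤ 4 * (C1 : ℝ) * ((C2 : ℝ) + 1) * X ^ 88 :=
          mul_le_mul_of_nonneg_left e1 (by positivity)
      _ ≤ 4 * ((C1 : ℝ) + 1) * ((C2 : ℝ) + 1) * X ^ 88 := by
          apply mul_le_mul_of_nonneg_right _ (by positivity)
          apply mul_le_mul_of_nonneg_right _ (by positivity)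
          linarith
      _ ≤ N := by
          refine le_trans (le_of_eq ?_) hm
          push_cast
          ring
  have e4 : N ≤ N * (((C2 : ℝ) + 1) * X * W) := by
    calc N = N * 1 := (mul_one N).symm
      _ ≤ N * (((C2 : ℝ) + 1) * X * W) := mul_le_mul_of_nonneg_left e3 hN0
  have e5 : ((C2 : ℝ) + 1) * X * ((1 - 1 / 1000) * N * W - C1 * X ^ 86) ≤
      ((C2 : ℝ) + 1) * X * K := mul_le_mul_of_nonneg_left hK (by positivity)
  have e6 : ((C2 : ℝ) + 1) * X * ((1 - 1 / 1000) * N * W - C1 * X ^ 86) =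
      (999 / 1000) * (N * (((C2 : ℝ) + 1) * X * W))
        - (C1 : ℝ) * X ^ 86 * (((C2 : ℝ) + 1) * X) := by ring
  have e7 : N ≤ 2 * (((C2 : ℝ) + 1) * X * K) := by
    rw [e6] at e5
    linarith
  have e8 : 0 ≤ ((C2 : ℝ) + 1) * X * K := by linarith
  have e9 : ((4 * (C1 + 1) * (C2 + 1) : ℕ) : ℝ) * X * K =
      2 * (((C2 : ℝ) + 1) * X * K) + (4 * (C1 : ℝ) + 2) * (((C2 : ℝ) + 1) * X * K) := by
    push_cast
    ring
  rw [e9]
  have e10 : 0 ≤ (4 * (C1 : ℝ) + 2) * (((C2 : ℝ) + 1) * X * K) :=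
    mul_nonneg (by linarith) e8
  linarith

theorem r_Vdega (h1 : S_siv) (h2 : S_low) : V_dega := by
  classical
  obtain ⟨C1, h1⟩ := h1
  obtain ⟨C2, h2⟩ := h2
  refine ⟨4 * (C1 + 1) * (C2 + 1), fun n N a Rl hN hper hcard => ?_⟩
  set A : ℕ → Finset ℕ := fun p => (range (qq p)).filter (fun r => Rl p r) with hA
  have hA' : ∀ p, p.Prime → A p ⊆ range (qq p) ∧ (A p).card ≤ 4 := by
    intro p hp
    refine ⟨filter_subset _ _, ?_⟩
    have e1 := hcard p hp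
    have e2 : ({y | y < qq p ∧ Rl p y} : Set ℕ) = ((A p : Finset ℕ) : Set ℕ) := by
      ext y
      simp [hA]
    rw [e2, Set.ncard_coe_finset] at e1
    omega
  have k1 := (h1 n N a A hA').1
  have k2 := h2 n A hA'
  have hXn : (2 : ℝ) ≤ (2 : ℝ) ^ 2 ^ (4 + n) := by
    calc (2 : ℝ) = 2 ^ 1 := by norm_num
      _ ≤ 2 ^ 2 ^ (4 + n) := pow_le_pow_right₀ (by norm_num) Nat.one_le_two_pow
  have hmR : ((4 * (C1 + 1) * (C2 + 1) : ℕ) : ℝ) *
      ((2 : ℝ) ^ 2 ^ (4 + n)) ^ 88 ≤ N := by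
    exact_mod_cast hN
  have key := real_vdega C1 C2 N _ _ _ hXn hmR k2 k1
  have hset : ({y | y ∈ Ico a (a + N) ∧ ∀ p ∈ PK 4 n, ¬ Rl p y} : Set ℕ) =
      (((Ico a (a + N)).filter (fun y => ∀ p ∈ PK 4 n, y % qq p ∉ A p) : Finset ℕ) : Set ℕ) := by
    ext y
    simp only [Finset.mem_coe, mem_filter, Set.mem_ofPred_eq]
    constructor
    · rintro ⟨hy, h⟩
      refine ⟨hy, fun p hp hm => ?_⟩
      rw [hA] at hm
      have := (mem_filter.1 hm).2
      exact h p hp ((hper p y).2 this)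
    · rintro ⟨hy, h⟩
      refine ⟨hy, fun p hp hm => ?_⟩
      have hpp := (mem_PK.1 hp).1
      apply h p hp
      rw [hA]
      exact mem_filter.2 ⟨mem_range.2 (Nat.mod_lt _ (by have := qq_gt_vdega hpp; omega)),
        (hper p y).1 hm⟩
  rw [hset, Set.ncard_coe_finset]
  exact_mod_cast key

end Pool.Agent.APC
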