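import Mathlib
import Pool.Agent.Lib.MP_e0f8f3_nt.DefsC

set_option autoImplicit false

/-!
Matching inside a class: strong expansion, with explicit degree.
-/

namespace Pool.Agent.APC

open Finset
open Pool.Agent.BVall

private lemma nb_finite (G : ℕ → ℕ → Prop) (B0 S : Finset ℕ) :
    {y | y ∈ B0 ∧ ∃ x ∈ S, G x y}.Finite :=
  B0.finite_toSet.subset fun _ hy => hy.1

private lemma exp_factor (N : ℝ) (b s : ℝ) (hb : 100 ≤ b)
    (hs : 2 * s ≤ b + 2) (h : 9 / 10 * b * s ≤ (s + b / 100) * N) (hN : 0 ≤ N) :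
    17 / 10 * s ≤ N := by
  have h1 : s + b / 100 ≤ 52 / 100 * b := by linarith
  have h2 : (s + b / 100) * N ≤ 52 / 100 * b * N := mul_le_mul_of_nonneg_right h1 hN
  have h3 : 9 / 10 * b * s ≤ 52 / 100 * b * N := h.trans h2
  have h4 : b * (9 / 10 * s) ≤ b * (52 / 100 * N) := by linarith
  have h5 : 9 / 10 * s ≤ 52 / 100 * N := le_of_mul_le_mul_left h4 (by linarith)
  linarith

private lemma small_case (F : ℕ) (G : ℕ → ℕ → Prop) (J0 B0 S : Finset ℕ) (hM : 100 ≤ B0.card)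
    (hdeg : ∀ x ∈ J0, 10 * (F + 10) ≤ {y | y ∈ B0 ∧ G x y}.ncard)
    (hexp : ∀ S ⊆ J0, 9 / 10 * (B0.card : ℝ) * (S.card : ℝ) ≤
      ((S.card : ℝ) + B0.card / 100) * ({y | y ∈ B0 ∧ ∃ x ∈ S, G x y}.ncard : ℝ))
    (hS : S ⊆ J0) (hne : S.Nonempty) (hs : 2 * S.card ≤ B0.card + 2) :
    S.card + F + 2 ≤ {y | y ∈ B0 ∧ ∃ x ∈ S, G x y}.ncard := by
  rcases Nat.lt_or_ge (7 * S.card) (10 * (F + 2)) with h | h
  · obtain ⟨x, hx⟩ := hne
    have h1 := hdeg x (hS hx)
    have h2 : {y | y ∈ B0 ∧ G x y}.ncard ≤ {y | y ∈ B0 ∧ ∃ x ∈ S, G x y}.ncard := by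
      apply Set.ncard_le_ncard _ (nb_finite G B0 S)
      rintro y ⟨hy, hg⟩
      exact ⟨hy, x, hx, hg⟩
    omega
  · have h1 := exp_factor ({y | y ∈ B0 ∧ ∃ x ∈ S, G x y}.ncard : ℝ) (B0.card : ℝ)
      (S.card : ℝ) (by exact_mod_cast hM) (by exact_mod_cast hs)
      (hexp S hS) (Nat.cast_nonneg _)
    have h2 : (10 : ℝ) * (F + 2) ≤ 7 * S.card := by exact_mod_cast h
    have h3 : ((S.card + F + 2 : ℕ) : ℝ) ≤ ({y | y ∈ B0 ∧ ∃ x ∈ S, G x y}.ncard : ℝ) := by
      push_cast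
      linarith
    exact_mod_cast h3

theorem r_Vin : V_in := by
  refine ⟨102, ?_⟩
  intro F D hD G J0 B0 hM hJB hBJ hd1' hd2' he1 he2 S hS hne
  have hd1 : ∀ x ∈ J0, 10 * (F + 10) ≤ {y | y ∈ B0 ∧ G x y}.ncard :=
    fun x hx => hD.trans (hd1' x hx)
  have hd2 : ∀ y ∈ B0, 10 * (F + 10) ≤ {x | x ∈ J0 ∧ G x y}.ncard :=
    fun y hy => hD.trans (hd2' y hy)
  classical
  set NS : Set ℕ := {y | y ∈ B0 ∧ ∃ x ∈ S, G x y} with hNS
  by_cases hall : ∀ y ∈ B0, ∃ x ∈ S, G x y
  · exact Or.inl hall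
  right
  rcases Nat.lt_or_ge (B0.card + 2) (2 * S.card) with hbig | hsmall
  · -- large `S`
    set T : Finset ℕ := B0.filter (fun y => ¬ ∃ x ∈ S, G x y) with hT
    have hTB : T ⊆ B0 := filter_subset _ _
    have hTne : T.Nonempty := by
      push Not at hall
      obtain ⟨y, hy, hy2⟩ := hall
      refine ⟨y, ?_⟩
      rw [hT, mem_filter]
      refine ⟨hy, ?_⟩
      rintro ⟨x, hx, hg⟩
      exact hy2 x hx hg
    have hNSeq : NS = ((B0.filter (fun y => ∃ x ∈ S, G x y) : Finset ℕ) : Set ℕ) := by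
      ext y
      rw [hNS]
      simp only [Set.mem_ofPred_eq, coe_filter]
    have hcount : NS.ncard + T.card = B0.card := by
      rw [hNSeq, Set.ncard_coe_finset, hT]
      exact card_filter_add_card_filter_not _
    set NT : Set ℕ := {x | x ∈ J0 ∧ ∃ y ∈ T, G x y} with hNT
    have hNTsub : NT ⊆ ((J0 \ S : Finset ℕ) : Set ℕ) := by
      rintro x ⟨hx, y, hy, hg⟩
      rw [mem_coe, mem_sdiff]
      refine ⟨hx, fun hxS => ?_⟩
      rw [hT, mem_filter] at hy
      exact hy.2 ⟨x, hxS, hg⟩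
    have hNTcard : NT.ncard + S.card ≤ J0.card := by
      have h1 : NT.ncard ≤ (J0 \ S).card := by
        rw [← Set.ncard_coe_finset]
        exact Set.ncard_le_ncard hNTsub (J0 \ S).finite_toSet
      have h2 : (J0 \ S).card + S.card = J0.card := card_sdiff_add_card_eq_card hS
      omega
    rcases Nat.lt_or_ge (J0.card + 2) (2 * T.card) with hTbig | hTsmall
    · exfalso
      have h1 := he2 T hTB
      have hj : (0 : ℝ) < J0.card := by
        have : 0 < J0.card := by omega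
        exact_mod_cast this
      have hNT2 : (NT.ncard : ℝ) ≤ J0.card / 2 := by
        have : 2 * NT.ncard ≤ J0.card := by omega
        have h' : (2 : ℝ) * NT.ncard ≤ J0.card := by exact_mod_cast this
        linarith
      have ht : (J0.card : ℝ) ≤ 2 * T.card := by
        have : J0.card ≤ 2 * T.card := by omega
        exact_mod_cast this
      have h2 : ((T.card : ℝ) + J0.card / 100) * (NT.ncard : ℝ) ≤
          ((T.card : ℝ) + J0.card / 100) * (J0.card / 2) :=
        mul_le_mul_of_nonneg_left hNT2 (by positivity)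
      have h3 := h1.trans h2
      have h4 : (J0.card : ℝ) * (9 / 10 * T.card) ≤
          (J0.card : ℝ) * (((T.card : ℝ) + J0.card / 100) / 2) := by linarith
      have h5 := le_of_mul_le_mul_left h4 hj
      linarith
    · have h1 := small_case F (fun y x => G x y) B0 J0 T (by omega) hd2 he2 hTB hTne hTsmall
      have h2 : T.card + F + 2 ≤ NT.ncard := h1
      omega
  · have h1 : S.card + F + 2 ≤ NS.ncard :=
      small_case F G J0 B0 S (by omega) hd1 he1 hS hne hsmall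
    omega

end Pool.Agent.APC
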