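import Mathlib
import Pool.Agent.Lib.MP_e0f8f3_nt.DefsC

set_option autoImplicit false

namespace Pool.Agent.APC

open Finset Filter
open Pool.Agent.BVall

private lemma ua_le (X : ℝ) (n : ℕ) : fw X n ≤ Real.log n := by
  unfold fw
  have h0 : 0 ≤ Real.log n := Real.log_natCast_nonneg n
  have h1 : max 0 (1 - |Real.log (n / X)|) ≤ 1 :=
    max_le zero_le_one (by linarith [abs_nonneg (Real.log (n / X))])
  have h2 : (if n.Prime then Real.log n else 0) ≤ Real.log n := by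
    split_ifs
    · exact le_rfl
    · exact h0
  have h3 : 0 ≤ (if n.Prime then Real.log n else 0) := by
    split_ifs
    · exact h0
    · exact le_rfl
  calc _ ≤ (if n.Prime then Real.log n else 0) * 1 := mul_le_mul_of_nonneg_left h1 h3
    _ ≤ _ := by rw [mul_one]; exact h2

private lemma ua_ne {X : ℝ} (hX : 0 < X) {n : ℕ} (h : fw X n ≠ 0) : n.Prime ∧ X < 3 * n := by
  unfold fw at h
  have h1 : n.Prime := by
    by_contra hn
    rw [if_neg hn, zero_mul] at h
    exact h rfl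
  refine ⟨h1, ?_⟩
  have h2 : |Real.log (n / X)| < 1 := by
    by_contra hn
    push Not at hn
    apply h
    rw [max_eq_left (by linarith), mul_zero]
  have hn0 : (0 : ℝ) < n := by exact_mod_cast h1.pos
  have h3 := (abs_lt.1 h2).1
  have h4 : Real.exp (-1) < n / X := by
    rw [← Real.lt_log_iff_exp_lt (by positivity)]
    exact h3
  have h5 : (1 : ℝ) / 3 < Real.exp (-1) := by
    rw [Real.exp_neg, ← one_div]
    apply one_div_lt_one_div_of_lt (Real.exp_pos 1)
    linarith [Real.exp_one_lt_d9]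
  have h6 := h5.trans h4
  rw [lt_div_iff₀ hX] at h6
  linarith

private lemma ua_count {A : Finset ℕ} {f : ℕ → ℝ} {E B : ℝ} (hE : E ≤ ∑ n ∈ A, f n)
    (hB : ∀ n ∈ A, f n ≤ B) : E ≤ B * ((A.filter (fun n => f n ≠ 0)).card : ℝ) := by
  rw [← Finset.sum_filter_ne_zero] at hE
  refine hE.trans ?_
  calc _ ≤ ∑ n ∈ A.filter (fun n => f n ≠ 0), B :=
        Finset.sum_le_sum fun n hn => hB n (Finset.mem_filter.1 hn).1
    _ = _ := by rw [Finset.sum_const, nsmul_eq_mul, mul_comm]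

private lemma ua_choose (h2 : U_cls) {P : ℕ} (hP : IsP P) {k S : ℕ} (hS : 2 ^ 2 ^ (4 + k) < S)
    (hS' : 65536 < S) : ∃ c : ℕ → Finset ℕ → ℕ, ∀ s : ℕ, s.Prime → S < s → ∀ T ⊆ LL P k s,
      (c s T).Coprime (2 * P * (s * ∏ l ∈ T, l)) ∧
      ∀ n : ℕ, n ≡ c s T [MOD 2 * P * (s * ∏ l ∈ T, l)] ↔
        ((n + 1) % (2 * P * s) = 0 ∧ ∀ l ∈ T, ((s + 2 * P) * ((n + 1) / s)) % l = 1) := by
  have h : ∀ (s : ℕ) (T : Finset ℕ), ∃ c : ℕ, s.Prime → S < s → T ⊆ LL P k s →
      c.Coprime (2 * P * (s * ∏ l ∈ T, l)) ∧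
      ∀ n : ℕ, n ≡ c [MOD 2 * P * (s * ∏ l ∈ T, l)] ↔
        ((n + 1) % (2 * P * s) = 0 ∧ ∀ l ∈ T, ((s + 2 * P) * ((n + 1) / s)) % l = 1) := by
    intro s T
    by_cases hh : s.Prime ∧ S < s ∧ T ⊆ LL P k s
    · obtain ⟨hs, hSs, hT⟩ := hh
      obtain ⟨c, hc⟩ := h2 P hP s hs (hS'.trans hSs) T (fun l hl => by
        have h3 := hT hl
        unfold LL at h3
        rw [Finset.mem_filter, mem_PK] at h3
        exact ⟨h3.1.1, h3.2.1, lt_of_le_of_lt h3.1.2 (hS.trans hSs), h3.2.2⟩)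
      exact ⟨c, fun _ _ _ => hc⟩
    · exact ⟨0, fun h1 h3 h4 => absurd ⟨h1, h3, h4⟩ hh⟩
  choose c hc using h
  exact ⟨c, fun s hs hSs T hT => hc s T hs hSs hT⟩

theorem r_avg (h1 : U_M1) (h2 : U_cls) (h3 : U_sv) (h4 : U_err) (h5 : U_prs) (h6 : U_par) :
    U_avg := by
  intro P hP ε hε hε1
  obtain ⟨cM, hcM, hM1⟩ := h1
  obtain ⟨c1, hc1, hsv⟩ := h3
  obtain ⟨cp, hcp, hprs⟩ := h5
  obtain ⟨XM, hXM⟩ := eventually_atTop.1 hM1
  obtain ⟨XE, hXE⟩ := eventually_atTop.1 (h4 P hP 30 (ε / 16) (by positivity))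
  obtain ⟨SP, hSP⟩ := eventually_atTop.1 hprs
  have hPn : 0 < P := by
    have := hP.2.2.1
    omega
  have hP0 : (0 : ℝ) < P := by exact_mod_cast hPn
  obtain ⟨c2, hc2⟩ : ∃ c2 : ℝ, c2 = c1 * cM / (108 * P) := ⟨_, rfl⟩
  have hc2' : 0 < c2 := by rw [hc2]; positivity
  obtain ⟨M, hM⟩ : ∃ M : ℝ, M = 17 + |XM| + |XE| + SP + 36 / c2 + 2 / cp + 2 / (3 * c2 * cp) :=
    ⟨_, rfl⟩
  have p1 : 0 ≤ |XM| := abs_nonneg _
  have p2 : 0 ≤ |XE| := abs_nonneg _
  have p3 : (0 : ℝ) ≤ SP := Nat.cast_nonneg _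
  have p4 : 0 < 36 / c2 := by positivity
  have p5 : 0 < 2 / cp := by positivity
  have p6 : 0 < 2 / (3 * c2 * cp) := by positivity
  have q1 : XM ≤ M := by linarith [le_abs_self XM]
  have q2 : XE ≤ M := by linarith [le_abs_self XE]
  have q3 : (SP : ℝ) ≤ M := by linarith
  have q4 : 36 / c2 ≤ M := by linarith
  have q5 : 2 / cp ≤ M := by linarith
  have q6 : 2 / (3 * c2 * cp) ≤ M := by linarith
  have q7 : 17 ≤ M := by linarith
  have q4' : 36 ≤ M * c2 := by rwa [div_le_iff₀ hc2'] at q4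
  have q5' : 2 ≤ M * cp := by rwa [div_le_iff₀ hcp] at q5
  have q6' : 2 ≤ M * (3 * c2 * cp) := by rwa [div_le_iff₀ (by positivity)] at q6
  clear hM p1 p2 p3 p4 p5 p6 q4 q5 q6
  obtain ⟨K, n0, hpar⟩ := h6 ε M hε hε1
  refine ⟨K, n0, fun n k hn hK => ?_⟩
  obtain ⟨S, hMS, hML, hS5, hSk, hlev, h9S, hMn, hMS20, h2k, hSn⟩ := hpar n k hn hK
  clear hpar hn hK
  obtain ⟨L, hL⟩ : ∃ L : ℝ, L = Real.log n := ⟨_, rfl⟩
  rw [← hL] at hML hMn hMS20 h2k
  have hL17 : 17 ≤ L := q7.trans hML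
  have hL1 : 1 ≤ L := by linarith
  have hL0 : 0 < L := by linarith
  have hn1 : 0 < n := by
    rcases Nat.eq_zero_or_pos n with h | h
    · rw [h] at hL
      simp at hL
      linarith
    · exact h
  have hn0 : (0 : ℝ) < n := by exact_mod_cast hn1
  have hLn : L ≤ n - 1 := by rw [hL]; exact Real.log_le_sub_one_of_pos hn0
  have hn17 : (17 : ℝ) ≤ n := by linarith
  have hS6 : (6 : ℝ) ≤ S := by
    have : 6 ≤ S := by omega
    exact_mod_cast this
  have hS0 : (0 : ℝ) < S := by linarith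
  have hSn' : (S : ℝ) ≤ n := by exact_mod_cast hSn
  obtain ⟨X, hX⟩ : ∃ X : ℝ, X = (n * S / 6 : ℝ) := ⟨_, rfl⟩
  rw [← hX] at hlev
  have hXn : (n : ℝ) ≤ X := by
    have e1 : (n : ℝ) * 6 ≤ n * S := mul_le_mul_of_nonneg_left hS6 hn0.le
    rw [hX]
    linarith
  have hX0 : 0 < X := by linarith
  have hXM' : cM * X ≤ TT X := hXM X (by linarith)
  obtain ⟨c, hc⟩ := ua_choose h2 hP hSk hS5
  have hsum := hXE X (by linarith) k S hSk hlev c (fun s hs hSs _ T hT => (hc s hs hSs T hT).1)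
  have hlogX : L ≤ Real.log X := by rw [hL]; exact Real.log_le_log hn0 hXn
  have hsum' := hsum.trans (div_le_div_of_nonneg_left hX0.le (by positivity : 0 < L ^ 30)
    (pow_le_pow_left₀ hL0.le hlogX 30))
  clear hsum
  obtain ⟨err, herr⟩ : ∃ err : ℕ → ℝ, err = fun s =>
    ∑ T ∈ (LL P k s).powerset.filter (fun T => ∏ l ∈ T, l ≤ lev 4 k),
      ER X (2 * P * (s * ∏ l ∈ T, l)) (c s T) := ⟨_, rfl⟩
  have herr' : ∀ s, err s = ∑ T ∈ (LL P k s).powerset.filter (fun T => ∏ l ∈ T, l ≤ lev 4 k),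
      ER X (2 * P * (s * ∏ l ∈ T, l)) (c s T) := fun s => by rw [herr]
  simp only [← herr'] at hsum'
  have herr0 : ∀ s, 0 ≤ err s := by
    intro s
    rw [herr']
    exact Finset.sum_nonneg fun T _ => abs_nonneg _
  obtain ⟨E, hE⟩ : ∃ E : ℝ, E = c2 / 2 * n / L ^ 16 := ⟨_, rfl⟩
  have hE0 : 0 < E := by rw [hE]; positivity
  obtain ⟨Pr, hPr⟩ : ∃ Pr : Finset ℕ, Pr = (Ioc S (9 * S)).filter Nat.Prime := ⟨_, rfl⟩
  have hPrc : cp * S / Real.log S ≤ (Pr.card : ℝ) := by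
    rw [hPr]
    refine hSP S ?_
    have : (SP : ℝ) ≤ S := q3.trans hMS
    exact_mod_cast this
  rw [← hPr] at hsum'
  have hmemPr : ∀ s ∈ Pr, s.Prime ∧ S < s ∧ s ≤ 9 * S := by
    intro s hs
    rw [hPr, Finset.mem_filter, Finset.mem_Ioc] at hs
    exact ⟨hs.2, hs.1.1, hs.1.2⟩
  refine ⟨S, Pr.filter (fun s => err s ≤ E), ?_, h9S, ?_, hSk, hS5, ?_⟩
  · rw [← hPr]
    exact Finset.filter_subset _ _
  · -- the number of good primes
    have hcard : (Pr.card : ℝ) = ((Pr.filter (fun s => err s ≤ E)).card : ℝ) +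
        ((Pr.filter (fun s => ¬ err s ≤ E)).card : ℝ) := by
      rw [← Nat.cast_add, Finset.card_filter_add_card_filter_not]
    have hbad : ((Pr.filter (fun s => ¬ err s ≤ E)).card : ℝ) * E ≤ X / L ^ 30 := by
      refine le_trans ?_ hsum'
      refine le_trans ?_ (Finset.sum_le_sum_of_subset_of_nonneg
        (Finset.filter_subset (fun s => ¬ err s ≤ E) Pr) fun s _ _ => herr0 s)
      rw [← nsmul_eq_mul]
      exact Finset.card_nsmul_le_sum _ _ _ fun s hs => by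
        have := (Finset.mem_filter.1 hs).2
        push Not at this
        exact this.le
    have hbad' : ((Pr.filter (fun s => ¬ err s ≤ E)).card : ℝ) ≤ S / (3 * c2 * L ^ 14) := by
      rw [← le_div_iff₀ hE0] at hbad
      refine hbad.trans (le_of_eq ?_)
      rw [hX, hE]
      field_simp
      ring
    have hlogS : Real.log S ≤ L := by rw [hL]; exact Real.log_le_log hS0 hSn'
    have hlogS0 : 0 < Real.log S := Real.log_pos (by linarith)
    have g1 : cp * S / L ≤ cp * S / Real.log S :=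
      div_le_div_of_nonneg_left (by positivity) hlogS0 hlogS
    have g2 : S / (3 * c2 * L ^ 14) ≤ cp * S / (2 * L) := by
      rw [div_le_div_iff₀ (by positivity) (by positivity)]
      have e1 : L ^ 2 ≤ L ^ 14 := pow_le_pow_right₀ hL1 (by norm_num)
      have e2 : 2 * L ≤ 3 * c2 * cp * L ^ 2 := by
        have e3 : 2 ≤ L * (3 * c2 * cp) := q6'.trans
          (mul_le_mul_of_nonneg_right hML (by positivity))
        nlinarith
      have e4 : 2 * L ≤ 3 * c2 * cp * L ^ 14 :=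
        e2.trans (mul_le_mul_of_nonneg_left e1 (by positivity))
      calc (S : ℝ) * (2 * L) ≤ S * (3 * c2 * cp * L ^ 14) :=
            mul_le_mul_of_nonneg_left e4 hS0.le
        _ = cp * S * (3 * c2 * L ^ 14) := by ring
    have g3 : cp * S / L = cp * S / (2 * L) + cp * S / (2 * L) := by
      field_simp
      ring
    have g4 : (n : ℝ) ^ (1 - ε) ≤ cp * S / (2 * L) := by
      rw [le_div_iff₀ (by positivity)]
      have e0 : 0 ≤ (n : ℝ) ^ (1 - ε) := Real.rpow_nonneg hn0.le _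
      have e1 : cp * (M * (n : ℝ) ^ (1 - ε) * L) ≤ cp * S := mul_le_mul_of_nonneg_left hMn hcp.le
      have e2 : (n : ℝ) ^ (1 - ε) * (2 * L) ≤ (n : ℝ) ^ (1 - ε) * L * (M * cp) := by
        calc (n : ℝ) ^ (1 - ε) * (2 * L) = (n : ℝ) ^ (1 - ε) * L * 2 := by ring
          _ ≤ _ := mul_le_mul_of_nonneg_left q5' (by positivity)
      calc _ ≤ _ := e2
        _ = cp * (M * (n : ℝ) ^ (1 - ε) * L) := by ring
        _ ≤ _ := e1
    linarith
  · intro s hs
    rw [Finset.mem_filter] at hs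
    obtain ⟨hsP, hsE⟩ := hs
    obtain ⟨hsp, hSs, hs9⟩ := hmemPr s hsP
    have hs0 : (0 : ℝ) < s := by exact_mod_cast hsp.pos
    have hs9' : (s : ℝ) ≤ 9 * S := by exact_mod_cast hs9
    have k1 := hsv P hP k s X (by linarith) hsp (hSk.trans hSs) (c s) (hc s hsp hSs)
    rw [← herr'] at k1
    have hφ0 : 0 < Nat.totient (2 * P * s) := by
      rw [Nat.totient_pos]
      have := hsp.pos
      positivity
    have hφ0' : (0 : ℝ) < (Nat.totient (2 * P * s) : ℝ) := by exact_mod_cast hφ0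
    have hφ : (Nat.totient (2 * P * s) : ℝ) ≤ 18 * P * S := by
      have e1 : (Nat.totient (2 * P * s) : ℝ) ≤ ((2 * P * s : ℕ) : ℝ) := by
        exact_mod_cast Nat.totient_le _
      push_cast at e1
      have e2 : 2 * (P : ℝ) * s ≤ 2 * P * (9 * S) :=
        mul_le_mul_of_nonneg_left hs9' (by positivity)
      linarith
    have k2 : cM * n / (108 * P) ≤ TT X / (Nat.totient (2 * P * s) : ℝ) := by
      have e1 : cM * X / (18 * P * S) ≤ TT X / (Nat.totient (2 * P * s) : ℝ) :=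
        div_le_div₀ (le_trans (by positivity) hXM') hXM' hφ0' hφ
      refine le_trans (le_of_eq ?_) e1
      rw [hX]
      field_simp
      ring
    have k3 : 1 / L ^ 16 ≤ (1 / 2 : ℝ) ^ (16 * k) := by
      rw [one_div_pow, mul_comm 16 k, pow_mul]
      apply one_div_le_one_div_of_le (by positivity)
      exact pow_le_pow_left₀ (by positivity) h2k 16
    have k4 : 2 * E ≤ c1 * (1 / 2) ^ (16 * k) * (TT X / (Nat.totient (2 * P * s) : ℝ)) := by
      have e1 : c1 * (1 / L ^ 16) * (cM * n / (108 * P)) ≤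
          c1 * (1 / 2) ^ (16 * k) * (TT X / (Nat.totient (2 * P * s) : ℝ)) := by
        apply mul_le_mul (mul_le_mul_of_nonneg_left k3 hc1.le) k2 (by positivity) (by positivity)
      refine le_trans (le_of_eq ?_) e1
      rw [hE, hc2]
      field_simp
    have k5 := (show E ≤ c1 * (1 / 2) ^ (16 * k) * (TT X / (Nat.totient (2 * P * s) : ℝ)) - err s
      by linarith).trans k1
    have k6 := ua_count (B := 2 * L) k5 (fun m hm => by
      rw [Finset.mem_filter, Finset.mem_Icc] at hm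
      have e0 : (0 : ℝ) < m := by exact_mod_cast hm.1.1
      have e1 : (m : ℝ) ≤ 3 * X := (Nat.le_floor_iff (by positivity)).1 hm.1.2
      have e3 : (n : ℝ) * S ≤ n * n := mul_le_mul_of_nonneg_left hSn' hn0.le
      have e4 : (0 : ℝ) ≤ n * S := by positivity
      have e2 : (m : ℝ) ≤ n * n := by
        rw [hX] at e1
        linarith
      calc fw X m ≤ Real.log m := ua_le X m
        _ ≤ Real.log (n * n) := Real.log_le_log e0 e2
        _ = 2 * L := by rw [Real.log_mul hn0.ne' hn0.ne', ← hL]; ring)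
    rw [Finset.filter_filter] at k6
    have k7 : (9 * S : ℝ) * (2 * L) ≤ E := by
      rw [hE, le_div_iff₀ (by positivity)]
      have e1 : L ^ 17 ≤ L ^ 20 := pow_le_pow_right₀ hL1 (by norm_num)
      have e2 : c2 / 2 * (M * S * L ^ 20) ≤ c2 / 2 * n :=
        mul_le_mul_of_nonneg_left hMS20 (by positivity)
      have e3 : 18 * (S * L ^ 20) ≤ (M * c2) / 2 * (S * L ^ 20) :=
        mul_le_mul_of_nonneg_right (by linarith) (by positivity)
      calc (9 * S : ℝ) * (2 * L) * L ^ 16 = 18 * (S * L ^ 17) := by ring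
        _ ≤ 18 * (S * L ^ 20) := by
            apply mul_le_mul_of_nonneg_left _ (by norm_num)
            exact mul_le_mul_of_nonneg_left e1 hS0.le
        _ ≤ (M * c2) / 2 * (S * L ^ 20) := e3
        _ = c2 / 2 * (M * S * L ^ 20) := by ring
        _ ≤ _ := e2
    have k8 : (9 * S : ℝ) ≤ (((Icc 1 ⌊3 * X⌋₊).filter (fun m => ((m + 1) % (2 * P * s) = 0 ∧
        ∀ l ∈ LL P k s, ((s + 2 * P) * ((m + 1) / s)) % l ≠ 1) ∧ fw X m ≠ 0)).card : ℝ) := by
      have e1 := k7.trans k6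
      rw [mul_comm (9 * S : ℝ)] at e1
      exact le_of_mul_le_mul_left e1 (by positivity)
    have k9 : 9 * S ≤ ((Icc 1 ⌊3 * X⌋₊).filter (fun m => ((m + 1) % (2 * P * s) = 0 ∧
        ∀ l ∈ LL P k s, ((s + 2 * P) * ((m + 1) / s)) % l ≠ 1) ∧ fw X m ≠ 0)).card := by
      exact_mod_cast k8
    refine k9.trans (Finset.card_le_card fun m hm => ?_)
    rw [Finset.mem_filter, Finset.mem_Icc] at hm
    obtain ⟨⟨m1, m2⟩, ⟨m3, m4⟩, m5⟩ := hm
    obtain ⟨m6, m7⟩ := ua_ne hX0 m5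
    have e1 : (m : ℝ) ≤ 3 * X := (Nat.le_floor_iff (by positivity)).1 m2
    have e2 : 2 * m ≤ n * S := by
      have : (2 * m : ℝ) ≤ n * S := by rw [hX] at e1; linarith
      exact_mod_cast this
    have hn2 : 17 ≤ n := by exact_mod_cast hn17
    rw [Finset.mem_filter, Finset.mem_Icc]
    refine ⟨⟨m1, by omega⟩, m6, ?_, ?_, m3, m4⟩
    · have e3 : n * (S + 1) ≤ n * s := Nat.mul_le_mul_left n hSs
      have e4 : n * (S + 1) = n * S + n := by ring
      omega
    · have e3 : S < m := by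
        have e5 : (18 : ℝ) * S ≤ n * S := mul_le_mul_of_nonneg_right (by linarith) hS0.le
        have e4 : (S : ℝ) < m := by
          rw [hX] at m7
          linarith
        exact_mod_cast e4
      exact hSk.trans e3

end Pool.Agent.APC
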