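import Pool.Agent.Lib.MP_e0f8f3_nt.DefsC

set_option autoImplicit false

namespace Pool.Agent.APC

open Finset Filter
open Pool.Agent.BVall

private theorem ucls_key {P s l u n : ℕ} (hl : 1 < l) (hls : Nat.gcd l s = 1)
    (hu : (s + 2 * P) * u ≡ 1 [MOD l]) (hcop : Nat.gcd l (s + 2 * P) = 1) (hn : s ∣ n + 1)
    (hs : 0 < s) :
    ((s + 2 * P) * ((n + 1) / s)) % l = 1 ↔ n ≡ s * u + (l - 1) [MOD l] := by
  obtain ⟨m, hm⟩ := hn
  rw [hm, Nat.mul_div_cancel_left m hs]
  have h1 : ((s + 2 * P) * m) % l = 1 ↔ (s + 2 * P) * m ≡ 1 [MOD l] := by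
    unfold Nat.ModEq
    rw [Nat.mod_eq_of_lt hl]
  have h2 : (s + 2 * P) * m ≡ 1 [MOD l] ↔ m ≡ u [MOD l] := by
    constructor
    · intro h
      exact Nat.ModEq.cancel_left_of_coprime hcop (h.trans hu.symm)
    · intro h
      exact (h.mul_left _).trans hu
  have h3 : m ≡ u [MOD l] ↔ s * m ≡ s * u [MOD l] := by
    constructor
    · intro h
      exact h.mul_left _
    · intro h
      exact Nat.ModEq.cancel_left_of_coprime hls h
  have h4 : s * m ≡ s * u [MOD l] ↔ n ≡ s * u + (l - 1) [MOD l] := by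
    rw [← hm]
    have h5 : s * u + (l - 1) + 1 ≡ s * u [MOD l] := by
      have h6 : s * u + (l - 1) + 1 = s * u + l := by omega
      rw [h6]
      unfold Nat.ModEq
      rw [Nat.add_mod_right]
    constructor
    · intro h
      exact Nat.ModEq.add_right_cancel' 1 (h.trans h5.symm)
    · intro h
      exact (h.add_right 1).trans h5
  rw [h1, h2, h3, h4]

private theorem ucls_ne {P s l u : ℕ} (hl : l.Prime) (hu : (s + 2 * P) * u ≡ 1 [MOD l])
    (h2 : ¬ l ∣ 2 * P) : ¬ l ∣ s * u + (l - 1) := by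
  intro h
  have h1 : s * u ≡ 1 [MOD l] := by
    have h3 : s * u + (l - 1) ≡ 1 + (l - 1) [MOD l] := by
      have h4 : 1 + (l - 1) = l := by have := hl.one_lt; omega
      rw [h4]
      unfold Nat.ModEq
      rw [Nat.mod_self]
      exact Nat.mod_eq_zero_of_dvd h
    exact Nat.ModEq.add_right_cancel' _ h3
  have h5 : s * u + 2 * P * u ≡ s * u + 0 [MOD l] := by
    have h6 : (s + 2 * P) * u = s * u + 2 * P * u := by ring
    rw [← h6, Nat.add_zero]
    exact hu.trans h1.symm
  have h7 : 2 * P * u ≡ 0 [MOD l] := Nat.ModEq.add_left_cancel' _ h5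
  have h8 : l ∣ 2 * P * u := (Nat.modEq_zero_iff_dvd).mp h7
  rcases (Nat.Prime.dvd_mul hl).mp h8 with h9 | h9
  · exact h2 h9
  · have h10 : l ∣ 1 := by
      have h11 : (s + 2 * P) * u ≡ 0 [MOD l] :=
        (Nat.modEq_zero_iff_dvd).mpr (Dvd.dvd.mul_left h9 _)
      exact (Nat.modEq_zero_iff_dvd).mp (hu.symm.trans h11)
    exact hl.one_lt.ne' (Nat.dvd_one.mp h10)

theorem r_cls : U_cls := by
  intro P hP s hs hs' T
  have hP0 : 0 < P := by have := hP.2.2.1; omega
  have hs0 : 0 < s := hs.pos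
  induction T using Finset.induction_on with
  | empty =>
    intro _
    have hM : 0 < 2 * P * s := by positivity
    refine ⟨2 * P * s - 1, ?_, ?_⟩
    · rw [Finset.prod_empty, Nat.mul_one]
      have h1 : Nat.Coprime (2 * P * s - 1) (2 * P * s - 1 + 1) := by simp
      rwa [Nat.sub_add_cancel hM] at h1
    · intro n
      rw [Finset.prod_empty, Nat.mul_one]
      constructor
      · intro h
        refine ⟨?_, by simp⟩
        have h2 : n + 1 ≡ 2 * P * s - 1 + 1 [MOD 2 * P * s] := h.add_right 1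
        rw [Nat.sub_add_cancel hM] at h2
        unfold Nat.ModEq at h2
        rw [h2, Nat.mod_self]
      · intro h
        have h2 : n + 1 ≡ 2 * P * s - 1 + 1 [MOD 2 * P * s] := by
          rw [Nat.sub_add_cancel hM]
          unfold Nat.ModEq
          rw [Nat.mod_self]
          exact h.1
        exact Nat.ModEq.add_right_cancel' 1 h2
  | insert l T hlT ih =>
    intro hT
    obtain ⟨c0, h1, h2⟩ := ih (fun l' hl' => hT l' (Finset.mem_insert_of_mem hl'))
    obtain ⟨hl, hl65, hls, hnd⟩ := hT l (Finset.mem_insert_self _ _)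
    have hl2P : ¬ l ∣ 2 * P := by
      intro h
      rcases (Nat.Prime.dvd_mul hl).mp h with h3 | h3
      · have := Nat.le_of_dvd (by norm_num) h3
        omega
      · have := hP.2.2.2.1 l hl h3
        omega
    have hls1 : Nat.Coprime l s := (Nat.coprime_primes hl hs).mpr (by omega)
    have hcop1 : Nat.Coprime l (s + 2 * P) := (Nat.Prime.coprime_iff_not_dvd hl).mpr hnd
    have hlprod : Nat.Coprime l (∏ l ∈ T, l) := by
      apply Nat.Coprime.prod_right
      intro l' hl'
      have h3 := (hT l' (Finset.mem_insert_of_mem hl')).1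
      refine (Nat.coprime_primes hl h3).mpr ?_
      rintro rfl
      exact hlT hl'
    have hlQ : Nat.Coprime (2 * P * (s * ∏ l ∈ T, l)) l := by
      apply Nat.Coprime.symm
      apply Nat.Coprime.mul_right
      · exact (Nat.Prime.coprime_iff_not_dvd hl).mpr hl2P
      · exact Nat.Coprime.mul_right hls1 hlprod
    obtain ⟨u, hu⟩ : ∃ u, (s + 2 * P) * u ≡ 1 [MOD l] := by
      obtain ⟨u, hu⟩ := Nat.exists_mul_mod_eq_one_of_coprime hcop1.symm hl.one_lt
      refine ⟨u, ?_⟩
      unfold Nat.ModEq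
      rw [hu.2, Nat.mod_eq_of_lt hl.one_lt]
    obtain ⟨c, hc1, hc2⟩ := Nat.chineseRemainder hlQ c0 (s * u + (l - 1))
    have hmod : 2 * P * (s * ∏ l ∈ insert l T, l) = 2 * P * (s * ∏ l ∈ T, l) * l := by
      rw [Finset.prod_insert hlT]
      ring
    refine ⟨c, ?_, ?_⟩
    · rw [hmod]
      apply Nat.Coprime.mul_right
      · have h3 : Nat.gcd c (2 * P * (s * ∏ l ∈ T, l)) = Nat.gcd c0 (2 * P * (s * ∏ l ∈ T, l)) :=
          hc1.gcd_eq
        rw [Nat.Coprime, h3]
        exact h1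
      · apply Nat.Coprime.symm
        apply (Nat.Prime.coprime_iff_not_dvd hl).mpr
        intro h3
        apply ucls_ne hl hu hl2P
        exact (hc2.dvd_iff (dvd_refl l)).mp h3
    · intro n
      rw [hmod, ← Nat.modEq_and_modEq_iff_modEq_mul hlQ]
      have h3 : n ≡ c [MOD 2 * P * (s * ∏ l ∈ T, l)] ↔ n ≡ c0 [MOD 2 * P * (s * ∏ l ∈ T, l)] :=
        ⟨fun h => h.trans hc1, fun h => h.trans hc1.symm⟩
      have h4 : n ≡ c [MOD l] ↔ n ≡ s * u + (l - 1) [MOD l] :=
        ⟨fun h => h.trans hc2, fun h => h.trans hc2.symm⟩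
      rw [h3, h4, h2 n]
      constructor
      · rintro ⟨⟨h5, h6⟩, h7⟩
        refine ⟨h5, ?_⟩
        have h8 : s ∣ n + 1 := (Dvd.intro_left _ rfl : s ∣ 2 * P * s).trans
          (Nat.dvd_of_mod_eq_zero h5)
        intro l' hl'
        rcases Finset.mem_insert.mp hl' with rfl | h9
        · exact (ucls_key hl.one_lt hls1 hu hcop1 h8 hs0).mpr h7
        · exact h6 l' h9
      · rintro ⟨h5, h6⟩
        have h8 : s ∣ n + 1 := (Dvd.intro_left _ rfl : s ∣ 2 * P * s).trans
          (Nat.dvd_of_mod_eq_zero h5)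
        exact ⟨⟨h5, fun l' hl' => h6 l' (Finset.mem_insert_of_mem hl')⟩,
          (ucls_key hl.one_lt hls1 hu hcop1 h8 hs0).mp (h6 l (Finset.mem_insert_self _ _))⟩

end Pool.Agent.APC
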