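import Mathlib
import Pool.Agent.Lib.MP_e0f8f3_nt.DefsC

set_option autoImplicit false

/-!
The sum of the errors.
-/

namespace Pool.Agent.APC

open Finset Filter
open Pool.Agent.BVall

private lemma ER_nonneg (X : ℝ) (Q c : ℕ) : 0 ≤ ER X Q c := abs_nonneg _

private lemma LL_spec {P k s l : ℕ} (h : l ∈ LL P k s) : l.Prime ∧ l ≤ 2 ^ 2 ^ (4 + k) := by
  unfold LL at h
  rw [mem_filter, mem_PK] at h
  exact h.1

private lemma prod_sqf (T : Finset ℕ) (h : ∀ l ∈ T, l.Prime) : Squarefree (∏ l ∈ T, l) := by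
  classical
  induction T using Finset.induction_on with
  | empty => simp
  | insert a T ha ih =>
    rw [prod_insert ha, Nat.squarefree_mul_iff]
    have h1 : ∀ l ∈ T, l.Prime := fun l hl => h l (mem_insert_of_mem hl)
    have h2 : a.Prime := h a (mem_insert_self _ _)
    refine ⟨?_, h2.prime.squarefree, ih h1⟩
    apply Nat.Coprime.prod_right
    intro l hl
    exact (Nat.coprime_primes h2 (h1 l hl)).2 (fun hh => ha (hh ▸ hl))

private lemma prod_inj (T T' : Finset ℕ) (h : ∀ l ∈ T, l.Prime) (h' : ∀ l ∈ T', l.Prime)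
    (he : ∏ l ∈ T, l = ∏ l ∈ T', l) : T = T' := by
  rw [← Nat.primeFactors_prod h, ← Nat.primeFactors_prod h', he]

theorem r_err (h : U_BV) : U_err := by
  classical
  intro P hP A ε hε
  have hP0 : 1 ≤ P := by have := hP.2.2.1; omega
  filter_upwards [h A (2 * P) ε (by omega) hε] with X hX
  intro k S hkS hlev c hc
  set I : Finset ℕ := (Ioc S (9 * S)).filter Nat.Prime with hI
  set J : ℕ → Finset (Finset ℕ) := fun s =>
    (LL P k s).powerset.filter (fun T => ∏ l ∈ T, l ≤ lev 4 k) with hJ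
  set Ω : Finset (Σ _ : ℕ, Finset ℕ) := I.sigma J with hΩ
  set g : (Σ _ : ℕ, Finset ℕ) → ℕ := fun x => x.1 * ∏ l ∈ x.2, l with hg
  have hmem : ∀ x ∈ Ω, x.1.Prime ∧ S < x.1 ∧ x.1 ≤ 9 * S ∧ x.2 ⊆ LL P k x.1 ∧
      ∏ l ∈ x.2, l ≤ lev 4 k := by
    intro x hx
    rw [hΩ, mem_sigma] at hx
    obtain ⟨h1, h2⟩ := hx
    rw [hI, mem_filter, mem_Ioc] at h1
    simp only [hJ, mem_filter, mem_powerset] at h2
    exact ⟨h1.2, h1.1.1, h1.1.2, h2.1, h2.2⟩
  have hprime : ∀ x ∈ Ω, ∀ l ∈ x.2, l.Prime ∧ l < S := by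
    intro x hx l hl
    have h1 := LL_spec ((hmem x hx).2.2.2.1 hl)
    exact ⟨h1.1, lt_of_le_of_lt h1.2 hkS⟩
  have hinj : ∀ x ∈ Ω, ∀ y ∈ Ω, g x = g y → x = y := by
    intro x hx y hy hxy
    have hx1 := hmem x hx
    have hy1 := hmem y hy
    have hs : x.1 = y.1 := by
      have h1 : x.1 ∣ y.1 * ∏ l ∈ y.2, l := by
        have : x.1 ∣ g x := Dvd.intro _ rfl
        rwa [hxy] at this
      rcases (Nat.Prime.dvd_mul hx1.1).1 h1 with h2 | h2
      · exact (Nat.prime_dvd_prime_iff_eq hx1.1 hy1.1).1 h2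
      · exfalso
        obtain ⟨l, hl, h3⟩ := (Prime.dvd_finset_prod_iff hx1.1.prime _).1 h2
        have h4 := hprime y hy l hl
        have h5 := (Nat.prime_dvd_prime_iff_eq hx1.1 h4.1).1 h3
        omega
    have ht : ∏ l ∈ x.2, l = ∏ l ∈ y.2, l := by
      have h1 : x.1 * ∏ l ∈ x.2, l = x.1 * ∏ l ∈ y.2, l := by
        have : x.1 * ∏ l ∈ x.2, l = y.1 * ∏ l ∈ y.2, l := hxy
        rw [this, hs]
      exact Nat.eq_of_mul_eq_mul_left hx1.1.pos h1
    have ht' := prod_inj x.2 y.2 (fun l hl => (hprime x hx l hl).1)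
      (fun l hl => (hprime y hy l hl).1) ht
    obtain ⟨x1, x2⟩ := x
    obtain ⟨y1, y2⟩ := y
    simp only at hs ht'
    rw [hs, ht']
  set a : ℕ → ℕ := fun q => if h : ∃ x ∈ Ω, g x = q then c h.choose.1 h.choose.2 else 1 with ha
  have hag : ∀ x ∈ Ω, a (g x) = c x.1 x.2 := by
    intro x hx
    have hex : ∃ y ∈ Ω, g y = g x := ⟨x, hx, rfl⟩
    have h1 : a (g x) = c hex.choose.1 hex.choose.2 := by
      rw [ha]; exact dif_pos hex
    have h2 : hex.choose = x := hinj _ hex.choose_spec.1 x hx hex.choose_spec.2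
    rw [h1, h2]
  have hcop : ∀ q, (a q).Coprime (2 * P * q) := by
    intro q
    by_cases hex : ∃ x ∈ Ω, g x = q
    · obtain ⟨x, hx, rfl⟩ := hex
      rw [hag x hx]
      have h1 := hmem x hx
      exact hc x.1 h1.1 h1.2.1 h1.2.2.1 x.2 h1.2.2.2.1
    · have : a q = 1 := by rw [ha]; exact dif_neg hex
      rw [this]; exact Nat.coprime_one_left _
  have hsub : Ω.image g ⊆ (Icc 1 ⌊X ^ (1 / 2 - ε : ℝ)⌋₊).filter Squarefree := by
    intro q hq
    obtain ⟨x, hx, rfl⟩ := mem_image.1 hq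
    have h1 := hmem x hx
    have hpos : 0 < ∏ l ∈ x.2, l := prod_pos fun l hl => (hprime x hx l hl).1.pos
    rw [mem_filter, mem_Icc]
    refine ⟨⟨Nat.mul_pos h1.1.pos hpos, ?_⟩, ?_⟩
    · apply Nat.le_floor
      refine le_trans ?_ hlev
      have : g x ≤ 9 * S * lev 4 k := Nat.mul_le_mul h1.2.2.1 h1.2.2.2.2
      exact_mod_cast this
    · show Squarefree (x.1 * ∏ l ∈ x.2, l)
      rw [Nat.squarefree_mul_iff]
      refine ⟨?_, h1.1.prime.squarefree, prod_sqf _ fun l hl => (hprime x hx l hl).1⟩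
      apply Nat.Coprime.prod_right
      intro l hl
      have h2 := hprime x hx l hl
      refine (Nat.coprime_primes h1.1 h2.1).2 ?_
      have := h1.2.1
      omega
  calc ∑ s ∈ I, ∑ T ∈ J s, ER X (2 * P * (s * ∏ l ∈ T, l)) (c s T)
      = ∑ x ∈ Ω, ER X (2 * P * (x.1 * ∏ l ∈ x.2, l)) (c x.1 x.2) := by
        rw [hΩ, sum_sigma]
    _ = ∑ x ∈ Ω, ER X (2 * P * g x) (a (g x)) := by
        refine sum_congr rfl fun x hx => ?_
        rw [hag x hx]
    _ = ∑ q ∈ Ω.image g, ER X (2 * P * q) (a q) := by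
        rw [sum_image]
        intro x hx y hy hxy
        exact hinj x hx y hy hxy
    _ ≤ ∑ q ∈ (Icc 1 ⌊X ^ (1 / 2 - ε : ℝ)⌋₊).filter Squarefree, ER X (2 * P * q) (a q) :=
        sum_le_sum_of_subset_of_nonneg hsub fun q _ _ => ER_nonneg _ _ _
    _ ≤ X / (Real.log X) ^ A := hX a hcop

end Pool.Agent.APC
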