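import Pool.Agent.Lib.MP_e0f8f3_nt.DefsC

set_option autoImplicit false

/-! The choice of the parameters. -/

namespace Pool.Agent.APC

open Finset Filter
open Pool.Agent.BVall

private lemma upar_lev : ∃ C0 : ℕ, ∀ k : ℕ, lev 4 k = C0 * (2 ^ 2 ^ (4 + k)) ^ 70 := by
  refine ⟨∏ p ∈ Pool.Agent.Lib.MP_0da313_nt.small 4, p, fun k => ?_⟩
  unfold lev
  rw [← pow_mul]

/-- the growth conditions used below -/
private lemma upar_growth (ε M C : ℝ) (hε : 0 < ε) : ∀ᶠ x : ℝ in atTop,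
    1 ≤ x ∧ M ≤ Real.log x ∧ |M| + 65540 ≤ x ^ (1 / 4 : ℝ) ∧ C ≤ x ^ (ε / 16) ∧ 9 ≤ x ^ (ε / 4) ∧
    2 * (|M| + 1) ≤ x ^ (ε / 4) ∧ Real.log x ≤ x ^ (ε / 80) := by
  have h1 : ∀ᶠ x : ℝ in atTop, 1 ≤ x := eventually_ge_atTop 1
  have h2 : ∀ᶠ x : ℝ in atTop, M ≤ Real.log x := Real.tendsto_log_atTop.eventually_ge_atTop M
  have h3 : ∀ᶠ x : ℝ in atTop, |M| + 65540 ≤ x ^ (1 / 4 : ℝ) :=
    (tendsto_rpow_atTop (by norm_num : (0 : ℝ) < 1 / 4)).eventually_ge_atTop _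
  have h4 : ∀ᶠ x : ℝ in atTop, C ≤ x ^ (ε / 16) :=
    (tendsto_rpow_atTop (by positivity : (0 : ℝ) < ε / 16)).eventually_ge_atTop _
  have h5 : ∀ᶠ x : ℝ in atTop, 9 ≤ x ^ (ε / 4) :=
    (tendsto_rpow_atTop (by positivity : (0 : ℝ) < ε / 4)).eventually_ge_atTop _
  have h6 : ∀ᶠ x : ℝ in atTop, 2 * (|M| + 1) ≤ x ^ (ε / 4) :=
    (tendsto_rpow_atTop (by positivity : (0 : ℝ) < ε / 4)).eventually_ge_atTop _
  have h7 : ∀ᶠ x : ℝ in atTop, Real.log x ≤ x ^ (ε / 80) := by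
    have h := (isLittleO_log_rpow_atTop (by positivity : (0 : ℝ) < ε / 80)).bound
      (by norm_num : (0 : ℝ) < 1)
    filter_upwards [h, eventually_ge_atTop (1 : ℝ)] with x hx hx1
    rw [Real.norm_eq_abs, Real.norm_eq_abs, one_mul, abs_of_nonneg (Real.log_nonneg hx1),
      abs_of_nonneg (Real.rpow_nonneg (by linarith) _)] at hx
    exact hx
  filter_upwards [h1, h2, h3, h4, h5, h6, h7] with x a1 a2 a3 a4 a5 a6 a7
  exact ⟨a1, a2, a3, a4, a5, a6, a7⟩

theorem r_par : U_par := by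
  intro ε M hε hε1
  obtain ⟨C0, hC0⟩ := upar_lev
  obtain ⟨K, hK⟩ := exists_nat_ge (1120 / ε)
  have hK0 : (1120 : ℝ) ≤ ε * K := by
    rw [div_le_iff₀ hε] at hK
    linarith
  have hKpos : (0 : ℝ) < K := by
    by_contra hcon
    have h1 : ε * (K : ℝ) ≤ 0 := mul_nonpos_of_nonneg_of_nonpos hε.le (not_lt.1 hcon)
    linarith
  have hK1120 : (1120 : ℝ) ≤ K := by nlinarith
  obtain ⟨n0, hn0⟩ := eventually_atTop.1
    (tendsto_natCast_atTop_atTop.eventually (upar_growth ε M (108 * C0) hε))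
  refine ⟨K, n0, fun n k hn hY => ?_⟩
  obtain ⟨g1, g2, g3, g4, g5, g6, g7⟩ := hn0 n hn
  set x : ℝ := (n : ℝ) with hx
  have hx0 : 0 < x := by linarith
  set y : ℝ := x ^ (1 - ε / 2) with hy
  have hy0 : 0 < y := Real.rpow_pos_of_pos hx0 _
  -- `y` is at least `x ^ (1/2)`, which is at least `16 x ^ (1/4)`
  have hxq : 1 ≤ x ^ (1 / 4 : ℝ) := by have := abs_nonneg M; linarith
  have hyq : x ^ (1 / 4 : ℝ) * x ^ (1 / 4 : ℝ) ≤ y := by
    rw [← Real.rpow_add hx0, hy]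
    exact Real.rpow_le_rpow_of_exponent_le g1 (by linarith)
  have hylarge : 65540 * x ^ (1 / 4 : ℝ) ≤ y := by
    refine le_trans ?_ hyq
    have := abs_nonneg M
    exact mul_le_mul_of_nonneg_right (by linarith) (by linarith)
  have hyx : y ≤ x := by
    calc y ≤ x ^ (1 : ℝ) := Real.rpow_le_rpow_of_exponent_le g1 (by linarith)
      _ = x := Real.rpow_one x
  set S : ℕ := ⌊y⌋₊ with hS
  have hSy : (S : ℝ) ≤ y := Nat.floor_le hy0.le
  have hyS : y < S + 1 := Nat.lt_floor_add_one y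
  have hS2 : y / 2 ≤ S := by linarith
  have hSq : x ^ (1 / 4 : ℝ) < S := by linarith
  -- the power `Y`
  set Y : ℕ := 2 ^ 2 ^ (4 + k) with hYdef
  have hY1 : (1 : ℝ) ≤ Y := by
    rw [hYdef]
    exact_mod_cast Nat.one_le_two_pow
  have hYK : (Y : ℝ) ^ K ≤ x := by
    rw [hx]
    exact_mod_cast hY
  have hYr : ∀ m : ℕ, (Y : ℝ) ^ m ≤ x ^ ((m : ℝ) / K) := by
    intro m
    have e1 : (Y : ℝ) ^ m = ((Y : ℝ) ^ K) ^ ((m : ℝ) / K) := by
      rw [← Real.rpow_natCast (Y : ℝ) m, ← Real.rpow_natCast (Y : ℝ) K,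
        ← Real.rpow_mul (by linarith)]
      congr 1
      field_simp
    rw [e1]
    exact Real.rpow_le_rpow (by positivity) hYK (by positivity)
  have hY70 : (Y : ℝ) ^ 70 ≤ x ^ (ε / 16) := by
    refine (hYr 70).trans (Real.rpow_le_rpow_of_exponent_le g1 ?_)
    rw [div_le_div_iff₀ hKpos (by norm_num)]
    push_cast
    linarith
  have hYS : (Y : ℝ) < S := by
    have h1 := hYr 1
    rw [pow_one] at h1
    refine lt_of_le_of_lt (h1.trans (Real.rpow_le_rpow_of_exponent_le g1 ?_)) hSq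
    rw [div_le_div_iff₀ hKpos (by norm_num)]
    push_cast
    linarith
  have hlog0 : 0 ≤ Real.log x := Real.log_nonneg g1
  refine ⟨S, ?_, g2, ?_, ?_, ?_, ?_, ?_, ?_, ?_, ?_⟩
  · have := le_abs_self M
    linarith
  · have h1 : (65536 : ℝ) < S := by
      have := abs_nonneg M
      linarith
    exact_mod_cast h1
  · exact_mod_cast hYS
  · -- the level
    have e1 : ((9 * S * lev 4 k : ℕ) : ℝ) = 9 * S * (C0 * (Y : ℝ) ^ 70) := by
      rw [hC0 k]
      push_cast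
      rw [hYdef]
      push_cast
      ring
    rw [e1]
    have hC0n : (0 : ℝ) ≤ C0 := Nat.cast_nonneg _
    have h1 : 9 * (S : ℝ) * (C0 * (Y : ℝ) ^ 70) ≤ 9 * y * (C0 * x ^ (ε / 16)) := by
      have h9 : (0 : ℝ) ≤ C0 * (Y : ℝ) ^ 70 := mul_nonneg hC0n (pow_nonneg (by linarith) 70)
      exact mul_le_mul (by linarith) (mul_le_mul_of_nonneg_left hY70 hC0n) h9
        (by linarith)
    have hr0 : 0 ≤ 1 / 2 - ε / 16 := by linarith
    have h2 : (x * y / 12) ^ (1 / 2 - ε / 16 : ℝ) ≤ (x * S / 6) ^ (1 / 2 - ε / 16 : ℝ) := by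
      apply Real.rpow_le_rpow (by positivity) _ hr0
      have h3 : x * (y / 2) ≤ x * S := mul_le_mul_of_nonneg_left hS2 hx0.le
      linarith
    have h3 : x * y = x ^ (2 - ε / 2) := by
      rw [hy, show (2 - ε / 2 : ℝ) = 1 + (1 - ε / 2) by ring, Real.rpow_add hx0, Real.rpow_one]
    have h4 : x ^ (1 - 3 * ε / 8) / 12 ≤ (x * y / 12) ^ (1 / 2 - ε / 16 : ℝ) := by
      rw [Real.div_rpow (by positivity) (by norm_num), h3, ← Real.rpow_mul hx0.le]
      have h5 : x ^ (1 - 3 * ε / 8) ≤ x ^ ((2 - ε / 2) * (1 / 2 - ε / 16)) := by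
        apply Real.rpow_le_rpow_of_exponent_le g1
        nlinarith [sq_nonneg ε]
      have h6 : (12 : ℝ) ^ (1 / 2 - ε / 16 : ℝ) ≤ 12 := by
        calc (12 : ℝ) ^ (1 / 2 - ε / 16 : ℝ) ≤ (12 : ℝ) ^ (1 : ℝ) :=
              Real.rpow_le_rpow_of_exponent_le (by norm_num) (by linarith)
          _ = 12 := Real.rpow_one _
      have h7 : (0 : ℝ) < (12 : ℝ) ^ (1 / 2 - ε / 16 : ℝ) := Real.rpow_pos_of_pos (by norm_num) _
      exact div_le_div₀ (by positivity) h5 h7 h6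
    have h5 : 9 * y * (C0 * x ^ (ε / 16)) ≤ x ^ (1 - 3 * ε / 8) / 12 := by
      have h6 : x ^ (1 - 3 * ε / 8) = y * x ^ (ε / 16) * x ^ (ε / 16) := by
        rw [hy, ← Real.rpow_add hx0, ← Real.rpow_add hx0]
        congr 1
        ring
      rw [h6]
      have h7 : y * x ^ (ε / 16) * (108 * C0) ≤ y * x ^ (ε / 16) * x ^ (ε / 16) :=
        mul_le_mul_of_nonneg_left g4 (by positivity)
      linarith
    exact (h1.trans h5).trans (h4.trans h2)
  · -- `9 S ≤ n ^ (1 - ε / 4)`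
    have h1 : x ^ (1 - ε / 4) = x ^ (ε / 4) * y := by
      rw [hy, ← Real.rpow_add hx0]
      congr 1
      ring
    rw [h1]
    calc 9 * (S : ℝ) ≤ 9 * y := by linarith
      _ ≤ x ^ (ε / 4) * y := mul_le_mul_of_nonneg_right g5 hy0.le
  · -- `M n ^ (1 - ε) log n ≤ S`
    have h1 : y = x ^ (ε / 4) * x ^ (ε / 4) * x ^ (1 - ε) := by
      rw [hy, ← Real.rpow_add hx0, ← Real.rpow_add hx0]
      congr 1
      ring
    have h2 : Real.log x ≤ x ^ (ε / 4) :=
      g7.trans (Real.rpow_le_rpow_of_exponent_le g1 (by linarith))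
    have h3 : 2 * M ≤ x ^ (ε / 4) := by
      have := le_abs_self M
      linarith
    have h0 : 0 ≤ x ^ (1 - ε) := Real.rpow_nonneg hx0.le _
    have h4 : 2 * M * Real.log x ≤ x ^ (ε / 4) * x ^ (ε / 4) :=
      mul_le_mul h3 h2 hlog0 (Real.rpow_nonneg hx0.le _)
    have h5 : 2 * M * Real.log x * x ^ (1 - ε) ≤ y := by
      rw [h1]
      exact mul_le_mul_of_nonneg_right h4 h0
    have h6 : M * x ^ (1 - ε) * Real.log x = (2 * M * Real.log x * x ^ (1 - ε)) / 2 := by ring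
    rw [h6]
    linarith
  · -- `M S (log n) ^ 20 ≤ n`
    have h1 : Real.log x ^ 20 ≤ x ^ (ε / 4) := by
      calc Real.log x ^ 20 ≤ (x ^ (ε / 80)) ^ 20 := pow_le_pow_left₀ hlog0 g7 20
        _ = x ^ (ε / 4) := by
          rw [← Real.rpow_natCast, ← Real.rpow_mul hx0.le]
          congr 1
          push_cast
          ring
    have h2 : |M| ≤ x ^ (ε / 4) := by
      have := abs_nonneg M
      linarith
    have h3 : x = x ^ (ε / 4) * y * x ^ (ε / 4) := by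
      rw [hy, ← Real.rpow_add hx0, ← Real.rpow_add hx0]
      rw [show ε / 4 + (1 - ε / 2) + ε / 4 = (1 : ℝ) by ring, Real.rpow_one]
    calc M * S * Real.log x ^ 20 ≤ |M| * S * Real.log x ^ 20 := by
          apply mul_le_mul_of_nonneg_right _ (by positivity)
          exact mul_le_mul_of_nonneg_right (le_abs_self M) (Nat.cast_nonneg _)
      _ ≤ x ^ (ε / 4) * y * x ^ (ε / 4) := by
          apply mul_le_mul _ h1 (by positivity) (by positivity)
          exact mul_le_mul h2 hSy (Nat.cast_nonneg _) (Real.rpow_nonneg hx0.le _)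
      _ = x := h3.symm
  · -- `2 ^ k ≤ log n`
    have h1 : Real.log ((Y : ℝ) ^ K) ≤ Real.log x := Real.log_le_log (by positivity) hYK
    have h2 : Real.log ((Y : ℝ) ^ K) = K * (2 ^ (4 + k) * Real.log 2) := by
      rw [Real.log_pow, hYdef]
      push_cast
      rw [Real.log_pow]
      push_cast
      ring
    rw [h2] at h1
    refine le_trans ?_ h1
    have h3 := Real.log_two_gt_d9
    have h4 : (2 : ℝ) ^ (4 + k) = 16 * 2 ^ k := by
      rw [pow_add]
      norm_num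
    rw [h4]
    have h5 : (0 : ℝ) < 2 ^ k := by positivity
    have h6 : (1 : ℝ) ≤ K * (16 * Real.log 2) := by nlinarith
    calc (2 : ℝ) ^ k = 1 * 2 ^ k := by ring
      _ ≤ K * (16 * Real.log 2) * 2 ^ k := mul_le_mul_of_nonneg_right h6 h5.le
      _ = K * (16 * 2 ^ k * Real.log 2) := by ring
  · have h1 : (S : ℝ) ≤ x := hSy.trans hyx
    rw [hx] at h1
    exact_mod_cast h1

end Pool.Agent.APC
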