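import Mathlib
import Pool.Agent.Lib.MP_e0f8f3_nt.DefsC

set_option autoImplicit false

/-!
Many primes in `(S, 9 S]`.
-/

namespace Pool.Agent.APC

open Finset Filter
open Pool.Agent.BVall

private lemma fw_le (S n : ℕ) (hS : 1 ≤ S) (hn : n ∈ Icc 1 (9 * S)) :
    fw (3 * S) n ≤ if S < n ∧ n.Prime then Real.log (9 * S) else 0 := by
  rw [mem_Icc] at hn
  have hSr : (1 : ℝ) ≤ S := by exact_mod_cast hS
  have hn0 : (0 : ℝ) < n := by exact_mod_cast hn.1
  have hn1 : (1 : ℝ) ≤ n := by exact_mod_cast hn.1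
  have hn9 : (n : ℝ) ≤ 9 * S := by exact_mod_cast hn.2
  unfold fw
  by_cases hp : n.Prime
  · rw [if_pos hp]
    by_cases hs : S < n
    · rw [if_pos ⟨hs, hp⟩]
      have h1 : max 0 (1 - |Real.log (n / (3 * S))|) ≤ 1 := by
        apply max_le zero_le_one
        have := abs_nonneg (Real.log (n / (3 * S)))
        linarith
      have h2 : 0 ≤ Real.log n := Real.log_nonneg hn1
      calc Real.log n * max 0 (1 - |Real.log (n / (3 * S))|) ≤ Real.log n * 1 :=
            mul_le_mul_of_nonneg_left h1 h2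
        _ = Real.log n := mul_one _
        _ ≤ Real.log (9 * S) := Real.log_le_log hn0 hn9
    · rw [if_neg (fun h => hs h.1)]
      have hle : (n : ℝ) ≤ S := by exact_mod_cast Nat.le_of_not_lt hs
      have h3 : (n : ℝ) / (3 * S) ≤ 1 / 3 := by
        rw [div_le_iff₀ (by positivity)]
        linarith
      have h4 : Real.log (n / (3 * S)) ≤ -1 := by
        have h5 : (n : ℝ) / (3 * S) ≤ Real.exp (-1) := by
          refine h3.trans ?_
          rw [Real.exp_neg, one_div]
          apply inv_anti₀ (Real.exp_pos 1)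
          have := Real.exp_one_lt_d9
          linarith
        have h6 : 0 < (n : ℝ) / (3 * S) := by positivity
        calc Real.log (n / (3 * S)) ≤ Real.log (Real.exp (-1)) := Real.log_le_log h6 h5
          _ = -1 := Real.log_exp _
      have h7 : max 0 (1 - |Real.log (n / (3 * S))|) = 0 := by
        apply max_eq_left
        have := neg_le_abs (Real.log (n / (3 * S)))
        linarith
      rw [h7, mul_zero]
  · rw [if_neg hp, if_neg (fun h => hp h.2), zero_mul]

theorem r_prs (h : U_M1) : U_prs := by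
  obtain ⟨c, hc, h⟩ := h
  refine ⟨c, hc, ?_⟩
  have h1 : Tendsto (fun S : ℕ => (3 * S : ℝ)) atTop atTop :=
    tendsto_natCast_atTop_atTop.const_mul_atTop (by norm_num)
  filter_upwards [h1.eventually h, eventually_ge_atTop 9] with S hS hS9
  have hSr : (9 : ℝ) ≤ S := by exact_mod_cast hS9
  have hf : ⌊3 * (3 * (S : ℝ))⌋₊ = 9 * S := by
    rw [show 3 * (3 * (S : ℝ)) = ((9 * S : ℕ) : ℝ) by push_cast; ring]
    exact Nat.floor_natCast _
  have h2 : TT (3 * S) ≤ (((Ioc S (9 * S)).filter Nat.Prime).card : ℝ) * Real.log (9 * S) := by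
    unfold TT
    rw [hf]
    calc ∑ n ∈ Icc 1 (9 * S), fw (3 * S) n
        ≤ ∑ n ∈ Icc 1 (9 * S), if S < n ∧ n.Prime then Real.log (9 * S) else 0 :=
          sum_le_sum fun n hn => fw_le S n (by omega) hn
      _ = ∑ n ∈ (Icc 1 (9 * S)).filter (fun n => S < n ∧ n.Prime), Real.log (9 * S) := by
          rw [sum_filter]
      _ = (((Ioc S (9 * S)).filter Nat.Prime).card : ℝ) * Real.log (9 * S) := by
          rw [sum_const, nsmul_eq_mul]
          congr 3
          ext n
          simp only [mem_filter, mem_Icc, mem_Ioc]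
          constructor
          · rintro ⟨⟨_, h1⟩, h2, h3⟩
            exact ⟨⟨h2, h1⟩, h3⟩
          · rintro ⟨⟨h2, h1⟩, h3⟩
            exact ⟨⟨by omega, h1⟩, h2, h3⟩
  have hlog : 0 < Real.log S := Real.log_pos (by linarith)
  have h3 : Real.log (9 * S) ≤ 2 * Real.log S := by
    rw [Real.log_mul (by norm_num) (by linarith)]
    have : Real.log 9 ≤ Real.log S := Real.log_le_log (by norm_num) hSr
    linarith
  set K : ℝ := (((Ioc S (9 * S)).filter Nat.Prime).card : ℝ) with hK
  have hK0 : 0 ≤ K := Nat.cast_nonneg _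
  rw [div_le_iff₀ hlog]
  have h4 : K * Real.log (9 * S) ≤ K * (2 * Real.log S) := mul_le_mul_of_nonneg_left h3 hK0
  have h5 : c * (3 * S) ≤ K * (2 * Real.log S) := hS.trans (h2.trans h4)
  have h6 : 0 ≤ K * Real.log S := by positivity
  nlinarith

end Pool.Agent.APC
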