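import Mathlib
import Pool.Agent.Lib.MP_e0f8f3_nt.DefsC

set_option autoImplicit false

namespace Pool.Agent.APC

open Finset Filter
open Pool.Agent.BVall
open Pool.Agent.Lib.MP_0da313_nt

private lemma usv_fw_nonneg (X : ℝ) (n : ℕ) : 0 ≤ fw X n := by
  unfold fw
  apply mul_nonneg
  · split_ifs with h
    · exact Real.log_nonneg (by exact_mod_cast h.one_le)
    · exact le_rfl
  · exact le_max_left _ _

private lemma usv_TT_nonneg (X : ℝ) : 0 ≤ TT X :=
  Finset.sum_nonneg fun n _ => usv_fw_nonneg X n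

private lemma usv_LL {P k s l : ℕ} (h : l ∈ LL P k s) :
    l.Prime ∧ l ≤ 2 ^ 2 ^ (4 + k) ∧ 65536 < l ∧ ¬ l ∣ s + 2 * P := by
  unfold LL at h
  rw [Finset.mem_filter, mem_PK] at h
  exact ⟨h.1.1, h.1.2, h.2.1, h.2.2⟩

private lemma usv_sub (P k s : ℕ) : LL P k s ⊆ PK 4 k := Finset.filter_subset _ _

private lemma usv_dens (P k s : ℕ) :
    Dens 4 (fun l => if l ∈ LL P k s then 1 / ((l : ℝ) - 1) else 0) := by
  have key : ∀ l ∈ LL P k s, (4 : ℝ) ≤ l := by
    intro l hl
    have h1 := (usv_LL hl).2.2.1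
    have h2 : 4 ≤ l := by omega
    exact_mod_cast h2
  constructor
  · intro p
    beta_reduce
    split_ifs with h
    · have := key p h
      apply div_nonneg zero_le_one
      linarith
    · exact le_rfl
  · intro p hp
    beta_reduce
    have hp2 : (2 : ℝ) ≤ p := by exact_mod_cast hp.two_le
    have h2 : (1 : ℝ) / p ≤ 1 / 2 := one_div_le_one_div_of_le (by norm_num) hp2
    split_ifs with h
    · have h4 := key p h
      have h3 : (1 : ℝ) / ((p : ℝ) - 1) ≤ 1 / 2 :=
        one_div_le_one_div_of_le (by norm_num) (by linarith)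
      linarith
    · linarith
  · intro p hp
    beta_reduce
    have hp2 : (2 : ℝ) ≤ p := by exact_mod_cast hp.two_le
    split_ifs with h
    · have h4 := key p h
      rw [div_le_div_iff₀ (by linarith) (by linarith)]
      push_cast
      linarith
    · positivity

/-- the totient -/
private lemma usv_tot {P k s : ℕ} (hP : IsP P) (hs : s.Prime) (hks : 2 ^ 2 ^ (4 + k) < s) :
    ∀ T : Finset ℕ, T ⊆ LL P k s →
    (Nat.totient (2 * P * (s * ∏ l ∈ T, l)) : ℝ) =
      (Nat.totient (2 * P * s) : ℝ) * ∏ l ∈ T, ((l : ℝ) - 1) := by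
  intro T
  induction T using Finset.induction_on with
  | empty => intro _; simp
  | insert a T ha ih =>
    intro hT
    have hTs : T ⊆ LL P k s := fun x hx => hT (Finset.mem_insert_of_mem hx)
    have haL := usv_LL (hT (Finset.mem_insert_self a T))
    have hcop : (2 * P * (s * ∏ l ∈ T, l)).Coprime a := by
      rw [Nat.coprime_comm, Nat.Prime.coprime_iff_not_dvd haL.1]
      intro hd
      rcases (haL.1.dvd_mul).1 hd with h | h
      · rcases (haL.1.dvd_mul).1 h with h | h
        · have := Nat.le_of_dvd (by norm_num) h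
          omega
        · have := hP.2.2.2.1 a haL.1 h
          omega
      · rcases (haL.1.dvd_mul).1 h with h | h
        · have h1 := (Nat.prime_dvd_prime_iff_eq haL.1 hs).1 h
          omega
        · rw [Prime.dvd_finset_prod_iff haL.1.prime] at h
          obtain ⟨b, hb, hab⟩ := h
          have h1 := (Nat.prime_dvd_prime_iff_eq haL.1 (usv_LL (hTs hb)).1).1 hab
          exact ha (h1 ▸ hb)
    rw [Finset.prod_insert ha, Finset.prod_insert ha]
    rw [show 2 * P * (s * (a * ∏ l ∈ T, l)) = 2 * P * (s * ∏ l ∈ T, l) * a by ring,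
      Nat.totient_mul hcop, Nat.totient_prime haL.1, Nat.cast_mul, ih hTs,
      Nat.cast_sub haL.1.one_le, Nat.cast_one]
    ring

theorem r_sv : U_sv := by
  classical
  refine ⟨1 / 2 * ∏ p ∈ small 4, (1 / (p : ℝ)), ?_, ?_⟩
  · apply mul_pos (by norm_num)
    apply Finset.prod_pos
    intro p hp
    have hpp : p.Prime := (Finset.mem_filter.mp hp).2
    have : (0 : ℝ) < p := by exact_mod_cast hpp.pos
    positivity
  intro P hP k s X hX hs hks c hc
  set L := LL P k s with hL
  set ρ : ℕ → ℝ := fun l => if l ∈ L then 1 / ((l : ℝ) - 1) else 0 with hρ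
  have hD : Dens 4 ρ := usv_dens P k s
  set M := ⌊3 * X⌋₊ with hM
  set S := (Icc 1 M).filter (fun n => (n + 1) % (2 * P * s) = 0) with hS
  set X' := TT X / (Nat.totient (2 * P * s) : ℝ) with hX'
  have hX'0 : 0 ≤ X' := div_nonneg (usv_TT_nonneg X) (Nat.cast_nonneg _)
  have hmain := sieve_lower hD k S (fun n => fw X n) (fun n _ => usv_fw_nonneg X n)
    (fun l n => l ∈ L ∧ ((s + 2 * P) * ((n + 1) / s)) % l = 1) hX'0
    (fun T => if T ⊆ L then ER X (2 * P * (s * ∏ l ∈ T, l)) (c T) else 0) (by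
      intro T hT _
      beta_reduce
      by_cases hTL : T ⊆ L
      · rw [if_pos hTL]
        obtain ⟨_, hcT⟩ := hc T hTL
        unfold ER
        apply le_of_eq
        congr 1
        congr 1
        · rw [hS, Finset.sum_filter, Finset.sum_filter]
          apply Finset.sum_congr rfl
          intro n _
          rw [Finset.prod_ite_zero]
          simp only [Finset.prod_const_one]
          by_cases h1 : (n + 1) % (2 * P * s) = 0
          · rw [if_pos h1]
            by_cases h2 : ∀ l ∈ T, ((s + 2 * P) * ((n + 1) / s)) % l = 1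
            · rw [if_pos (fun l hl => ⟨hTL hl, h2 l hl⟩), if_pos ((hcT n).2 ⟨h1, h2⟩), mul_one]
            · rw [if_neg (fun h => h2 (fun l hl => (h l hl).2)),
                if_neg (fun h => h2 ((hcT n).1 h).2), mul_zero]
          · rw [if_neg h1, if_neg (fun h => h1 ((hcT n).1 h).1)]
        · rw [usv_tot hP hs hks T hTL, hX', hρ]
          have h3 : ∏ p ∈ T, (if p ∈ L then 1 / ((p : ℝ) - 1) else 0) =
              ∏ p ∈ T, (1 / ((p : ℝ) - 1)) :=
            Finset.prod_congr rfl fun p hp => by rw [if_pos (hTL hp)]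
          rw [h3, Finset.prod_div_distrib, Finset.prod_const_one]
          rw [div_mul_div_comm, mul_one]
      · rw [if_neg hTL]
        obtain ⟨l, hl1, hl2⟩ := Finset.not_subset.1 hTL
        have h1 : ∏ p ∈ T, ρ p = 0 := Finset.prod_eq_zero hl1 (by rw [hρ]; simp [hl2])
        have h2 : ∀ n ∈ S, fw X n * ∏ p ∈ T,
            (if p ∈ L ∧ ((s + 2 * P) * ((n + 1) / s)) % p = 1 then (1 : ℝ) else 0) = 0 := by
          intro n _
          rw [Finset.prod_eq_zero hl1 (by simp [hl2]), mul_zero]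
        rw [Finset.sum_eq_zero h2, h1]
        simp)
  have hW := hD.W_PK k
  have e1 : ∑ T ∈ (PK 4 k).powerset.filter (fun T => ∏ p ∈ T, p ≤ lev 4 k),
      (if T ⊆ L then ER X (2 * P * (s * ∏ l ∈ T, l)) (c T) else 0) =
      ∑ T ∈ L.powerset.filter (fun T => ∏ l ∈ T, l ≤ lev 4 k),
        ER X (2 * P * (s * ∏ l ∈ T, l)) (c T) := by
    rw [← Finset.sum_filter]
    apply Finset.sum_congr _ (fun _ _ => rfl)
    ext T
    simp only [Finset.mem_filter, Finset.mem_powerset]
    constructor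
    · rintro ⟨⟨_, h2⟩, h3⟩
      exact ⟨h3, h2⟩
    · rintro ⟨h1, h2⟩
      exact ⟨⟨h1.trans (usv_sub P k s), h2⟩, h1⟩
  have e2 : S.filter (fun n => ∀ p ∈ PK 4 k, ¬ (p ∈ L ∧ ((s + 2 * P) * ((n + 1) / s)) % p = 1)) =
      (Icc 1 M).filter (fun n => (n + 1) % (2 * P * s) = 0 ∧
        ∀ l ∈ L, ((s + 2 * P) * ((n + 1) / s)) % l ≠ 1) := by
    rw [hS, Finset.filter_filter]
    ext n
    simp only [Finset.mem_filter]
    constructor
    · rintro ⟨h1, h2, h3⟩
      exact ⟨h1, h2, fun l hl h => h3 l (usv_sub P k s hl) ⟨hl, h⟩⟩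
    · rintro ⟨h1, h2, h3⟩
      exact ⟨h1, h2, fun l _ h => h3 l h.1 h.2⟩
  rw [e1] at hmain
  have h5 : 1 / 2 * (∏ p ∈ small 4, (1 / (p : ℝ))) * (1 / 2) ^ (16 * k) * X' ≤
      1 / 2 * X' * W ρ (PK 4 k) := by
    have h6 := mul_le_mul_of_nonneg_left hW (mul_nonneg (by norm_num : (0 : ℝ) ≤ 1 / 2) hX'0)
    have h7 : (4 * 4 * k) = 16 * k := by ring
    rw [h7] at h6
    calc 1 / 2 * (∏ p ∈ small 4, (1 / (p : ℝ))) * (1 / 2) ^ (16 * k) * X' =
        1 / 2 * X' * ((∏ p ∈ small 4, (1 / (p : ℝ))) * (1 / 2) ^ (16 * k)) := by ring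
      _ ≤ _ := h6
  have h8 : ∑ x ∈ S.filter (fun n => ∀ p ∈ PK 4 k,
      ¬ (p ∈ L ∧ ((s + 2 * P) * ((n + 1) / s)) % p = 1)), fw X x =
      ∑ n ∈ (Icc 1 M).filter (fun n => (n + 1) % (2 * P * s) = 0 ∧
        ∀ l ∈ L, ((s + 2 * P) * ((n + 1) / s)) % l ≠ 1), fw X n := by
    rw [e2]
  rw [← h8]
  refine le_trans (sub_le_sub_right h5 _) ?_
  exact hmain

end Pool.Agent.APC
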