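import Mathlib
import Pool.Agent.Lib.MP_e0f8f3_nt.DefsD

set_option autoImplicit false

/-! Properties of the order of the odd numbers. -/

namespace Pool.Agent.APC

open Finset
open Pool.Agent.BVall

private lemma yaa_ga_lt {P q H j : ℕ} (hP : 0 < P) (hq : 1 ≤ q) (hH : q * P ≤ H) (hj : j < H) :
    ga P q j < H := by
  unfold ga
  split_ifs with h
  · have h1 : j % q < q := Nat.mod_lt _ hq
    have h2 : j / q < P := by
      rw [Nat.div_lt_iff_lt_mul hq]
      rwa [mul_comm] at h
    have h3 : (j % q + 1) * P ≤ q * P := Nat.mul_le_mul_right _ h1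
    have h4 : (j % q + 1) * P = j % q * P + P := by ring
    omega
  · exact hj

private lemma yaa_ga_lt' {P q j : ℕ} (hq : 1 ≤ q) (h : j < q * P) :
    j % q * P + j / q < q * P := by
  have h1 : j % q < q := Nat.mod_lt _ hq
  have h2 : j / q < P := by
    rw [Nat.div_lt_iff_lt_mul hq]
    rwa [mul_comm] at h
  have h3 : (j % q + 1) * P ≤ q * P := Nat.mul_le_mul_right _ h1
  have h4 : (j % q + 1) * P = j % q * P + P := by ring
  omega

private lemma yaa_ga_inj {P q i j : ℕ} (hP : 0 < P) (hq : 1 ≤ q) (h : ga P q i = ga P q j) :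
    i = j := by
  unfold ga at h
  split_ifs at h with h1 h2 h2
  · have hi : i / q < P := by
      rw [Nat.div_lt_iff_lt_mul hq]
      rwa [mul_comm] at h1
    have hj : j / q < P := by
      rw [Nat.div_lt_iff_lt_mul hq]
      rwa [mul_comm] at h2
    have e1 : i / q = j / q := by
      have e := congrArg (· % P) h
      simp only [Nat.mul_add_mod_self_right] at e
      rwa [Nat.mod_eq_of_lt hi, Nat.mod_eq_of_lt hj] at e
    have e2 : i % q = j % q := by
      rw [e1] at h
      have h3 : i % q * P = j % q * P := by omega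
      exact Nat.eq_of_mul_eq_mul_right hP h3
    rw [← Nat.div_add_mod i q, ← Nat.div_add_mod j q, e1, e2]
  · have := yaa_ga_lt' hq h1
    omega
  · have := yaa_ga_lt' hq h2
    omega
  · exact h

private lemma yaa_aa_range {P q m j : ℕ} (hP : 0 < P) (hq : 1 ≤ q)
    (hH : q * P ≤ m) :
    1 ≤ aa P q m j ∧ aa P q m j ≤ 2 * m + 1 ∧ aa P q m j % 2 = 1 := by
  unfold aa
  split_ifs with h
  · have := yaa_ga_lt hP hq hH h
    omega
  · omega

private lemma yaa_aa_inj {P q m i j : ℕ} (hP : 0 < P) (hq : 1 ≤ q) (hi : i ≤ m) (hj : j ≤ m)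
    (h : aa P q m i = aa P q m j) : i = j := by
  unfold aa at h
  split_ifs at h with h1 h2 h2
  · exact yaa_ga_inj hP hq (by omega)
  · omega
  · omega
  · omega

private lemma yaa_surj {P q H u : ℕ} (hP : 0 < P) (hq : 1 ≤ q) (hH : q * P ≤ H) (hu : u < H) :
    ∃ x < H, ga P q x = u := by
  have h1 : (range H).image (ga P q) = range H := by
    apply Finset.eq_of_subset_of_card_le
    · intro y hy
      obtain ⟨x, hx, rfl⟩ := Finset.mem_image.mp hy
      exact Finset.mem_range.mpr (yaa_ga_lt hP hq hH (Finset.mem_range.mp hx))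
    · rw [Finset.card_image_of_injective _ (fun i j h => yaa_ga_inj hP hq h)]
  have h2 : u ∈ (range H).image (ga P q) := by
    rw [h1]
    exact Finset.mem_range.mpr hu
  obtain ⟨x, hx, h3⟩ := Finset.mem_image.mp h2
  exact ⟨x, Finset.mem_range.mp hx, h3⟩

theorem y_aa : Y_aa := by
  intro P q H hP hq hH
  refine ⟨?_, ?_, ?_, ?_, ?_, ?_⟩
  · intro j
    unfold aa
    split_ifs
    · exact ⟨1 + ga P q j, by ring⟩
    · exact odd_one
  · intro j _
    exact (yaa_aa_range hP hq hH).2.1
  · intro i hi j hj h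
    exact yaa_aa_inj hP hq hi hj h
  · unfold aa
    rw [if_neg (lt_irrefl H)]
  · intro h
    unfold aa ga
    rw [if_pos h]
    split_ifs
    · simp
    · rfl
  · intro u hu
    obtain ⟨x, hx, h1⟩ := yaa_surj hP hq hH (show u < H by omega)
    refine ⟨x, hx, ?_⟩
    unfold aa
    rw [if_pos hx, h1]

end Pool.Agent.APC
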