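import Mathlib
import Pool.Agent.Lib.MP_e0f8f3_nt.DefsD

set_option autoImplicit false

/-! Circular arrangement from an order of the odd numbers, even case. -/

namespace Pool.Agent.APC

open Finset Filter
open Pool.Agent.BVall

private def yEpi (o f : ℕ → ℕ) (i : ℕ) : ℕ := if i % 2 = 0 then o (i / 2) else 2 * f (i / 2)

private lemma yE_even (o f : ℕ → ℕ) {i : ℕ} (h : i % 2 = 0) : yEpi o f i = o (i / 2) := by
  unfold yEpi
  rw [if_pos h]

private lemma yE_odd (o f : ℕ → ℕ) {i : ℕ} (h : i % 2 ≠ 0) : yEpi o f i = 2 * f (i / 2) := by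
  unfold yEpi
  rw [if_neg h]

theorem y_cirE : Y_cirE := by
  intro m R o f hm hf hoi hinj
  have hlt : ∀ i < 2 * m, i / 2 < m := by
    intro i hi
    omega
  refine ⟨yEpi o f, ?_, ?_, ?_, ?_⟩
  · intro i hi
    obtain ⟨h1, h2, h3, h4, -, -⟩ := hf _ (hlt i hi)
    by_cases h : i % 2 = 0
    · rw [yE_even o f h]
      have := h1.pos
      omega
    · rw [yE_odd o f h]
      omega
  · intro i hi j hj hij
    obtain ⟨a1, -, -, -, -, -⟩ := hf _ (hlt i hi)
    obtain ⟨b1, -, -, -, -, -⟩ := hf _ (hlt j hj)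
    rw [Nat.odd_iff] at a1 b1
    by_cases h : i % 2 = 0 <;> by_cases h' : j % 2 = 0
    · rw [yE_even o f h, yE_even o f h'] at hij
      have := hoi _ (hlt i hi) _ (hlt j hj) hij
      omega
    · rw [yE_even o f h, yE_odd o f h'] at hij
      omega
    · rw [yE_odd o f h, yE_even o f h'] at hij
      omega
    · rw [yE_odd o f h, yE_odd o f h'] at hij
      have h3 := hinj _ (hlt i hi) _ (hlt j hj) (by omega)
      omega
  · intro i hi
    obtain ⟨-, -, -, -, h2, h3⟩ := hf _ (hlt i hi)
    by_cases h : i % 2 = 0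
    · have e1 : (i + 1) % (2 * m) = i + 1 := Nat.mod_eq_of_lt (by omega)
      have e2 : (i + 1) % 2 ≠ 0 := by omega
      have e3 : (i + 1) / 2 = i / 2 := by omega
      rw [e1, yE_even o f h, yE_odd o f e2, e3]
      exact h2
    · by_cases hl : i / 2 + 1 = m
      · have e1 : (i + 1) % (2 * m) = 0 := by
          have h4 : i + 1 = 2 * m := by omega
          rw [h4, Nat.mod_self]
        have e2 : (i / 2 + 1) % m = 0 := by rw [hl, Nat.mod_self]
        rw [e2] at h3
        rw [e1, yE_odd o f h, yE_even o f (i := 0) rfl]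
        exact h3
      · have e1 : (i + 1) % (2 * m) = i + 1 := Nat.mod_eq_of_lt (by omega)
        have e2 : (i + 1) % 2 = 0 := by omega
        have e3 : (i + 1) / 2 = i / 2 + 1 := by omega
        have e4 : (i / 2 + 1) % m = i / 2 + 1 := Nat.mod_eq_of_lt (by have := hlt i hi; omega)
        rw [e4] at h3
        rw [e1, yE_odd o f h, yE_even o f e2, e3]
        exact h3
  · intro j _
    have e1 : (2 * j) % 2 = 0 := by omega
    have e2 : (2 * j + 1) % 2 ≠ 0 := by omega
    have e3 : (2 * j) / 2 = j := by omega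
    have e4 : (2 * j + 1) / 2 = j := by omega
    refine ⟨?_, ?_⟩
    · rw [yE_even o f e1, e3]
    · rw [yE_odd o f e2, e4]

end Pool.Agent.APC
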