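import Mathlib
import Pool.Agent.Lib.MP_e0f8f3_nt.DefsD

set_option autoImplicit false

/-! Circular arrangement from an order of the odd numbers, odd case. -/

namespace Pool.Agent.APC

open Finset
open Pool.Agent.BVall

private def yOpi (o f : ℕ → ℕ) (i : ℕ) : ℕ :=
  if i % 2 = 0 then o (i / 2) else 2 * f (i / 2)

private lemma yO_even {o : ℕ → ℕ} (f : ℕ → ℕ) {i : ℕ} (h : i % 2 = 0) :
    yOpi o f i = o (i / 2) := by
  unfold yOpi
  rw [if_pos h]

private lemma yO_odd {o : ℕ → ℕ} (f : ℕ → ℕ) {i : ℕ} (h : i % 2 ≠ 0) :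
    yOpi o f i = 2 * f (i / 2) := by
  unfold yOpi
  rw [if_neg h]

theorem y_cirO : Y_cirO := by
  intro m R o f hm hR ho hf hoinj hinj
  have hle : ∀ i < 2 * m + 1, i / 2 ≤ m := by
    intro i hi
    omega
  refine ⟨yOpi o f, ?_, ?_, ?_, ?_, ?_⟩
  · intro i hi
    by_cases h : i % 2 = 0
    · rw [yO_even f h]
      obtain ⟨h1, h2⟩ := ho (i / 2) (hle i hi)
      rw [Nat.odd_iff] at h1
      omega
    · rw [yO_odd f h]
      have := hf (i / 2) (by omega)
      omega
  · intro i hi j hj hij
    have r1 := (ho (i / 2) (hle i hi)).1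
    have r2 := (ho (j / 2) (hle j hj)).1
    rw [Nat.odd_iff] at r1 r2
    by_cases h : i % 2 = 0 <;> by_cases h' : j % 2 = 0
    · rw [yO_even f h, yO_even f h'] at hij
      have := hoinj (i / 2) (hle i hi) (j / 2) (hle j hj) hij
      omega
    · rw [yO_even f h, yO_odd f h'] at hij
      omega
    · rw [yO_odd f h, yO_even f h'] at hij
      omega
    · rw [yO_odd f h, yO_odd f h'] at hij
      have h3 := hinj (i / 2) (by omega) (j / 2) (by omega) (by omega)
      omega
  · intro i hi
    by_cases h : i % 2 = 0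
    · by_cases hl : i + 1 = 2 * m + 1
      · have e1 : (i + 1) % (2 * m + 1) = 0 := by rw [hl, Nat.mod_self]
        have e2 : i / 2 = m := by omega
        have e3 : (0 : ℕ) / 2 = 0 := by omega
        rw [e1, yO_even f h, yO_even f (i := 0) rfl, e2, e3]
        exact hR
      · obtain ⟨-, -, h2, -⟩ := hf (i / 2) (by omega)
        have e1 : (i + 1) % (2 * m + 1) = i + 1 := Nat.mod_eq_of_lt (by omega)
        have e2 : (i + 1) % 2 ≠ 0 := by omega
        have e3 : (i + 1) / 2 = i / 2 := by omega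
        rw [e1, yO_even f h, yO_odd f e2, e3]
        exact h2
    · obtain ⟨-, -, -, h3⟩ := hf (i / 2) (by omega)
      have e1 : (i + 1) % (2 * m + 1) = i + 1 := Nat.mod_eq_of_lt (by omega)
      have e2 : (i + 1) % 2 = 0 := by omega
      have e3 : (i + 1) / 2 = i / 2 + 1 := by omega
      rw [e1, yO_odd f h, yO_even f e2, e3]
      exact h3
  · intro j hj
    have e1 : 2 * j / 2 = j := by omega
    rw [yO_even f (by omega), e1]
  · intro j hj
    have e2 : (2 * j + 1) / 2 = j := by omega
    rw [yO_odd f (by omega), e2]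

end Pool.Agent.APC
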