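import Mathlib
import Pool.Agent.Lib.MP_e0f8f3_nt.DefsD

set_option autoImplicit false

/-! Greedy matching. -/

namespace Pool.Agent.APC

open Finset Filter
open Pool.Agent.BVall

private lemma ygre_pick (U : Finset ℕ) (m : ℕ) (P : ℕ → Prop)
    (h : U.card < {v | v ∈ Icc 1 m ∧ P v}.ncard) : ∃ v, v ∈ Icc 1 m ∧ v ∉ U ∧ P v := by
  classical
  have h1 : {v | v ∈ Icc 1 m ∧ P v} = (((Icc 1 m).filter P : Finset ℕ) : Set ℕ) := by
    ext v
    simp
  rw [h1, Set.ncard_coe_finset] at h
  obtain ⟨v, hv, hvU⟩ := Finset.exists_mem_notMem_of_card_lt_card h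
  rw [Finset.mem_filter] at hv
  exact ⟨v, hv.1, hvU, hv.2⟩

theorem y_gre : Y_gre := by
  classical
  intro J
  induction J using Finset.induction_on with
  | empty =>
    intro U m G _
    exact ⟨fun _ => 0, by simp, by simp⟩
  | insert x0 J' hx0 ih =>
    intro U m G h
    have hc : (insert x0 J').card = J'.card + 1 := Finset.card_insert_of_notMem hx0
    have h0 := h x0 (Finset.mem_insert_self _ _)
    obtain ⟨v0, hv1, hv2, hv3⟩ := ygre_pick U m (G x0) (by omega)
    have hc2 : (insert v0 U).card = U.card + 1 := Finset.card_insert_of_notMem hv2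
    obtain ⟨g, hg1, hg2⟩ := ih (insert v0 U) m G (by
      intro x hx
      have := h x (Finset.mem_insert_of_mem hx)
      omega)
    refine ⟨fun x => if x = x0 then v0 else g x, ?_, ?_⟩
    · intro x hx
      by_cases hxx : x = x0
      · subst hxx
        simp only [if_true]
        exact ⟨hv1, hv2, hv3⟩
      · simp only [if_neg hxx]
        have hx' : x ∈ J' := (Finset.mem_insert.1 hx).resolve_left hxx
        obtain ⟨a1, a2, a3⟩ := hg1 x hx'
        exact ⟨a1, fun hU => a2 (Finset.mem_insert_of_mem hU), a3⟩
    · intro x hx y hy hxy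
      by_cases hxx : x = x0
      · by_cases hyy : y = x0
        · rw [hxx, hyy]
        · exfalso
          simp only [if_pos hxx, if_neg hyy] at hxy
          have hy' : y ∈ J' := (Finset.mem_insert.1 hy).resolve_left hyy
          exact (hg1 y hy').2.1 (by rw [← hxy]; exact Finset.mem_insert_self _ _)
      · have hx' : x ∈ J' := (Finset.mem_insert.1 hx).resolve_left hxx
        by_cases hyy : y = x0
        · exfalso
          simp only [if_neg hxx, if_pos hyy] at hxy
          exact (hg1 x hx').2.1 (by rw [hxy]; exact Finset.mem_insert_self _ _)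
        · have hy' : y ∈ J' := (Finset.mem_insert.1 hy).resolve_left hyy
          simp only [if_neg hxx, if_neg hyy] at hxy
          exact hg2 x hx' y hy' hxy
end Pool.Agent.APC
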