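import Pool.Agent.Lib.MP_e0f8f3_nt.DefsD

set_option autoImplicit false

/-! A long path in a dense bipartite graph. -/

namespace Pool.Agent.APC

open Finset Filter
open Pool.Agent.BVall

open Classical in
private lemma yg_ncard (B : Finset ℕ) (p : ℕ → Prop) :
    {b | b ∈ B ∧ p b}.ncard = (B.filter p).card := by
  rw [← Set.ncard_coe_finset]
  congr 1
  ext b
  simp

open Classical in
/-- number of edges -/
private noncomputable def yg_e (E : ℕ → ℕ → Prop) (A B : Finset ℕ) : ℕ :=
  ∑ a ∈ A, (B.filter (fun b => E a b)).card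

open Classical in
private lemma yg_e' (E : ℕ → ℕ → Prop) (A B : Finset ℕ) :
    yg_e E A B = ∑ b ∈ B, (A.filter (fun a => E a b)).card := by
  unfold yg_e
  exact sum_card_bipartiteAbove_eq_sum_card_bipartiteBelow E

open Classical in
/-- a subgraph with large degrees -/
private lemma yg_sub (A B : Finset ℕ) (E : ℕ → ℕ → Prop) (d D : ℕ) (hA : A.Nonempty) (hd : 1 ≤ d)
    (hD : 2 * d ≤ D) (hc : 2 * d * B.card ≤ D * A.card)
    (hdeg : ∀ a ∈ A, D ≤ (B.filter (fun b => E a b)).card) :
    ∃ A1 ⊆ A, ∃ B1 ⊆ B, A1.Nonempty ∧ (∀ a ∈ A1, d ≤ (B1.filter (fun b => E a b)).card) ∧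
      ∀ b ∈ B1, d ≤ (A1.filter (fun a => E a b)).card := by
  let f : Finset ℕ × Finset ℕ → ℤ := fun x =>
    2 * (yg_e E x.1 x.2 : ℤ) - D * x.1.card - (2 * d - 1) * x.2.card
  obtain ⟨⟨A1, B1⟩, hmem, hmax⟩ := exists_max_image (A.powerset ×ˢ B.powerset) f
    ⟨(A, B), mem_product.mpr ⟨mem_powerset_self A, mem_powerset_self B⟩⟩
  rw [mem_product, mem_powerset, mem_powerset] at hmem
  obtain ⟨hA1, hB1⟩ := hmem
  dsimp only at hA1 hB1
  have hpos : 0 < f (A, B) := by
    have h1 : D * A.card ≤ yg_e E A B := by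
      unfold yg_e
      calc D * A.card = ∑ a ∈ A, D := by rw [sum_const, smul_eq_mul, mul_comm]
        _ ≤ _ := sum_le_sum hdeg
    have h2 : 0 < B.card := by
      obtain ⟨a, ha⟩ := hA
      have h3 := hdeg a ha
      have h4 := card_filter_le B (fun b => E a b)
      omega
    have h1' : (D : ℤ) * A.card ≤ yg_e E A B := by exact_mod_cast h1
    have h2' : (0 : ℤ) < B.card := by exact_mod_cast h2
    have h3' : 2 * (d : ℤ) * B.card ≤ D * A.card := by exact_mod_cast hc
    show 0 < 2 * (yg_e E A B : ℤ) - D * A.card - (2 * d - 1) * B.card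
    nlinarith
  have hpos1 : 0 < f (A1, B1) := lt_of_lt_of_le hpos
    (hmax (A, B) (mem_product.mpr ⟨mem_powerset_self A, mem_powerset_self B⟩))
  have hd' : (1 : ℤ) ≤ d := by exact_mod_cast hd
  refine ⟨A1, hA1, B1, hB1, ?_, ?_, ?_⟩
  · rw [nonempty_iff_ne_empty]
    rintro rfl
    have h1 : (0 : ℤ) ≤ B1.card := by positivity
    have h2 : f (∅, B1) = - ((2 * d - 1) * B1.card) := by
      show 2 * (yg_e E ∅ B1 : ℤ) - D * (∅ : Finset ℕ).card - (2 * d - 1) * B1.card = _
      unfold yg_e
      simp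
    rw [h2] at hpos1
    nlinarith
  · intro a ha
    have h1 := hmax (A1.erase a, B1) (mem_product.mpr
      ⟨mem_powerset.mpr ((erase_subset _ _).trans hA1), mem_powerset.mpr hB1⟩)
    have h2 : yg_e E A1 B1 = (B1.filter (fun b => E a b)).card + yg_e E (A1.erase a) B1 := by
      unfold yg_e
      exact (add_sum_erase A1 _ ha).symm
    have h3 : (A1.erase a).card + 1 = A1.card := card_erase_add_one ha
    have h1' : 2 * (yg_e E (A1.erase a) B1 : ℤ) - D * (A1.erase a).card - (2 * d - 1) * B1.card ≤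
      2 * (yg_e E A1 B1 : ℤ) - D * A1.card - (2 * d - 1) * B1.card := h1
    rw [h2, ← h3] at h1'
    push_cast at h1'
    have h4 : (D : ℤ) ≤ 2 * ((B1.filter (fun b => E a b)).card : ℤ) := by linarith
    have h5 : D ≤ 2 * (B1.filter (fun b => E a b)).card := by exact_mod_cast h4
    omega
  · intro b hb
    have h1 := hmax (A1, B1.erase b) (mem_product.mpr
      ⟨mem_powerset.mpr hA1, mem_powerset.mpr ((erase_subset _ _).trans hB1)⟩)
    have h2 : yg_e E A1 B1 = (A1.filter (fun a => E a b)).card + yg_e E A1 (B1.erase b) := by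
      rw [yg_e', yg_e']
      exact (add_sum_erase B1 _ hb).symm
    have h3 : (B1.erase b).card + 1 = B1.card := card_erase_add_one hb
    have h1' : 2 * (yg_e E A1 (B1.erase b) : ℤ) - D * A1.card - (2 * d - 1) * (B1.erase b).card ≤
      2 * (yg_e E A1 B1 : ℤ) - D * A1.card - (2 * d - 1) * B1.card := h1
    rw [h2, ← h3] at h1'
    push_cast at h1'
    have h4 : (2 * (d : ℤ) - 1) ≤ 2 * ((A1.filter (fun a => E a b)).card : ℤ) := by linarith
    omega

open Classical in
private lemma yg_path (A B : Finset ℕ) (E : ℕ → ℕ → Prop) (d : ℕ) (hA : A.Nonempty)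
    (ha : ∀ a ∈ A, d ≤ (B.filter (fun b => E a b)).card)
    (hb : ∀ b ∈ B, d ≤ (A.filter (fun a => E a b)).card) (m : ℕ) (hm : m ≤ d - 1) :
    ∃ s b : ℕ → ℕ, (∀ j ≤ m, s j ∈ A) ∧
    (∀ j < m, b j ∈ B ∧ E (s j) (b j) ∧ E (s (j + 1)) (b j)) ∧
    (∀ i ≤ m, ∀ j ≤ m, s i = s j → i = j) ∧ ∀ i < m, ∀ j < m, b i = b j → i = j := by
  induction m with
  | zero =>
    obtain ⟨a, haA⟩ := hA
    refine ⟨fun _ => a, fun _ => 0, fun _ _ => haA, fun j hj => absurd hj (by omega),
      fun i hi j hj _ => by omega, fun i hi => absurd hi (by omega)⟩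
  | succ m ih =>
    obtain ⟨s, b, h1, h2, h3, h4⟩ := ih (by omega)
    obtain ⟨b', hb', hbn⟩ : ∃ b' ∈ B.filter (fun b => E (s m) b), b' ∉ (range m).image b := by
      apply exists_mem_notMem_of_card_lt_card
      have e1 := card_image_le (s := range m) (f := b)
      rw [card_range] at e1
      have e2 := ha (s m) (h1 m le_rfl)
      omega
    rw [mem_filter] at hb'
    obtain ⟨s', hs', hsn⟩ : ∃ s' ∈ A.filter (fun a => E a b'), s' ∉ (range (m + 1)).image s := by
      apply exists_mem_notMem_of_card_lt_card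
      have e1 := card_image_le (s := range (m + 1)) (f := s)
      rw [card_range] at e1
      have e2 := hb b' hb'.1
      omega
    rw [mem_filter] at hs'
    have hbn' : ∀ j < m, b j ≠ b' := fun j hj hh =>
      hbn (mem_image.mpr ⟨j, mem_range.mpr hj, hh⟩)
    have hsn' : ∀ j ≤ m, s j ≠ s' := fun j hj hh =>
      hsn (mem_image.mpr ⟨j, mem_range.mpr (by omega), hh⟩)
    refine ⟨fun j => if j ≤ m then s j else s', fun j => if j < m then b j else b', ?_, ?_, ?_, ?_⟩
    · intro j hj
      dsimp only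
      split_ifs with hjm
      · exact h1 j hjm
      · exact hs'.1
    · intro j hj
      dsimp only
      rcases Nat.lt_or_ge j m with hjm | hjm
      · rw [if_pos hjm, if_pos hjm.le, if_pos (by omega : j + 1 ≤ m)]
        exact h2 j hjm
      · have : j = m := by omega
        subst this
        rw [if_neg (lt_irrefl _), if_pos le_rfl, if_neg (by omega)]
        exact ⟨hb'.1, hb'.2, hs'.2⟩
    · intro i hi j hj hij
      dsimp only at hij
      split_ifs at hij with e1 e2 e2
      · exact h3 i e1 j e2 hij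
      · exact absurd hij (hsn' i e1)
      · exact absurd hij.symm (hsn' j e2)
      · omega
    · intro i hi j hj hij
      dsimp only at hij
      split_ifs at hij with e1 e2 e2
      · exact h4 i e1 j e2 hij
      · exact absurd hij (hbn' i e1)
      · exact absurd hij.symm (hbn' j e2)
      · omega

theorem y_grp : Y_grp := by
  classical
  intro A B E d D hA hd hD hc hdeg
  obtain ⟨A1, hA1, B1, hB1, hne, ha, hb⟩ := yg_sub A B E d D hA hd hD hc
    (fun a ha => by
      have := hdeg a ha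
      rwa [yg_ncard] at this)
  obtain ⟨s, b, h1, h2, h3, h4⟩ := yg_path A1 B1 E d hne ha hb (d - 1) le_rfl
  exact ⟨s, b, fun j hj => hA1 (h1 j hj), fun j hj => ⟨hB1 (h2 j hj).1, (h2 j hj).2⟩, h3, h4⟩

end Pool.Agent.APC
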