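import Mathlib
import Pool.Agent.Lib.MP_e0f8f3_nt.DefsD

set_option autoImplicit false

namespace Pool.Agent.APC

open Finset
open Pool.Agent.BVall

private theorem yord_core (H L : ℕ) (a s : ℕ → ℕ) (hLH : L + 1 < H)
    (hex : ∀ j ≤ L, ∃ x, 0 < x ∧ x < H ∧ a x = s j)
    (ha : ∀ i ≤ H, ∀ j ≤ H, a i = a j → i = j) (hs : ∀ i ≤ L, ∀ j ≤ L, s i = s j → i = j)
    (p : ℕ → Prop) [DecidablePred p] (hp : ∀ x, p x ↔ x < H ∧ ∀ j ≤ L, a x ≠ s j) :
    Nat.count p H = H - (L + 1) := by
  classical
  choose! g hg using hex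
  have h1 : ((range H).filter (fun x => ¬ p x)) = (range (L + 1)).image g := by
    ext x
    rw [mem_filter, mem_range, mem_image]
    constructor
    · rintro ⟨hx, hnp⟩
      rw [hp] at hnp
      have h2 : ∃ j ≤ L, a x = s j := by
        by_contra hcon
        apply hnp
        refine ⟨hx, fun j hj h => hcon ⟨j, hj, h⟩⟩
      obtain ⟨j, hj, hj2⟩ := h2
      refine ⟨j, mem_range.2 (by omega), ?_⟩
      obtain ⟨h3, h4, h5⟩ := hg j hj
      exact ha _ (by omega) _ (by omega) (h5.trans hj2.symm)
    · rintro ⟨j, hj, rfl⟩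
      have hj' : j ≤ L := by
        have := mem_range.1 hj
        omega
      obtain ⟨h3, h4, h5⟩ := hg j hj'
      refine ⟨h4, fun hpx => ?_⟩
      exact ((hp _).1 hpx).2 j hj' h5
  have h2 : ((range (L + 1)).image g).card = L + 1 := by
    rw [card_image_of_injOn, card_range]
    intro i hi j hj hij
    have hi' : i ≤ L := by
      have := mem_range.1 (Finset.mem_coe.1 hi)
      omega
    have hj' : j ≤ L := by
      have := mem_range.1 (Finset.mem_coe.1 hj)
      omega
    apply hs i hi' j hj'
    rw [← (hg i hi').2.2, ← (hg j hj').2.2, hij]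
  have h3 := Finset.card_filter_add_card_filter_not (s := range H) p
  rw [h1, h2, card_range, ← Nat.count_eq_card_filter_range] at h3
  omega

theorem y_ord : Y_ord := by
  classical
  intro H L a s hLH hex ha hs
  obtain ⟨p, hp⟩ : ∃ p : ℕ → Prop, ∀ x, p x ↔ x < H ∧ ∀ j ≤ L, a x ≠ s j :=
    ⟨_, fun _ => Iff.rfl⟩
  obtain ⟨M, hM⟩ : ∃ M : ℕ, M = H - (L + 1) := ⟨_, rfl⟩
  have hcount : Nat.count p H = M := by
    rw [hM]
    exact yord_core H L a s hLH hex ha hs p hp
  have hcard : ∀ hf : (Set.ofPred p).Finite, hf.toFinset.card = M := by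
    intro hf
    rw [← hcount, Nat.count_eq_card_filter_range]
    congr 1
    ext x
    rw [Set.Finite.mem_toFinset, mem_filter, mem_range]
    constructor
    · intro h
      have h' : p x := h
      exact ⟨((hp x).1 h').1, h'⟩
    · intro h
      exact h.2
  have hnth : ∀ j < M, p (Nat.nth p j) := fun j hj =>
    Nat.nth_mem j (fun hf => by rw [hcard hf]; exact hj)
  have hcn : ∀ j < M, Nat.count p (Nat.nth p j) = j := fun j hj =>
    Nat.count_nth (fun hf => by rw [hcard hf]; exact hj)
  obtain ⟨o, ho⟩ : ∃ o : ℕ → ℕ, ∀ j, o j = if j < M then a (Nat.nth p j) else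
      if j < H then s (j - M) else a H := ⟨_, fun _ => rfl⟩
  have o1 : ∀ j, j < M → o j = a (Nat.nth p j) := by
    intro j hj
    rw [ho, if_pos hj]
  have o2 : ∀ j, M ≤ j → j < H → o j = s (j - M) := by
    intro j hj hjH
    rw [ho, if_neg (by omega), if_pos hjH]
  have o3 : o H = a H := by
    rw [ho, if_neg (by omega), if_neg (by omega)]
  have hMH : M + (L + 1) = H := by omega
  have k1 : ∀ i, i < M → ∀ j, j < M → o i = o j → i = j := by
    intro i hi j hj h
    rw [o1 i hi, o1 j hj] at h
    have e1 := ((hp _).1 (hnth i hi)).1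
    have e2 := ((hp _).1 (hnth j hj)).1
    have e3 := ha _ (by omega) _ (by omega) h
    rw [← hcn i hi, ← hcn j hj, e3]
  have k2 : ∀ i, i < M → ∀ j, M ≤ j → j < H → o i ≠ o j := by
    intro i hi j hj hjH h
    rw [o1 i hi, o2 j hj hjH] at h
    exact ((hp _).1 (hnth i hi)).2 (j - M) (by omega) h
  have k3 : ∀ i, i < M → o i ≠ o H := by
    intro i hi h
    rw [o1 i hi, o3] at h
    have e1 := ((hp _).1 (hnth i hi)).1
    have e3 := ha _ (by omega) _ (le_refl H) h
    omega
  have k4 : ∀ i, M ≤ i → i < H → ∀ j, M ≤ j → j < H → o i = o j → i = j := by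
    intro i hi hiH j hj hjH h
    rw [o2 i hi hiH, o2 j hj hjH] at h
    have := hs _ (by omega) _ (by omega) h
    omega
  have k5 : ∀ i, M ≤ i → i < H → o i ≠ o H := by
    intro i hi hiH h
    rw [o2 i hi hiH, o3] at h
    obtain ⟨x, _, hx, hx2⟩ := hex (i - M) (by omega)
    have := ha x (by omega) H (le_refl H) (hx2.trans h)
    omega
  have hp0 : p 0 := by
    rw [hp]
    refine ⟨by omega, fun j hj h => ?_⟩
    obtain ⟨x, hx0, hx, hx2⟩ := hex j hj
    have := ha 0 (by omega) x (by omega) (h.trans hx2.symm)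
    omega
  refine ⟨o, fun x => Nat.count p x, ?_, ?_, o3, ?_, ?_, ?_⟩
  · intro i hi j hj h
    rcases lt_or_ge i M with hi1 | hi1
    · rcases lt_or_ge j M with hj1 | hj1
      · exact k1 i hi1 j hj1 h
      · rcases lt_or_ge j H with hj2 | hj2
        · exact absurd h (k2 i hi1 j hj1 hj2)
        · have : j = H := by omega
          subst this
          exact absurd h (k3 i hi1)
    · rcases lt_or_ge i H with hi2 | hi2
      · rcases lt_or_ge j M with hj1 | hj1
        · exact absurd h.symm (k2 j hj1 i hi1 hi2)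
        · rcases lt_or_ge j H with hj2 | hj2
          · exact k4 i hi1 hi2 j hj1 hj2 h
          · have : j = H := by omega
            subst this
            exact absurd h (k5 i hi1 hi2)
      · have hiH : i = H := by omega
        subst hiH
        rcases lt_or_ge j M with hj1 | hj1
        · exact absurd h.symm (k3 j hj1)
        · rcases lt_or_ge j i with hj2 | hj2
          · exact absurd h.symm (k5 j hj1 hj2)
          · omega
  · intro j hj
    rcases lt_or_ge j M with hj1 | hj1
    · exact ⟨Nat.nth p j, (((hp _).1 (hnth j hj1)).1).le, o1 j hj1⟩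
    · rcases lt_or_ge j H with hj2 | hj2
      · obtain ⟨x, _, hx, hx2⟩ := hex (j - M) (by omega)
        exact ⟨x, by omega, by rw [o2 j hj1 hj2, hx2]⟩
      · have : j = H := by omega
        subst this
        exact ⟨j, le_refl _, o3⟩
  · rw [o1 0 (by omega)]
    have h1 := Nat.nth_count hp0
    rw [Nat.count_zero] at h1
    rw [h1]
  · intro j hj
    rw [← hM, o2 (M + j) (by omega) (by omega)]
    congr 1
    omega
  · intro x hx hgood
    have px : p x := (hp x).2 ⟨by omega, fun j hj => (hgood j hj).1⟩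
    have px1 : p (x + 1) := (hp _).2 ⟨hx, fun j hj => (hgood j hj).2⟩
    have hc1 : Nat.count p (x + 1) = Nat.count p x + 1 := by
      rw [Nat.count_succ, if_pos px]
    have hlt : Nat.count p (x + 1) < M := by
      rw [← hcount]
      exact Nat.count_strict_mono px1 hx
    rw [← hM]
    refine ⟨by show Nat.count p x + 1 < M; omega, ?_, ?_⟩
    · show o (Nat.count p x) = a x
      rw [o1 _ (by omega), Nat.nth_count px]
    · show o (Nat.count p x + 1) = a (x + 1)
      rw [← hc1, o1 _ hlt, Nat.nth_count px1]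

end Pool.Agent.APC
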