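import Mathlib
import Pool.Agent.Lib.MP_e0f8f3_nt.DefsD

set_option autoImplicit false

/-!
A long path of primes.
-/

namespace Pool.Agent.APC

open Finset Filter
open Pool.Agent.BVall

private lemma yp_one {P n s p : ℕ} (hs0 : 0 < s)
    (h1 : 2 * (p + 1) ≤ n * s) (h3 : (p + 1) % (2 * P * s) = 0) :
    s * (2 * ((p + 1) / (2 * s))) = p + 1 ∧ 1 ≤ (p + 1) / (2 * s) ∧
      2 * ((p + 1) / (2 * s)) ≤ n - 1 := by
  obtain ⟨c, hc⟩ := Nat.dvd_of_mod_eq_zero h3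
  have hbc : (p + 1) / (2 * s) = P * c := by
    rw [hc]
    have : 2 * P * s * c = (2 * s) * (P * c) := by ring
    rw [this]
    exact Nat.mul_div_cancel_left _ (by omega)
  have hsb : s * (2 * ((p + 1) / (2 * s))) = p + 1 := by
    rw [hbc, hc]; ring
  have hb1 : 1 ≤ (p + 1) / (2 * s) := by
    rcases Nat.eq_zero_or_pos ((p + 1) / (2 * s)) with h0 | h0
    · rw [h0] at hsb; simp at hsb
    · exact h0
  have hbn : 4 * ((p + 1) / (2 * s)) ≤ n := by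
    have h5 : (4 * ((p + 1) / (2 * s))) * s ≤ n * s := by
      calc (4 * ((p + 1) / (2 * s))) * s = 2 * (s * (2 * ((p + 1) / (2 * s)))) := by ring
        _ = 2 * (p + 1) := by rw [hsb]
        _ ≤ n * s := h1
    exact Nat.le_of_mul_le_mul_right h5 hs0
  exact ⟨hsb, hb1, by omega⟩

private lemma yp_deg {P k n S s : ℕ} (hs : 0 < s)
    (h : 9 * S ≤ ((Icc 1 (n * S)).filter (fun p => p.Prime ∧
      2 * (p + 1) ≤ n * s ∧ 2 ^ 2 ^ (4 + k) < p ∧ (p + 1) % (2 * P * s) = 0 ∧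
      ∀ l ∈ LL P k s, ((s + 2 * P) * ((p + 1) / s)) % l ≠ 1)).card) :
    9 * S ≤ {b | b ∈ Icc 1 ((n - 1) / 2) ∧ (s * (2 * b) - 1).Prime}.ncard := by
  classical
  refine h.trans ?_
  rw [← Set.ncard_coe_finset]
  have hfin : {b | b ∈ Icc 1 ((n - 1) / 2) ∧ (s * (2 * b) - 1).Prime}.Finite :=
    (Finset.finite_toSet (Icc 1 ((n - 1) / 2))).subset fun b hb => hb.1
  refine Set.ncard_le_ncard_of_injOn (fun p => (p + 1) / (2 * s)) ?_ ?_ hfin
  · intro p hp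
    have hp' := (Finset.mem_filter.1 (Finset.mem_coe.1 hp)).2
    obtain ⟨e1, e2, e3⟩ := yp_one hs hp'.2.1 hp'.2.2.2.1
    refine ⟨Finset.mem_Icc.2 ⟨e2, ?_⟩, ?_⟩
    · show (p + 1) / (2 * s) ≤ (n - 1) / 2
      omega
    · show (s * (2 * ((p + 1) / (2 * s))) - 1).Prime
      rw [e1, Nat.add_sub_cancel]
      exact hp'.1
  · intro p hp q hq hpq
    have hp' := (Finset.mem_filter.1 (Finset.mem_coe.1 hp)).2
    have hq' := (Finset.mem_filter.1 (Finset.mem_coe.1 hq)).2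
    have e1 := (yp_one hs hp'.2.1 hp'.2.2.2.1).1
    have e2 := (yp_one hs hq'.2.1 hq'.2.2.2.1).1
    have hpq' : (p + 1) / (2 * s) = (q + 1) / (2 * s) := hpq
    rw [hpq', e2] at e1
    omega

theorem y_path (hP : T_P) (h : U_avg) (hg : Y_grp) : Y_path := by
  classical
  intro ε hε hε1
  obtain ⟨P, hPP⟩ := hP
  obtain ⟨K, n1, hK⟩ := h P hPP (ε / 3) (by positivity) (by linarith)
  have tk : Tendsto (fun n : ℕ => (n : ℝ)) atTop atTop := tendsto_natCast_atTop_atTop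
  have t1 : Tendsto (fun n : ℕ => (n : ℝ) ^ (ε / 3)) atTop atTop :=
    (tendsto_rpow_atTop (by positivity)).comp tk
  have t2 : Tendsto (fun n : ℕ => (n : ℝ) ^ (ε / 12)) atTop atTop :=
    (tendsto_rpow_atTop (by positivity)).comp tk
  have t3 : Tendsto (fun n : ℕ => (n : ℝ) ^ (1 / 3 : ℝ)) atTop atTop :=
    (tendsto_rpow_atTop (by positivity)).comp tk
  have ev : ∀ᶠ n : ℕ in atTop, n1 ≤ n ∧ (2 ^ 2 ^ (4 + 0)) ^ K ≤ n ∧ 1 ≤ n ∧
      3 ≤ (n : ℝ) ^ (ε / 3) ∧ 2 ≤ (n : ℝ) ^ (ε / 12) ∧ 9 ≤ (n : ℝ) ^ (1 / 3 : ℝ) :=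
    (eventually_ge_atTop n1).and ((eventually_ge_atTop _).and ((eventually_ge_atTop 1).and
      ((t1.eventually_ge_atTop 3).and ((t2.eventually_ge_atTop 2).and
        (t3.eventually_ge_atTop 9)))))
  obtain ⟨n0, hn0⟩ := eventually_atTop.1 ev
  refine ⟨n0, ?_⟩
  intro n hn
  obtain ⟨a1, a2, a3, a4, a5, a6⟩ := hn0 n hn
  obtain ⟨S, Sg, hSg, hS9, hcard, -, hS, hmain⟩ := hK n 0 a1 a2
  have hnr : (1 : ℝ) ≤ n := by exact_mod_cast a3
  have hnpos : (0 : ℝ) < n := by linarith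
  -- sizes
  have hSgcard : Sg.card ≤ 9 * S := by
    calc Sg.card ≤ ((Ioc S (9 * S)).filter Nat.Prime).card := Finset.card_le_card hSg
      _ ≤ (Ioc S (9 * S)).card := Finset.card_filter_le _ _
      _ = 9 * S - S := Nat.card_Ioc _ _
      _ ≤ 9 * S := Nat.sub_le _ _
  have hSgcard' : (Sg.card : ℝ) ≤ 9 * S := by exact_mod_cast hSgcard
  have hexp : (1 : ℝ) - ε / 3 / 4 = 1 - ε / 12 := by ring
  rw [hexp] at hS9
  have hx1 : (1 : ℝ) ≤ (n : ℝ) ^ (1 - ε) := Real.one_le_rpow hnr (by linarith)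
  -- product
  have hprod : (n : ℝ) * (3 * (n : ℝ) ^ (1 - ε)) ≤ 9 * S * Sg.card := by
    have e1 : (n : ℝ) ^ (1 - ε / 3) * (n : ℝ) ^ (1 - ε / 3) =
        (n : ℝ) * ((n : ℝ) ^ (ε / 3) * (n : ℝ) ^ (1 - ε)) := by
      rw [← Real.rpow_add hnpos, ← Real.rpow_add hnpos]
      nth_rewrite 2 [← Real.rpow_one (n : ℝ)]
      rw [← Real.rpow_add hnpos]
      congr 1
      ring
    have e2 : (0 : ℝ) ≤ (n : ℝ) ^ (1 - ε / 3) := Real.rpow_nonneg hnpos.le _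
    calc (n : ℝ) * (3 * (n : ℝ) ^ (1 - ε))
        ≤ (n : ℝ) * ((n : ℝ) ^ (ε / 3) * (n : ℝ) ^ (1 - ε)) := by
          refine mul_le_mul_of_nonneg_left ?_ hnpos.le
          exact mul_le_mul_of_nonneg_right a4 (by linarith)
      _ = (n : ℝ) ^ (1 - ε / 3) * (n : ℝ) ^ (1 - ε / 3) := e1.symm
      _ ≤ (Sg.card : ℝ) * Sg.card := mul_le_mul hcard hcard e2 (Nat.cast_nonneg _)
      _ ≤ (9 * S) * Sg.card := mul_le_mul_of_nonneg_right hSgcard' (Nat.cast_nonneg _)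
  -- the number `d`
  obtain ⟨d, hd⟩ : ∃ d : ℕ, d = 9 * S * Sg.card / n := ⟨_, rfl⟩
  have hd1 : 9 * S * Sg.card < n * (d + 1) := by
    rw [hd]
    exact Nat.lt_mul_div_succ _ (by omega)
  have hd2 : d * n ≤ 9 * S * Sg.card := by
    rw [hd]
    exact Nat.div_mul_le_self _ _
  have hd3 : 3 * (n : ℝ) ^ (1 - ε) < (d : ℝ) + 1 := by
    have e1 : (9 * S * Sg.card : ℝ) < n * (d + 1) := by exact_mod_cast hd1
    have e2 : (n : ℝ) * (3 * (n : ℝ) ^ (1 - ε)) < n * (d + 1) := lt_of_le_of_lt hprod e1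
    exact lt_of_mul_lt_mul_left e2 hnpos.le
  have hdpos : 1 ≤ d := by
    have : (1 : ℝ) ≤ d := by linarith
    exact_mod_cast this
  have h2Sg : 2 * Sg.card ≤ n := by
    have e1 : (Sg.card : ℝ) ≤ (n : ℝ) ^ (1 - ε / 12) := hSgcard'.trans hS9
    have e2 : (n : ℝ) ^ (1 - ε / 12) * (n : ℝ) ^ (ε / 12) = n := by
      rw [← Real.rpow_add hnpos]
      nth_rewrite 2 [← Real.rpow_one (n : ℝ)]
      congr 1
      ring
    have e3 : 0 ≤ (n : ℝ) ^ (1 - ε / 12) := Real.rpow_nonneg hnpos.le _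
    have e4 : (2 * Sg.card : ℝ) ≤ n := by
      calc (2 * Sg.card : ℝ) ≤ 2 * (n : ℝ) ^ (1 - ε / 12) := by linarith
        _ ≤ (n : ℝ) ^ (1 - ε / 12) * (n : ℝ) ^ (ε / 12) := by nlinarith
        _ = n := e2
    exact_mod_cast e4
  have h2d : 2 * d ≤ 9 * S := by
    have e1 : (2 * d) * n ≤ (9 * S) * n := by
      calc (2 * d) * n = 2 * (d * n) := by ring
        _ ≤ 2 * (9 * S * Sg.card) := Nat.mul_le_mul_left _ hd2
        _ = (9 * S) * (2 * Sg.card) := by ring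
        _ ≤ (9 * S) * n := Nat.mul_le_mul_left _ h2Sg
    exact Nat.le_of_mul_le_mul_right e1 (by omega)
  have hSgne : Sg.Nonempty := by
    rw [← Finset.card_pos]
    rcases Nat.eq_zero_or_pos Sg.card with h0 | h0
    · rw [h0] at hprod
      have : (0 : ℝ) < (n : ℝ) * (3 * (n : ℝ) ^ (1 - ε)) := by positivity
      simp at hprod
      linarith
    · exact h0
  have hBcard : 2 * d * (Icc 1 ((n - 1) / 2)).card ≤ 9 * S * Sg.card := by
    rw [Nat.card_Icc, Nat.add_sub_cancel]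
    calc 2 * d * ((n - 1) / 2) = d * (2 * ((n - 1) / 2)) := by ring
      _ ≤ d * n := Nat.mul_le_mul_left _ (by omega)
      _ ≤ _ := hd2
  have hSgp : ∀ s ∈ Sg, s.Prime ∧ S < s ∧ s ≤ 9 * S := by
    intro s hs
    have hs1 := Finset.mem_filter.1 (hSg hs)
    have hs2 := Finset.mem_Ioc.1 hs1.1
    exact ⟨hs1.2, hs2.1, hs2.2⟩
  obtain ⟨s, b, p1, p2, p3, p4⟩ := hg Sg (Icc 1 ((n - 1) / 2))
    (fun s b => (s * (2 * b) - 1).Prime) d (9 * S) hSgne hdpos h2d hBcard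
    (fun s hs => yp_deg (hSgp s hs).1.pos (hmain s hs))
  have hS3 : (n : ℝ) ^ (1 / 3 : ℝ) ≤ S := by
    have e1 : (n : ℝ) ^ (1 / 3 : ℝ) * (n : ℝ) ^ (1 / 3 : ℝ) ≤ (n : ℝ) ^ (1 - ε / 3) := by
      rw [← Real.rpow_add hnpos]
      exact Real.rpow_le_rpow_of_exponent_le hnr (by linarith)
    have e2 : (n : ℝ) ^ (1 - ε / 3) ≤ 9 * S := hcard.trans hSgcard'
    have e3 : (0 : ℝ) ≤ (n : ℝ) ^ (1 / 3 : ℝ) := Real.rpow_nonneg hnpos.le _
    nlinarith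
  refine ⟨d - 1, s, b, ?_, ?_, ?_, p3, p4⟩
  · rw [Nat.cast_sub hdpos]
    push_cast
    linarith
  · intro j hj
    obtain ⟨q1, q2, q3⟩ := hSgp (s j) (p1 j hj)
    refine ⟨q1, lt_trans hS q2, ?_, ?_⟩
    · have e1 : (n : ℝ) ^ (1 / 3 : ℝ) < s j := lt_of_le_of_lt hS3 (by exact_mod_cast q2)
      have e2 : ((n : ℝ) ^ (1 / 3 : ℝ)) ^ 3 = n := by
        rw [← Real.rpow_natCast, ← Real.rpow_mul hnpos.le]
        norm_num
      have e3 : (0 : ℝ) ≤ (n : ℝ) ^ (1 / 3 : ℝ) := Real.rpow_nonneg hnpos.le _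
      have e4 : (n : ℝ) < (s j : ℝ) ^ 3 := by
        rw [← e2]
        exact pow_lt_pow_left₀ e1 e3 (by norm_num)
      have e5 : n < s j ^ 3 := by exact_mod_cast e4
      exact lt_of_lt_of_le e5 (Nat.pow_le_pow_right q1.pos (by norm_num))
    · have e1 : (s j : ℝ) ≤ (9 * S : ℝ) := by exact_mod_cast q3
      exact e1.trans hS9
  · intro j hj
    obtain ⟨q1, q2, q3⟩ := p2 j hj
    have q4 := Finset.mem_Icc.1 q1
    exact ⟨q4.1, by omega, q2, q3⟩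

end Pool.Agent.APC
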